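import Pool.Agent.Helper54.AD.Glob

/-!
# Pointwise bounds for the drift, the residual and the quadratic form
-/

open Set MeasureTheory Filter Topology
open scoped ContDiff

noncomputable section

namespace Pool.Agent.Helper54.AD

variable {p : ℝ × ℝ} {f : ℝ × ℝ → ℝ}

theorem cd_kk (hp : p ≠ 0) (hs : 0 < ss p) : ContDiffAt ℝ ∞ kk p := by
  unfold kk
  exact ((cd_aa hp hs).pow 2).div cd_rq.contDiffAt (rq_pos hp).ne'

theorem kk_pos' (hp : p ≠ 0) (hs : 0 < ss p) : 0 < kk p := by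
  unfold kk
  have := rq_pos hp
  have := aa_pos hs
  positivity

/-- from bounds near the origin to bounds on the punctured unit disc -/
theorem bound_of_near (hf : ∀ p ≠ 0, 0 < ss p → ContinuousAt f p) {C : ℝ}
    (hn : ∀ p ≠ 0, rq p < 1 / 16 → |f p| ≤ C * kk p) :
    ∃ C' : ℝ, 0 ≤ C' ∧ ∀ p ≠ 0, rq p ≤ 1 → |f p| ≤ C' * kk p := by
  have hc : ∀ p ≠ 0, 0 < ss p → ContinuousAt (fun p => f p / kk p) p := fun p hp hs =>
    (hf p hp hs).div (cd_kk hp hs).continuousAt (kk_pos' hp hs).ne'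
  obtain ⟨D, hD0, hD⟩ := exists_bound_ann hc
  refine ⟨max C D, hD0.trans (le_max_right _ _), fun p hp h => ?_⟩
  have hk := kk_pos hp h
  rcases lt_or_ge (rq p) (1 / 16) with h1 | h1
  · exact (hn p hp h1).trans (mul_le_mul_of_nonneg_right (le_max_left _ _) hk.le)
  · have h2 := hD p h1 h
    rw [abs_div, abs_of_pos hk, div_le_iff₀ hk] at h2
    exact h2.trans (mul_le_mul_of_nonneg_right (le_max_right _ _) hk.le)

theorem sq_p1_le (p : ℝ × ℝ) : p.1 ^ 2 ≤ rq p := by unfold rq; nlinarith [sq_nonneg p.2]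
theorem sq_p2_le (p : ℝ × ℝ) : p.2 ^ 2 ≤ rq p := by unfold rq; nlinarith [sq_nonneg p.1]

theorem psi_deriv_bound {x y q s : ℝ} (hq : 0 < q) (hs : 1 ≤ s) (hx : x ^ 2 ≤ q) (hy : y ^ 2 ≤ q) :
    (8 / 3 * x * (1 / (s * q) + y ^ 2 / (s ^ 2 * q ^ 2) - 2 * y ^ 2 / (s * q ^ 2))) ^ 2 ≤
      200 * (1 / s ^ 2 / q) := by
  have hs0 : 0 < s := by linarith
  have h1 : |1 / (s * q) + y ^ 2 / (s ^ 2 * q ^ 2) - 2 * y ^ 2 / (s * q ^ 2)| ≤ 2 / (s * q) := by
    have e1 : 1 / (s * q) + y ^ 2 / (s ^ 2 * q ^ 2) - 2 * y ^ 2 / (s * q ^ 2) =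
        1 / (s * q) * (1 + (y ^ 2 / q) * (1 / s - 2)) := by field_simp; ring
    have hz0 : 0 ≤ y ^ 2 / q := by positivity
    have hz1 : y ^ 2 / q ≤ 1 := by rw [div_le_one hq]; exact hy
    have hi : 0 < 1 / s := by positivity
    have hi1 : 1 / s ≤ 1 := by rw [div_le_one hs0]; exact hs
    rw [e1, abs_mul, abs_of_pos (by positivity : 0 < 1 / (s * q))]
    have e2 : 2 / (s * q) = 1 / (s * q) * 2 := by ring
    rw [e2]
    refine mul_le_mul_of_nonneg_left ?_ (by positivity)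
    rw [abs_le]
    constructor <;> nlinarith
  have h2 : (1 / (s * q) + y ^ 2 / (s ^ 2 * q ^ 2) - 2 * y ^ 2 / (s * q ^ 2)) ^ 2 ≤
      (2 / (s * q)) ^ 2 := by
    rw [← sq_abs]; exact pow_le_pow_left₀ (abs_nonneg _) h1 2
  calc (8 / 3 * x * (1 / (s * q) + y ^ 2 / (s ^ 2 * q ^ 2) - 2 * y ^ 2 / (s * q ^ 2))) ^ 2
      = 64 / 9 * x ^ 2 * (1 / (s * q) + y ^ 2 / (s ^ 2 * q ^ 2) - 2 * y ^ 2 / (s * q ^ 2)) ^ 2 := by
        ring
    _ ≤ 64 / 9 * q * (2 / (s * q)) ^ 2 := by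
        refine mul_le_mul (by linarith) h2 (sq_nonneg _) (by positivity)
    _ = 256 / 9 * (1 / s ^ 2 / q) := by field_simp; ring
    _ ≤ 200 * (1 / s ^ 2 / q) := by
        refine mul_le_mul_of_nonneg_right (by norm_num) (by positivity)

theorem b1_near (_hp : p ≠ 0) (h : rq p < 1 / 16) : b1 p = dy psi0 p := by
  unfold b1; rw [dy_congr (psi_ev h)]

theorem b2_near (_hp : p ≠ 0) (h : rq p < 1 / 16) : b2 p = -dx psi0 p := by
  unfold b2; rw [dx_congr (psi_ev h)]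

/-- The drift is bounded by the model singularity. -/
theorem bound_b : ∃ C : ℝ, 0 ≤ C ∧ ∀ p ≠ 0, rq p ≤ 1 → |b1 p ^ 2 + b2 p ^ 2| ≤ C * kk p := by
  refine bound_of_near (C := 400) (fun p hp _ => ?_) fun p hp h => ?_
  · exact (((cd_b1 hp).pow 2).add ((cd_b2 hp).pow 2)).continuousAt
  · have h1 := rq_pos hp
    have hle : rq p ≤ 1 := by linarith
    have hs := ss_ge hle
    have hs0 := ss_pos hle
    rw [abs_of_nonneg (by positivity), b1_near hp h, b2_near hp h, dx_psi0 hp hs0, dy_psi0 hp hs0,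
      neg_sq]
    have e1 := psi_deriv_bound h1 (by linarith : 1 ≤ ss p) (sq_p1_le p) (sq_p2_le p)
    have e2 := psi_deriv_bound h1 (by linarith : 1 ≤ ss p) (sq_p2_le p) (sq_p1_le p)
    have e3 : 1 / ss p ^ 2 / rq p ≤ kk p := by
      unfold kk
      exact div_le_div_of_nonneg_right (inv_sq_le_aa hle) h1.le
    linarith

/-- the residual of the profile `w0` -/
def N0 (p : ℝ × ℝ) : ℝ := lap w0 p - (b1 p * dx w0 p + b2 p * dy w0 p)

theorem cd_N0 (hp : p ≠ 0) : ContDiffAt ℝ ∞ N0 p := by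
  unfold N0
  exact (cd_lap (cd_w0 hp)).sub (((cd_b1 hp).mul (cd_dx (cd_w0 hp))).add
    ((cd_b2 hp).mul (cd_dy (cd_w0 hp))))

theorem N0_near (hp : p ≠ 0) (h : rq p < 1 / 16) : N0 p =
    lap w00 p - (dy psi0 p * dx w00 p - dx psi0 p * dy w00 p) := by
  unfold N0
  rw [lap_congr (w0_ev h), dx_congr (w0_ev h), dy_congr (w0_ev h), b1_near hp h, b2_near hp h]
  ring

theorem residual_bound (hp : p ≠ 0) (h : rq p ≤ 1) :
    |10 / 9 * R1 p + (20 / 27 / ss p - 5 / 9) * R3 p +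
        8 / 3 * ((p.1 ^ 2 - p.2 ^ 2) / rq p) *
          (-(2 / 3) * R1 p + (-(5 / 18) / ss p + 1 / 6) * R3 p) -
        4 / 3 * (2 * p.1 * p.2 / rq p) *
          (p.2 / rq p + 1 / (2 * ss p) * ((3 * p.1 ^ 2 * p.2 - p.2 ^ 3) / rq p ^ 2))| ≤
      10 * mm p := by
  have h1 := rq_pos hp
  have hs := ss_ge h
  have hs0 := ss_pos h
  have e6 : rq p = p.1 ^ 2 + p.2 ^ 2 := rfl
  have hi0 : 0 < 1 / ss p := by positivity
  have hi1 : 1 / ss p ≤ 1 / 20 := one_div_le_one_div_of_le (by norm_num) hs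
  have a1 := abs_R1_le hp
  have a2 := abs_R3_le hp
  have hm := mm_nonneg p
  have a3 : |p.2 / rq p| ≤ mm p := by
    refine Real.abs_le_sqrt ?_
    rw [div_pow, div_le_div_iff₀ (by positivity) h1]
    nlinarith [mul_nonneg h1.le (sq_nonneg p.1)]
  have a4 : |(3 * p.1 ^ 2 * p.2 - p.2 ^ 3) / rq p ^ 2| ≤ mm p := by
    refine Real.abs_le_sqrt ?_
    rw [div_pow, div_le_div_iff₀ (by positivity) h1]
    have e7 : (rq p ^ 2) ^ 2 = rq p * (rq p) ^ 3 := by ring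
    have e8 : rq p ^ 3 = (p.1 ^ 3 - 3 * p.1 * p.2 ^ 2) ^ 2 +
      (3 * p.1 ^ 2 * p.2 - p.2 ^ 3) ^ 2 := by
      rw [e6]; ring
    rw [e7, one_mul, mul_comm]
    refine mul_le_mul_of_nonneg_left ?_ h1.le
    rw [e8]; nlinarith [sq_nonneg (p.1 ^ 3 - 3 * p.1 * p.2 ^ 2)]
  have a5 : |(p.1 ^ 2 - p.2 ^ 2) / rq p| ≤ 1 := by
    rw [abs_div, abs_of_pos h1, div_le_one h1, abs_le]
    constructor <;> nlinarith [sq_nonneg p.1, sq_nonneg p.2]
  have a6 : |2 * p.1 * p.2 / rq p| ≤ 1 := by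
    rw [abs_div, abs_of_pos h1, div_le_one h1, abs_le]
    constructor <;> nlinarith [sq_nonneg (p.1 + p.2), sq_nonneg (p.1 - p.2)]
  have b1' : |10 / 9 * R1 p| ≤ 10 / 9 * mm p := by
    rw [abs_mul, abs_of_pos (by norm_num : (0 : ℝ) < 10 / 9)]
    exact mul_le_mul_of_nonneg_left a1 (by norm_num)
  have b2' : |(20 / 27 / ss p - 5 / 9) * R3 p| ≤ 1 * mm p := by
    rw [abs_mul]
    refine mul_le_mul ?_ a2 (abs_nonneg _) zero_le_one
    have : 20 / 27 / ss p = 20 / 27 * (1 / ss p) := by ring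
    rw [this, abs_le]
    constructor <;> nlinarith
  have b3' : |-(2 / 3) * R1 p + (-(5 / 18) / ss p + 1 / 6) * R3 p| ≤ 1 * mm p := by
    have c1 : |-(2 / 3) * R1 p| ≤ 2 / 3 * mm p := by
      rw [abs_mul, abs_neg, abs_of_pos (by norm_num : (0 : ℝ) < 2 / 3)]
      exact mul_le_mul_of_nonneg_left a1 (by norm_num)
    have c2 : |(-(5 / 18) / ss p + 1 / 6) * R3 p| ≤ 1 / 3 * mm p := by
      rw [abs_mul]
      refine mul_le_mul ?_ a2 (abs_nonneg _) (by norm_num)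
      have : -(5 / 18) / ss p = -(5 / 18) * (1 / ss p) := by ring
      rw [this, abs_le]
      constructor <;> nlinarith
    refine (abs_add_le _ _).trans ?_
    linarith
  have b4' : |p.2 / rq p + 1 / (2 * ss p) * ((3 * p.1 ^ 2 * p.2 - p.2 ^ 3) / rq p ^ 2)| ≤
      2 * mm p := by
    have c1 : |1 / (2 * ss p) * ((3 * p.1 ^ 2 * p.2 - p.2 ^ 3) / rq p ^ 2)| ≤ 1 * mm p := by
      rw [abs_mul]
      refine mul_le_mul ?_ a4 (abs_nonneg _) zero_le_one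
      have : 1 / (2 * ss p) = 1 / 2 * (1 / ss p) := by field_simp
      rw [this, abs_le]
      constructor <;> nlinarith
    refine (abs_add_le _ _).trans ?_
    linarith
  have b5' : |8 / 3 * ((p.1 ^ 2 - p.2 ^ 2) / rq p) *
          (-(2 / 3) * R1 p + (-(5 / 18) / ss p + 1 / 6) * R3 p)| ≤ 8 / 3 * 1 * (1 * mm p) := by
    rw [abs_mul, abs_mul, abs_of_pos (by norm_num : (0 : ℝ) < 8 / 3)]
    exact mul_le_mul (mul_le_mul_of_nonneg_left a5 (by norm_num)) b3' (abs_nonneg _) (by norm_num)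
  have b6' : |4 / 3 * (2 * p.1 * p.2 / rq p) *
          (p.2 / rq p + 1 / (2 * ss p) * ((3 * p.1 ^ 2 * p.2 - p.2 ^ 3) / rq p ^ 2))| ≤
        4 / 3 * 1 * (2 * mm p) := by
    rw [abs_mul, abs_mul, abs_of_pos (by norm_num : (0 : ℝ) < 4 / 3)]
    exact mul_le_mul (mul_le_mul_of_nonneg_left a6 (by norm_num)) b4' (abs_nonneg _) (by norm_num)
  rw [abs_le] at b1' b2' b5' b6' ⊢
  constructor <;> linarith [b1'.1, b1'.2, b2'.1, b2'.2, b5'.1, b5'.2, b6'.1, b6'.2]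

theorem N0_near_bound (hp : p ≠ 0) (h : rq p < 1 / 16) :
    (rq p * N0 p) ^ 2 * ss p ^ 4 ≤ 100 * kk p := by
  have h1 := rq_pos hp
  have hle : rq p ≤ 1 := by linarith
  have hs0 := ss_pos hle
  rw [N0_near hp h, residual_eq hp hs0]
  have hb := residual_bound hp hle
  set X := 10 / 9 * R1 p + (20 / 27 / ss p - 5 / 9) * R3 p +
        8 / 3 * ((p.1 ^ 2 - p.2 ^ 2) / rq p) *
          (-(2 / 3) * R1 p + (-(5 / 18) / ss p + 1 / 6) * R3 p) -
        4 / 3 * (2 * p.1 * p.2 / rq p) *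
          (p.2 / rq p + 1 / (2 * ss p) * ((3 * p.1 ^ 2 * p.2 - p.2 ^ 3) / rq p ^ 2)) with hX
  have h2 : X ^ 2 ≤ (10 * mm p) ^ 2 := by
    rw [← sq_abs]; exact pow_le_pow_left₀ (abs_nonneg _) hb 2
  rw [mul_pow, mm_sq hp] at h2
  have e1 : (aa p / ss p ^ 2 * X) ^ 2 * ss p ^ 4 = aa p ^ 2 * X ^ 2 := by
    field_simp
  rw [e1]
  unfold kk
  calc aa p ^ 2 * X ^ 2 ≤ aa p ^ 2 * (10 ^ 2 * (1 / rq p)) :=
        mul_le_mul_of_nonneg_left h2 (sq_nonneg _)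
    _ = 100 * (aa p ^ 2 / rq p) := by ring

/-- The weighted residual is square integrable: pointwise bound. -/
theorem bound_res (lam : ℝ) : ∃ C : ℝ, 0 ≤ C ∧ ∀ p ≠ 0, rq p ≤ 1 →
    |((lam * w0 p - N0 p) / (ss p * sig p)) ^ 2| ≤ C * kk p := by
  refine bound_of_near (C := 2 * lam ^ 2 * 4 * 400 ^ 2 + 2 * 100) (fun p hp hs => ?_)
    fun p hp h => ?_
  · refine ContinuousAt.pow (ContinuousAt.div ?_ ?_ ?_) 2
    · exact ((contDiffAt_const.mul (cd_w0 hp)).sub (cd_N0 hp)).continuousAt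
    · exact ((cd_ss hp).mul (cd_sig hp)).continuousAt
    · exact mul_ne_zero hs.ne' (sig_pos hp).ne'
  · have h1 := rq_pos hp
    have hle : rq p ≤ 1 := by linarith
    have hs0 := ss_pos hle
    have hk := kk_pos hp hle
    rw [abs_of_nonneg (sq_nonneg _)]
    have e1 : sig p = sig0 p := (sig_ev h).self_of_nhds
    have e2 : (lam * w0 p - N0 p) / (ss p * sig p) = (lam * w0 p - N0 p) * (rq p * ss p ^ 2) := by
      rw [e1]; unfold sig0; field_simp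
    rw [e2]
    have e3 : ((lam * w0 p - N0 p) * (rq p * ss p ^ 2)) ^ 2 ≤
        2 * lam ^ 2 * (w0 p ^ 2 * (rq p * ss p ^ 2) ^ 2) + 2 * ((rq p * N0 p) ^ 2 * ss p ^ 4) := by
      have : 0 ≤ ((lam * w0 p + N0 p) * (rq p * ss p ^ 2)) ^ 2 := sq_nonneg _
      nlinarith [this]
    have e4 : (rq p * ss p ^ 2) ^ 2 ≤ 400 ^ 2 :=
      pow_le_pow_left₀ (by positivity) (rq_ss_le hp hle) 2
    have e5 := w0_sq_le hp hle
    have e6 := N0_near_bound hp h
    have e7 : w0 p ^ 2 * (rq p * ss p ^ 2) ^ 2 ≤ 4 * kk p * 400 ^ 2 :=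
      mul_le_mul e5 e4 (sq_nonneg _) (by positivity)
    have e8 : 2 * lam ^ 2 * (w0 p ^ 2 * (rq p * ss p ^ 2) ^ 2) ≤
        2 * lam ^ 2 * (4 * kk p * 400 ^ 2) := mul_le_mul_of_nonneg_left e7 (by positivity)
    calc _ ≤ _ := e3
      _ ≤ 2 * lam ^ 2 * (4 * kk p * 400 ^ 2) + 2 * (100 * kk p) := by linarith
      _ = _ := by ring

/-- the coefficient of `Φ²` in the quadratic form -/
def EE (lam : ℝ) (p : ℝ × ℝ) : ℝ := lam * sig p + cut p * sig p / rq p -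
  (dx sig p ^ 2 + dy sig p ^ 2) / (4 * sig p) + (b1 p * dx sig p + b2 p * dy sig p) / 2

theorem EE_near (hp : p ≠ 0) (h : rq p < 1 / 16) {lam : ℝ} (hl : 0 ≤ lam) :
    ss p ^ 2 * sig p ^ 2 / 6 ≤ EE lam p := by
  have h1 := rq_pos hp
  have hle : rq p ≤ 1 := by linarith
  have hs0 := ss_pos hle
  have hs := ss_ge hle
  have e1 : sig p = sig0 p := (sig_ev h).self_of_nhds
  have hsg := sig0_pos hp hle
  unfold EE
  rw [dx_congr (sig_ev h), dy_congr (sig_ev h), e1, cut_eq_one h.le, b1_near hp h, b2_near hp h,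
    dx_sig0 hp hs0, dy_sig0 hp hs0, dx_psi0 hp hs0, dy_psi0 hp hs0]
  -- reduce to the bracket
  have e6 : rq p = p.1 ^ 2 + p.2 ^ 2 := rfl
  have k1 : (-(sig0 p * (2 - 3 / ss p) / rq p) * p.1) ^ 2 +
      (-(sig0 p * (2 - 3 / ss p) / rq p) * p.2) ^ 2 =
      sig0 p ^ 2 * (2 - 3 / ss p) ^ 2 / rq p := by
    have : (-(sig0 p * (2 - 3 / ss p) / rq p) * p.1) ^ 2 +
      (-(sig0 p * (2 - 3 / ss p) / rq p) * p.2) ^ 2 =
      (sig0 p * (2 - 3 / ss p)) ^ 2 / rq p ^ 2 * (p.1 ^ 2 + p.2 ^ 2) := by ring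
    rw [this, ← e6]; field_simp
  have k2 : 8 / 3 * p.1 * (1 / (ss p * rq p) + p.2 ^ 2 / (ss p ^ 2 * rq p ^ 2) -
      2 * p.2 ^ 2 / (ss p * rq p ^ 2)) * (-(sig0 p * (2 - 3 / ss p) / rq p) * p.1) +
      -(8 / 3 * p.2 * (1 / (ss p * rq p) + p.1 ^ 2 / (ss p ^ 2 * rq p ^ 2) -
      2 * p.1 ^ 2 / (ss p * rq p ^ 2))) * (-(sig0 p * (2 - 3 / ss p) / rq p) * p.2) =
      -(8 / 3) * (sig0 p / rq p) * ((2 - 3 / ss p) / ss p) * ((p.1 ^ 2 - p.2 ^ 2) / rq p) := by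
    field_simp
    ring
  rw [k1, k2]
  have hC2 : |(p.1 ^ 2 - p.2 ^ 2) / rq p| ≤ 1 := by
    rw [abs_div, abs_of_pos h1, div_le_one h1, abs_le]
    constructor <;> nlinarith [sq_nonneg p.1, sq_nonneg p.2]
  set i : ℝ := 1 / ss p with hi
  have hi0 : 0 < i := by positivity
  have hi1 : i ≤ 1 / 20 := one_div_le_one_div_of_le (by norm_num) hs
  have hsi : ss p = 1 / i := by rw [hi]; field_simp
  set C2 := (p.1 ^ 2 - p.2 ^ 2) / rq p with hC2def
  have k3 : ss p ^ 2 * sig0 p ^ 2 / 6 = sig0 p / rq p * (i / 6) := by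
    rw [hi]; unfold sig0; field_simp
  have k4 : lam * sig0 p + 1 * sig0 p / rq p - sig0 p ^ 2 * (2 - 3 / ss p) ^ 2 / rq p /
      (4 * sig0 p) + -(8 / 3) * (sig0 p / rq p) * ((2 - 3 / ss p) / ss p) * C2 / 2 =
      lam * sig0 p + sig0 p / rq p * (1 - (1 - 3 / 2 * i) ^ 2 - 4 / 3 * (2 - 3 * i) * i * C2) := by
    rw [hi]; field_simp; ring
  rw [k3, k4]
  have k5 : i / 6 ≤ 1 - (1 - 3 / 2 * i) ^ 2 - 4 / 3 * (2 - 3 * i) * i * C2 := by
    rw [abs_le] at hC2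
    have h2 : 0 ≤ 4 / 3 * (2 - 3 * i) * i := by
      have : 0 ≤ 2 - 3 * i := by linarith
      positivity
    have h3 : 4 / 3 * (2 - 3 * i) * i * C2 ≤ 4 / 3 * (2 - 3 * i) * i * 1 :=
      mul_le_mul_of_nonneg_left hC2.2 h2
    nlinarith
  have k6 : 0 < sig0 p / rq p := by positivity
  have k7 := mul_le_mul_of_nonneg_left k5 k6.le
  have k8 : 0 ≤ lam * sig0 p := by positivity
  linarith

/-- **Coercivity of the coefficient.** -/
theorem exists_lam : ∃ lam : ℝ, 0 < lam ∧ ∀ p ≠ 0, rq p ≤ 1 →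
    ss p ^ 2 * sig p ^ 2 / 6 ≤ EE lam p := by
  have hc : ∀ p ≠ 0, 0 < ss p → ContinuousAt (fun p => (ss p ^ 2 * sig p ^ 2 / 6 +
      (dx sig p ^ 2 + dy sig p ^ 2) / (4 * sig p) - (b1 p * dx sig p + b2 p * dy sig p) / 2) /
        sig p) p := by
    intro p hp hs
    have c1 := (cd_ss hp).continuousAt
    have c2 := (cd_sig hp).continuousAt
    have c3 := (cd_dx (cd_sig hp)).continuousAt
    have c4 := (cd_dy (cd_sig hp)).continuousAt
    have c5 := (cd_b1 hp).continuousAt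
    have c6 := (cd_b2 hp).continuousAt
    have hne := (sig_pos hp).ne'
    refine ContinuousAt.div ?_ c2 hne
    refine ContinuousAt.sub (ContinuousAt.add ?_ ?_) ?_
    · exact ((c1.pow 2).mul (c2.pow 2)).div_const 6
    · exact ((c3.pow 2).add (c4.pow 2)).div (c2.const_mul 4) (mul_ne_zero (by norm_num) hne)
    · exact ((c5.mul c3).add (c6.mul c4)).div_const 2
  obtain ⟨C, hC0, hC⟩ := exists_bound_ann hc
  refine ⟨C + 1, by positivity, fun p hp h => ?_⟩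
  rcases lt_or_ge (rq p) (1 / 16) with h1 | h1
  · exact EE_near hp h1 (by positivity)
  · have h2 := (le_abs_self _).trans (hC p h1 h)
    have hsg := sig_pos hp
    rw [div_le_iff₀ hsg] at h2
    have h3 : 0 ≤ cut p * sig p / rq p := by
      have := cut_nonneg p
      have := rq_pos hp
      positivity
    unfold EE
    nlinarith

end Pool.Agent.Helper54.AD
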