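import Mathlib

/-!
# Calculus on the plane and on the torus
-/

open Set MeasureTheory Filter Topology
open scoped ContDiff

noncomputable section

namespace Pool.Agent.Helper54.AD

/-- `∂f/∂x`. -/
def dx (f : ℝ × ℝ → ℝ) (p : ℝ × ℝ) : ℝ := fderiv ℝ f p (1, 0)

/-- `∂f/∂y`. -/
def dy (f : ℝ × ℝ → ℝ) (p : ℝ × ℝ) : ℝ := fderiv ℝ f p (0, 1)

/-- The Laplacian. -/
def lap (f : ℝ × ℝ → ℝ) (p : ℝ × ℝ) : ℝ := dx (dx f) p + dy (dy f) p

variable {f g : ℝ × ℝ → ℝ} {p : ℝ × ℝ}

theorem two_le_infty : (2 : WithTop ℕ∞) ≤ ∞ := by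
  norm_cast

theorem one_le_infty : (1 : WithTop ℕ∞) ≤ ∞ := by
  norm_cast

theorem dx_congr (h : f =ᶠ[𝓝 p] g) : dx f p = dx g p := by
  unfold dx; rw [h.fderiv_eq]

theorem dy_congr (h : f =ᶠ[𝓝 p] g) : dy f p = dy g p := by
  unfold dy; rw [h.fderiv_eq]

theorem dx_congr' (h : f =ᶠ[𝓝 p] g) : dx f =ᶠ[𝓝 p] dx g :=
  (eventually_eventually_nhds.mpr h).mono fun _ hy => dx_congr hy

theorem dy_congr' (h : f =ᶠ[𝓝 p] g) : dy f =ᶠ[𝓝 p] dy g :=
  (eventually_eventually_nhds.mpr h).mono fun _ hy => dy_congr hy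

theorem lap_congr (h : f =ᶠ[𝓝 p] g) : lap f p = lap g p := by
  unfold lap; rw [dx_congr (dx_congr' h), dy_congr (dy_congr' h)]

theorem dx_add (hf : DifferentiableAt ℝ f p) (hg : DifferentiableAt ℝ g p) :
    dx (fun p => f p + g p) p = dx f p + dx g p := by
  unfold dx; rw [fderiv_fun_add hf hg]; rfl

theorem dy_add (hf : DifferentiableAt ℝ f p) (hg : DifferentiableAt ℝ g p) :
    dy (fun p => f p + g p) p = dy f p + dy g p := by
  unfold dy; rw [fderiv_fun_add hf hg]; rfl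

theorem dx_sub (hf : DifferentiableAt ℝ f p) (hg : DifferentiableAt ℝ g p) :
    dx (fun p => f p - g p) p = dx f p - dx g p := by
  unfold dx; rw [fderiv_fun_sub hf hg]; rfl

theorem dy_sub (hf : DifferentiableAt ℝ f p) (hg : DifferentiableAt ℝ g p) :
    dy (fun p => f p - g p) p = dy f p - dy g p := by
  unfold dy; rw [fderiv_fun_sub hf hg]; rfl

theorem dx_mul (hf : DifferentiableAt ℝ f p) (hg : DifferentiableAt ℝ g p) :
    dx (fun p => f p * g p) p = f p * dx g p + g p * dx f p := by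
  unfold dx; rw [fderiv_fun_mul hf hg]; rfl

theorem dy_mul (hf : DifferentiableAt ℝ f p) (hg : DifferentiableAt ℝ g p) :
    dy (fun p => f p * g p) p = f p * dy g p + g p * dy f p := by
  unfold dy; rw [fderiv_fun_mul hf hg]; rfl

theorem dx_neg : dx (fun p => -f p) p = -dx f p := by
  unfold dx; rw [fderiv_fun_neg]; rfl

theorem dy_neg : dy (fun p => -f p) p = -dy f p := by
  unfold dy; rw [fderiv_fun_neg]; rfl

theorem cd_dx (hf : ContDiffAt ℝ ∞ f p) : ContDiffAt ℝ ∞ (dx f) p := by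
  unfold dx
  exact (hf.fderiv_right (m := ∞) (by simp)).clm_apply contDiffAt_const

theorem cd_dy (hf : ContDiffAt ℝ ∞ f p) : ContDiffAt ℝ ∞ (dy f) p := by
  unfold dy
  exact (hf.fderiv_right (m := ∞) (by simp)).clm_apply contDiffAt_const

theorem cd_diff (hf : ContDiffAt ℝ ∞ f p) : DifferentiableAt ℝ f p :=
  hf.differentiableAt (by simp)

theorem cd_ev (hf : ContDiffAt ℝ ∞ f p) : ∀ᶠ q in 𝓝 p, DifferentiableAt ℝ f q :=
  ((hf.of_le one_le_infty).eventually (by simp)).mono fun _ h => h.differentiableAt (by simp)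

theorem cdx (hf : ContDiff ℝ ∞ f) : ContDiff ℝ ∞ (dx f) :=
  contDiff_iff_contDiffAt.mpr fun _ => cd_dx hf.contDiffAt

theorem cdy (hf : ContDiff ℝ ∞ f) : ContDiff ℝ ∞ (dy f) :=
  contDiff_iff_contDiffAt.mpr fun _ => cd_dy hf.contDiffAt

theorem cd_lap (hf : ContDiffAt ℝ ∞ f p) : ContDiffAt ℝ ∞ (lap f) p := by
  unfold lap
  exact (cd_dx (cd_dx hf)).add (cd_dy (cd_dy hf))

/-- symmetry of second derivatives -/
theorem dx_dy_comm (hf : ContDiffAt ℝ ∞ f p) : dx (dy f) p = dy (dx f) p := by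
  have h1 : IsSymmSndFDerivAt ℝ f p := hf.isSymmSndFDerivAt (by
    simp only [minSmoothness_of_isRCLikeNormedField]; exact two_le_infty)
  have hd : DifferentiableAt ℝ (fderiv ℝ f) p :=
    (hf.fderiv_right (m := ∞) (by simp)).differentiableAt (by simp)
  have e1 : dx (dy f) p = fderiv ℝ (fderiv ℝ f) p (1, 0) (0, 1) := by
    unfold dx dy
    rw [fderiv_clm_apply hd (differentiableAt_const _)]
    simp
  have e2 : dy (dx f) p = fderiv ℝ (fderiv ℝ f) p (0, 1) (1, 0) := by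
    unfold dx dy
    rw [fderiv_clm_apply hd (differentiableAt_const _)]
    simp
  rw [e1, e2, h1.eq]

theorem dx_eq_deriv (hf : DifferentiableAt ℝ f p) :
    HasDerivAt (fun t => f (t, p.2)) (dx f p) p.1 := by
  have h1 : HasDerivAt (fun t : ℝ => ((t, p.2) : ℝ × ℝ)) (1, 0) p.1 :=
    (hasDerivAt_id p.1).prodMk (hasDerivAt_const p.1 p.2)
  have h2 : HasFDerivAt f (fderiv ℝ f p) ((fun t : ℝ => ((t, p.2) : ℝ × ℝ)) p.1) :=
    hf.hasFDerivAt
  exact h2.comp_hasDerivAt p.1 h1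

theorem dy_eq_deriv (hf : DifferentiableAt ℝ f p) :
    HasDerivAt (fun t => f (p.1, t)) (dy f p) p.2 := by
  have h1 : HasDerivAt (fun t : ℝ => ((p.1, t) : ℝ × ℝ)) (0, 1) p.2 :=
    (hasDerivAt_const p.2 p.1).prodMk (hasDerivAt_id p.2)
  have h2 : HasFDerivAt f (fderiv ℝ f p) ((fun t : ℝ => ((p.1, t) : ℝ × ℝ)) p.2) :=
    hf.hasFDerivAt
  exact h2.comp_hasDerivAt p.2 h1

theorem dx_of_hasDerivAt (hf : DifferentiableAt ℝ f p) {d : ℝ}
    (h : HasDerivAt (fun t => f (t, p.2)) d p.1) : dx f p = d :=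
  (dx_eq_deriv hf).unique h

theorem dy_of_hasDerivAt (hf : DifferentiableAt ℝ f p) {d : ℝ}
    (h : HasDerivAt (fun t => f (p.1, t)) d p.2) : dy f p = d :=
  (dy_eq_deriv hf).unique h

theorem lap_mul (hf : ContDiffAt ℝ ∞ f p) (hg : ContDiffAt ℝ ∞ g p) :
    lap (fun p => f p * g p) p =
      f p * lap g p + 2 * (dx f p * dx g p + dy f p * dy g p) + g p * lap f p := by
  have hfe := cd_ev hf
  have hge := cd_ev hg
  have e1 : dx (fun p => f p * g p) =ᶠ[𝓝 p] fun p => f p * dx g p + g p * dx f p := by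
    filter_upwards [hfe, hge] with q h1 h2 using dx_mul h1 h2
  have e2 : dy (fun p => f p * g p) =ᶠ[𝓝 p] fun p => f p * dy g p + g p * dy f p := by
    filter_upwards [hfe, hge] with q h1 h2 using dy_mul h1 h2
  have d1 := cd_diff hf
  have d2 := cd_diff hg
  have d3 := cd_diff (cd_dx hf)
  have d4 := cd_diff (cd_dx hg)
  have d5 := cd_diff (cd_dy hf)
  have d6 := cd_diff (cd_dy hg)
  unfold lap
  rw [dx_congr e1, dy_congr e2,
    dx_add (f := fun p => f p * dx g p) (g := fun p => g p * dx f p) (d1.mul d4) (d2.mul d3),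
    dy_add (f := fun p => f p * dy g p) (g := fun p => g p * dy f p) (d1.mul d6) (d2.mul d5),
    dx_mul d1 d4, dx_mul d2 d3, dy_mul d1 d6, dy_mul d2 d5]
  ring

theorem lap_add (hf : ContDiffAt ℝ ∞ f p) (hg : ContDiffAt ℝ ∞ g p) :
    lap (fun p => f p + g p) p = lap f p + lap g p := by
  have hfe := cd_ev hf
  have hge := cd_ev hg
  have e1 : dx (fun p => f p + g p) =ᶠ[𝓝 p] fun p => dx f p + dx g p := by
    filter_upwards [hfe, hge] with q h1 h2 using dx_add h1 h2
  have e2 : dy (fun p => f p + g p) =ᶠ[𝓝 p] fun p => dy f p + dy g p := by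
    filter_upwards [hfe, hge] with q h1 h2 using dy_add h1 h2
  unfold lap
  rw [dx_congr e1, dy_congr e2, dx_add (cd_diff (cd_dx hf)) (cd_diff (cd_dx hg)),
    dy_add (cd_diff (cd_dy hf)) (cd_diff (cd_dy hg))]
  ring

/-! ### Integration by parts -/

/-- The open unit cell `(-1/2, 1/2)²`, a fundamental domain of `ℝ²/ℤ²` up to a null set. -/
def cell : Set (ℝ × ℝ) := Ioo (-1 / 2) (1 / 2) ×ˢ Ioo (-1 / 2) (1 / 2)

/-- `ℤ²`-periodic functions on `ℝ²`, i.e. functions on the torus `ℝ²/ℤ²`. -/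
def Periodic2 {α : Type*} (f : ℝ × ℝ → α) : Prop :=
  (∀ p, f (p.1 + 1, p.2) = f p) ∧ ∀ p, f (p.1, p.2 + 1) = f p

theorem cell_eq_ball : cell = Metric.ball (0 : ℝ × ℝ) (1 / 2) := by
  ext p
  simp only [cell, Set.mem_prod, Set.mem_Ioo, Metric.mem_ball, dist_zero_right, Prod.norm_def,
    sup_lt_iff, Real.norm_eq_abs, abs_lt]
  norm_num

theorem isOpen_cell : IsOpen cell := isOpen_Ioo.prod isOpen_Ioo

theorem measurableSet_cell : MeasurableSet cell := isOpen_cell.measurableSet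

theorem cell_subset : cell ⊆ Icc (-1 / 2) (1 / 2) ×ˢ Icc (-1 / 2) (1 / 2) :=
  Set.prod_mono Ioo_subset_Icc_self Ioo_subset_Icc_self

theorem volume_cell_lt_top : (volume : Measure (ℝ × ℝ)) cell < ⊤ :=
  (measure_mono cell_subset).trans_lt (isCompact_Icc.prod isCompact_Icc).measure_lt_top

theorem integrableOn_cell (hf : Continuous f) : IntegrableOn f cell :=
  (hf.continuousOn.integrableOn_compact (isCompact_Icc.prod isCompact_Icc)).mono_set cell_subset

/-- periodic integration by parts -/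
theorem integral_dx_periodic (hf : ContDiff ℝ ∞ f) (hp : Periodic2 f) :
    ∫ p in cell, dx f p = 0 := by
  have hi := integrableOn_cell (cdx hf).continuous
  have h1 : ∫ p in cell, dx f p = ∫ y in Ioo (-1 / 2 : ℝ) (1 / 2), ∫ x in Ioo (-1 / 2 : ℝ) (1 / 2),
      dx f (x, y) := by
    unfold cell at hi ⊢
    have hi' : Integrable (dx f) ((volume.restrict (Ioo (-1 / 2 : ℝ) (1 / 2))).prod
        (volume.restrict (Ioo (-1 / 2 : ℝ) (1 / 2)))) := by
      rw [Measure.prod_restrict]; exact hi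
    have := integral_prod_symm _ hi'
    rw [Measure.prod_restrict] at this
    exact this
  rw [h1]
  refine integral_eq_zero_of_ae (Eventually.of_forall fun y => ?_)
  simp only [Pi.zero_apply]
  rw [← integral_Ioc_eq_integral_Ioo, ← intervalIntegral.integral_of_le (by norm_num)]
  have h2 : ∀ x ∈ Set.uIcc (-1 / 2 : ℝ) (1 / 2), HasDerivAt (fun t => f (t, y)) (dx f (x, y)) x :=
    fun x _ => dx_eq_deriv (p := (x, y)) (cd_diff hf.contDiffAt)
  rw [intervalIntegral.integral_eq_sub_of_hasDerivAt h2]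
  · have := hp.1 (-1 / 2, y)
    simp only at this
    have e : (-1 / 2 : ℝ) + 1 = 1 / 2 := by norm_num
    rw [e] at this
    rw [this, sub_self]
  · exact (Continuous.intervalIntegrable
      ((cdx hf).continuous.comp (by fun_prop : Continuous fun x : ℝ => (x, y))) _ _)

theorem integral_dy_periodic (hf : ContDiff ℝ ∞ f) (hp : Periodic2 f) :
    ∫ p in cell, dy f p = 0 := by
  have hi := integrableOn_cell (cdy hf).continuous
  have h1 : ∫ p in cell, dy f p = ∫ x in Ioo (-1 / 2 : ℝ) (1 / 2), ∫ y in Ioo (-1 / 2 : ℝ) (1 / 2),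
      dy f (x, y) := by
    unfold cell at hi ⊢
    have hi' : Integrable (dy f) ((volume.restrict (Ioo (-1 / 2 : ℝ) (1 / 2))).prod
        (volume.restrict (Ioo (-1 / 2 : ℝ) (1 / 2)))) := by
      rw [Measure.prod_restrict]; exact hi
    have := integral_prod _ hi'
    rw [Measure.prod_restrict] at this
    exact this
  rw [h1]
  refine integral_eq_zero_of_ae (Eventually.of_forall fun x => ?_)
  simp only [Pi.zero_apply]
  rw [← integral_Ioc_eq_integral_Ioo, ← intervalIntegral.integral_of_le (by norm_num)]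
  have h2 : ∀ y ∈ Set.uIcc (-1 / 2 : ℝ) (1 / 2), HasDerivAt (fun t => f (x, t)) (dy f (x, y)) y :=
    fun y _ => dy_eq_deriv (p := (x, y)) (cd_diff hf.contDiffAt)
  rw [intervalIntegral.integral_eq_sub_of_hasDerivAt h2]
  · have := hp.2 (x, -1 / 2)
    simp only at this
    have e : (-1 / 2 : ℝ) + 1 = 1 / 2 := by norm_num
    rw [e] at this
    rw [this, sub_self]
  · exact (Continuous.intervalIntegrable
      ((cdy hf).continuous.comp (by fun_prop : Continuous fun y : ℝ => (x, y))) _ _)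

/-- smooth functions supported in a compact subset of the open cell -/
structure Cpt (f : ℝ × ℝ → ℝ) : Prop where
  smooth : ContDiff ℝ ∞ f
  supp : ∃ R < (1 / 2 : ℝ), ∀ p, R < ‖p‖ → f p = 0

theorem Cpt.hasCompactSupport (hf : Cpt f) : HasCompactSupport f := by
  obtain ⟨R, _, hR⟩ := hf.supp
  refine HasCompactSupport.intro (isCompact_closedBall (0 : ℝ × ℝ) R) fun p hp => hR p ?_
  rwa [mem_closedBall_zero_iff, not_le] at hp

theorem Cpt.dx (hf : Cpt f) : Cpt (dx f) := by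
  obtain ⟨R, h1, hR⟩ := hf.supp
  refine ⟨cdx hf.smooth, R, h1, fun p hp => ?_⟩
  have : f =ᶠ[𝓝 p] fun _ => 0 := by
    filter_upwards [(isOpen_lt continuous_const continuous_norm).mem_nhds hp] with q hq
      using hR q hq
  rw [dx_congr this]
  unfold AD.dx
  simp

theorem Cpt.dy (hf : Cpt f) : Cpt (dy f) := by
  obtain ⟨R, h1, hR⟩ := hf.supp
  refine ⟨cdy hf.smooth, R, h1, fun p hp => ?_⟩
  have : f =ᶠ[𝓝 p] fun _ => 0 := by
    filter_upwards [(isOpen_lt continuous_const continuous_norm).mem_nhds hp] with q hq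
      using hR q hq
  rw [dy_congr this]
  unfold AD.dy
  simp

theorem Cpt.setIntegral (hf : Cpt f) : ∫ p in cell, f p = ∫ p, f p := by
  obtain ⟨R, h1, hR⟩ := hf.supp
  refine setIntegral_eq_integral_of_forall_compl_eq_zero fun p hp => hR p ?_
  rw [cell_eq_ball, mem_ball_zero_iff, not_lt] at hp
  linarith

theorem Cpt.integral_dx (hf : Cpt f) : ∫ p in cell, AD.dx f p = 0 := by
  rw [hf.dx.setIntegral]
  have hi : Integrable f := hf.smooth.continuous.integrable_of_hasCompactSupport hf.hasCompactSupport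
  have hi' : Integrable (AD.dx f) :=
    hf.dx.smooth.continuous.integrable_of_hasCompactSupport hf.dx.hasCompactSupport
  have := integral_mul_fderiv_eq_neg_fderiv_mul_of_integrable (μ := (volume : Measure (ℝ × ℝ)))
    (𝕜 := ℝ) (f := fun _ => (1 : ℝ)) (g := f) (v := ((1 : ℝ), (0 : ℝ))) (by simp)
    (by simp only [one_mul]; exact hi') (by simpa using hi) (fun _ _ => differentiableAt_const _)
    (fun x _ => cd_diff hf.smooth.contDiffAt)
  simpa [AD.dx] using this

theorem Cpt.integral_dy (hf : Cpt f) : ∫ p in cell, AD.dy f p = 0 := by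
  rw [hf.dy.setIntegral]
  have hi : Integrable f := hf.smooth.continuous.integrable_of_hasCompactSupport hf.hasCompactSupport
  have hi' : Integrable (AD.dy f) :=
    hf.dy.smooth.continuous.integrable_of_hasCompactSupport hf.dy.hasCompactSupport
  have := integral_mul_fderiv_eq_neg_fderiv_mul_of_integrable (μ := (volume : Measure (ℝ × ℝ)))
    (𝕜 := ℝ) (f := fun _ => (1 : ℝ)) (g := f) (v := ((0 : ℝ), (1 : ℝ))) (by simp)
    (by simp only [one_mul]; exact hi') (by simpa using hi) (fun _ _ => differentiableAt_const _)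
    (fun x _ => cd_diff hf.smooth.contDiffAt)
  simpa [AD.dy] using this

/-- Smooth periodic functions plus smooth functions supported in the cell. -/
def Adm (f : ℝ × ℝ → ℝ) : Prop :=
  ∃ f₁ f₂ : ℝ × ℝ → ℝ, ContDiff ℝ ∞ f₁ ∧ Periodic2 f₁ ∧ Cpt f₂ ∧ ∀ p, f p = f₁ p + f₂ p

theorem Cpt.adm (hf : Cpt f) : Adm f :=
  ⟨fun _ => 0, f, contDiff_const, ⟨fun _ => rfl, fun _ => rfl⟩, hf, fun p => by simp⟩

theorem cpt_zero : Cpt fun _ => 0 := ⟨contDiff_const, 0, by norm_num, fun _ _ => rfl⟩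

theorem adm_of_periodic (hf : ContDiff ℝ ∞ f) (hp : Periodic2 f) : Adm f :=
  ⟨f, fun _ => 0, hf, hp, cpt_zero, fun p => by simp⟩

theorem Adm.smooth (hf : Adm f) : ContDiff ℝ ∞ f := by
  obtain ⟨f₁, f₂, h1, _, h2, h3⟩ := hf
  have : f = fun p => f₁ p + f₂ p := funext h3
  rw [this]; exact h1.add h2.smooth

theorem Cpt.mul_left (hf : Cpt f) (hg : ContDiff ℝ ∞ g) : Cpt fun p => g p * f p := by
  obtain ⟨R, h1, hR⟩ := hf.supp
  exact ⟨hg.mul hf.smooth, R, h1, fun p hp => by rw [hR p hp, mul_zero]⟩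

theorem Cpt.mul_right (hf : Cpt f) (hg : ContDiff ℝ ∞ g) : Cpt fun p => f p * g p := by
  obtain ⟨R, h1, hR⟩ := hf.supp
  exact ⟨hf.smooth.mul hg, R, h1, fun p hp => by rw [hR p hp, zero_mul]⟩

theorem Cpt.add (hf : Cpt f) (hg : Cpt g) : Cpt fun p => f p + g p := by
  obtain ⟨R, h1, hR⟩ := hf.supp
  obtain ⟨S, h2, hS⟩ := hg.supp
  refine ⟨hf.smooth.add hg.smooth, max R S, max_lt h1 h2, fun p hp => ?_⟩
  rw [hR p ((le_max_left _ _).trans_lt hp), hS p ((le_max_right _ _).trans_lt hp), add_zero]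

theorem Adm.add (hf : Adm f) (hg : Adm g) : Adm fun p => f p + g p := by
  obtain ⟨f₁, f₂, h1, h2, h3, h4⟩ := hf
  obtain ⟨g₁, g₂, k1, k2, k3, k4⟩ := hg
  refine ⟨fun p => f₁ p + g₁ p, fun p => f₂ p + g₂ p, h1.add k1, ⟨fun p => ?_, fun p => ?_⟩,
    h3.add k3, fun p => ?_⟩
  · simp only [h2.1, k2.1]
  · simp only [h2.2, k2.2]
  · simp only [h4, k4]; ring

theorem Adm.mul (hf : Adm f) (hg : Adm g) : Adm fun p => f p * g p := by
  obtain ⟨f₁, f₂, h1, h2, h3, h4⟩ := hf
  obtain ⟨g₁, g₂, k1, k2, k3, k4⟩ := hg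
  refine ⟨fun p => f₁ p * g₁ p, fun p => f₁ p * g₂ p + f₂ p * g p, h1.mul k1,
    ⟨fun p => ?_, fun p => ?_⟩, (k3.mul_left h1).add (h3.mul_right
      (Adm.smooth ⟨g₁, g₂, k1, k2, k3, k4⟩)), fun p => ?_⟩
  · simp only [h2.1, k2.1]
  · simp only [h2.2, k2.2]
  · simp only [h4, k4]; ring

theorem adm_const (c : ℝ) : Adm fun _ => c :=
  adm_of_periodic contDiff_const ⟨fun _ => rfl, fun _ => rfl⟩

theorem Periodic2.dx (hp : Periodic2 f) : Periodic2 (dx f) := by
  constructor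
  · intro p
    unfold AD.dx
    have h1 : f = fun q : ℝ × ℝ => f (q + (1, 0)) := by
      ext q
      have := hp.1 q
      rw [← this]; congr 1; ext <;> simp
    have h2 : fderiv ℝ f p = fderiv ℝ f (p + (1, 0)) := by
      conv_lhs => rw [h1]
      rw [fderiv_comp_add_right]
    rw [h2]; congr 2; ext <;> simp
  · intro p
    unfold AD.dx
    have h1 : f = fun q : ℝ × ℝ => f (q + (0, 1)) := by
      ext q
      have := hp.2 q
      rw [← this]; congr 1; ext <;> simp
    have h2 : fderiv ℝ f p = fderiv ℝ f (p + (0, 1)) := by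
      conv_lhs => rw [h1]
      rw [fderiv_comp_add_right]
    rw [h2]; congr 2; ext <;> simp

theorem Periodic2.dy (hp : Periodic2 f) : Periodic2 (dy f) := by
  constructor
  · intro p
    unfold AD.dy
    have h1 : f = fun q : ℝ × ℝ => f (q + (1, 0)) := by
      ext q
      have := hp.1 q
      rw [← this]; congr 1; ext <;> simp
    have h2 : fderiv ℝ f p = fderiv ℝ f (p + (1, 0)) := by
      conv_lhs => rw [h1]
      rw [fderiv_comp_add_right]
    rw [h2]; congr 2; ext <;> simp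
  · intro p
    unfold AD.dy
    have h1 : f = fun q : ℝ × ℝ => f (q + (0, 1)) := by
      ext q
      have := hp.2 q
      rw [← this]; congr 1; ext <;> simp
    have h2 : fderiv ℝ f p = fderiv ℝ f (p + (0, 1)) := by
      conv_lhs => rw [h1]
      rw [fderiv_comp_add_right]
    rw [h2]; congr 2; ext <;> simp

theorem Adm.dx (hf : Adm f) : Adm (dx f) := by
  obtain ⟨f₁, f₂, h1, h2, h3, h4⟩ := hf
  refine ⟨AD.dx f₁, AD.dx f₂, cdx h1, h2.dx, h3.dx, fun p => ?_⟩
  have : f = fun p => f₁ p + f₂ p := funext h4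
  rw [this, dx_add (cd_diff h1.contDiffAt) (cd_diff h3.smooth.contDiffAt)]

theorem Adm.dy (hf : Adm f) : Adm (dy f) := by
  obtain ⟨f₁, f₂, h1, h2, h3, h4⟩ := hf
  refine ⟨AD.dy f₁, AD.dy f₂, cdy h1, h2.dy, h3.dy, fun p => ?_⟩
  have : f = fun p => f₁ p + f₂ p := funext h4
  rw [this, dy_add (cd_diff h1.contDiffAt) (cd_diff h3.smooth.contDiffAt)]

theorem Adm.integral_dx (hf : Adm f) : ∫ p in cell, AD.dx f p = 0 := by
  obtain ⟨f₁, f₂, h1, h2, h3, h4⟩ := hf
  have : f = fun p => f₁ p + f₂ p := funext h4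
  have e : ∀ p, AD.dx f p = AD.dx f₁ p + AD.dx f₂ p := fun p => by
    rw [this, dx_add (cd_diff h1.contDiffAt) (cd_diff h3.smooth.contDiffAt)]
  simp_rw [e]
  rw [integral_add (integrableOn_cell (cdx h1).continuous)
    (integrableOn_cell (cdx h3.smooth).continuous), integral_dx_periodic h1 h2, h3.integral_dx,
    add_zero]

theorem Adm.integral_dy (hf : Adm f) : ∫ p in cell, AD.dy f p = 0 := by
  obtain ⟨f₁, f₂, h1, h2, h3, h4⟩ := hf
  have : f = fun p => f₁ p + f₂ p := funext h4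
  have e : ∀ p, AD.dy f p = AD.dy f₁ p + AD.dy f₂ p := fun p => by
    rw [this, dy_add (cd_diff h1.contDiffAt) (cd_diff h3.smooth.contDiffAt)]
  simp_rw [e]
  rw [integral_add (integrableOn_cell (cdy h1).continuous)
    (integrableOn_cell (cdy h3.smooth).continuous), integral_dy_periodic h1 h2, h3.integral_dy,
    add_zero]

/-- cutting off the singularity -/
theorem smooth_mul_of_vanish {k Φ : ℝ × ℝ → ℝ} (hk : ∀ p ≠ 0, ContDiffAt ℝ ∞ k p)
    (hΦ : ContDiff ℝ ∞ Φ) (h0 : Φ =ᶠ[𝓝 0] 0) : ContDiff ℝ ∞ fun p => k p * Φ p := by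
  rw [contDiff_iff_contDiffAt]
  intro p
  by_cases hp : p = 0
  · subst hp
    have : (fun p => k p * Φ p) =ᶠ[𝓝 0] fun _ => 0 := by
      filter_upwards [h0] with q hq
      rw [hq]; simp
    exact contDiffAt_const.congr_of_eventuallyEq this
  · exact (hk p hp).mul hΦ.contDiffAt

end Pool.Agent.Helper54.AD
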