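import Pool.Agent.Helper54.AD.Calc

/-!
# Wirtinger's inequality for odd functions on circles
-/

open Set MeasureTheory Filter Topology
open scoped ContDiff Real

noncomputable section

namespace Pool.Agent.Helper54.AD

theorem tendsto_div_sin : Tendsto (fun x : ℝ => x / Real.sin x) (𝓝[≠] 0) (𝓝 1) := by
  have h1 := (hasDerivAt_iff_tendsto_slope.mp (Real.hasDerivAt_sin 0))
  rw [Real.cos_zero] at h1
  have h2 := h1.inv₀ one_ne_zero
  rw [inv_one] at h2
  refine h2.congr fun x => ?_
  rw [slope_def_field, Real.sin_zero, sub_zero, sub_zero, inv_div]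

/-- continuity of `f² cot` at a zero of `f` -/
theorem cont_cot {f : ℝ → ℝ} {f' c : ℝ} (hf : HasDerivAt f f' c) (h0 : f c = 0) :
    ContinuousAt (fun t => f t ^ 2 * (Real.cos (t - c) / Real.sin (t - c))) c := by
  rw [continuousAt_iff_punctured_nhds]
  have e0 : f c ^ 2 * (Real.cos (c - c) / Real.sin (c - c)) = 0 * f' * 1 * 1 := by
    rw [h0]; ring
  rw [e0]
  have h1 : Tendsto f (𝓝[≠] c) (𝓝 0) := by
    have := hf.continuousAt.tendsto.mono_left (nhdsWithin_le_nhds (s := {c}ᶜ))
    rwa [h0] at this
  have h2 := hasDerivAt_iff_tendsto_slope.mp hf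
  have h3 : Tendsto (fun t => (t - c) / Real.sin (t - c)) (𝓝[≠] c) (𝓝 1) := by
    refine tendsto_div_sin.comp ?_
    refine tendsto_nhdsWithin_iff.mpr ⟨?_, ?_⟩
    · have : Continuous fun t : ℝ => t - c := by fun_prop
      have h4 := this.tendsto c
      rw [sub_self] at h4
      exact h4.mono_left nhdsWithin_le_nhds
    · filter_upwards [self_mem_nhdsWithin] with t ht
      exact sub_ne_zero.mpr ht
  have h4 : Tendsto (fun t => Real.cos (t - c)) (𝓝[≠] c) (𝓝 1) := by
    have : Continuous fun t : ℝ => Real.cos (t - c) := by fun_prop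
    have h5 := this.tendsto c
    rw [sub_self, Real.cos_zero] at h5
    exact h5.mono_left nhdsWithin_le_nhds
  refine (((h1.mul h2).mul h3).mul h4).congr' ?_
  filter_upwards [self_mem_nhdsWithin] with t ht
  have ht' : t - c ≠ 0 := sub_ne_zero.mpr ht
  rw [slope_def_field, h0, sub_zero]
  field_simp

/-- Wirtinger with Dirichlet conditions -/
theorem wirt_dirichlet {f f' : ℝ → ℝ} (hf : ∀ t, HasDerivAt f (f' t) t) (hc : Continuous f')
    {a : ℝ} (ha : f a = 0) (hb : f (a + π) = 0) :
    0 ≤ ∫ t in a..(a + π), (f' t ^ 2 - f t ^ 2) := by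
  have hfc : Continuous f := continuous_iff_continuousAt.mpr fun t => (hf t).continuousAt
  set g : ℝ → ℝ := fun t => f t ^ 2 * (Real.cos (t - a) / Real.sin (t - a)) with hg
  have hsin : ∀ t ∈ Ioo a (a + π), Real.sin (t - a) ≠ 0 := fun t ht =>
    (Real.sin_pos_of_pos_of_lt_pi (by linarith [ht.1]) (by linarith [ht.2])).ne'
  have hcont : ContinuousOn g (Icc a (a + π)) := by
    intro t ht
    rcases eq_or_lt_of_le ht.1 with h1 | h1
    · subst h1
      exact (cont_cot (hf a) ha).continuousWithinAt
    · rcases eq_or_lt_of_le ht.2 with h2 | h2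
      · subst h2
        have := cont_cot (hf (a + π)) hb
        refine ContinuousAt.continuousWithinAt ?_
        refine this.congr (Eventually.of_forall fun t => ?_)
        simp only [hg]
        have e : t - a = t - (a + π) + π := by ring
        rw [e, Real.cos_add_pi, Real.sin_add_pi, neg_div_neg_eq]
      · refine ContinuousAt.continuousWithinAt ?_
        refine (hfc.continuousAt.pow 2).mul ?_
        exact (Real.continuous_cos.comp (continuous_id.sub continuous_const)).continuousAt.div
          (Real.continuous_sin.comp (continuous_id.sub continuous_const)).continuousAt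
          (hsin t ⟨h1, h2⟩)
  have hderiv : ∀ t ∈ Ioo a (a + π), HasDerivWithinAt g
      (2 * f t * f' t * (Real.cos (t - a) / Real.sin (t - a)) -
        f t ^ 2 * (1 / Real.sin (t - a) ^ 2)) (Ioi t) t := by
    intro t ht
    have hs := hsin t ht
    have d1 : HasDerivAt (fun t => Real.cos (t - a)) (-Real.sin (t - a)) t :=
      (Real.hasDerivAt_cos (t - a)).comp_sub_const t a
    have d2 : HasDerivAt (fun t => Real.sin (t - a)) (Real.cos (t - a)) t :=
      (Real.hasDerivAt_sin (t - a)).comp_sub_const t a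
    have d3 := ((hf t).pow 2).mul (d1.div d2 hs)
    refine (d3.congr_deriv ?_).hasDerivWithinAt
    have hcs := Real.sin_sq_add_cos_sq (t - a)
    simp only [Pi.pow_apply, Pi.div_apply]
    field_simp
    have : Real.cos (t - a) ^ 2 = 1 - Real.sin (t - a) ^ 2 := by linarith
    ring_nf
    ring_nf at this
    rw [this]
    ring
  have hle : a ≤ a + π := by linarith [Real.pi_pos]
  have := intervalIntegral.sub_le_integral_of_hasDeriv_right_of_le (g := g) (φ := fun t =>
    f' t ^ 2 - f t ^ 2) hle hcont hderiv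
    (Continuous.integrableOn_Icc (by fun_prop)) ?_
  · have e1 : g a = 0 := by simp [hg, ha]
    have e2 : g (a + π) = 0 := by simp only [hg, hb]; ring
    rw [e1, e2, sub_zero] at this
    exact this
  · intro t ht
    have hs := hsin t ht
    have hcs := Real.sin_sq_add_cos_sq (t - a)
    have e : f' t ^ 2 - f t ^ 2 - (2 * f t * f' t * (Real.cos (t - a) / Real.sin (t - a)) -
        f t ^ 2 * (1 / Real.sin (t - a) ^ 2)) =
        (f' t - f t * (Real.cos (t - a) / Real.sin (t - a))) ^ 2 := by
      have h1 : 1 / Real.sin (t - a) ^ 2 = 1 + (Real.cos (t - a) / Real.sin (t - a)) ^ 2 := by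
        rw [div_pow]
        field_simp
        linarith
      rw [h1]; ring
    have := sq_nonneg (f' t - f t * (Real.cos (t - a) / Real.sin (t - a)))
    linarith

/-- Wirtinger for antiperiodic functions -/
theorem wirt_anti {f f' : ℝ → ℝ} (hf : ∀ t, HasDerivAt f (f' t) t) (hc : Continuous f')
    (hanti : ∀ t, f (t + π) = -f t) :
    0 ≤ ∫ t in (-π)..π, (f' t ^ 2 - f t ^ 2) := by
  have hfc : Continuous f := continuous_iff_continuousAt.mpr fun t => (hf t).continuousAt
  have hanti' : ∀ t, f' (t + π) = -f' t := by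
    intro t
    have h1 : HasDerivAt (fun t => f (t + π)) (f' (t + π)) t := (hf (t + π)).comp_add_const t π
    have h2 : HasDerivAt (fun t => f (t + π)) (-f' t) t := by
      have : (fun t => f (t + π)) = fun t => -f t := funext hanti
      rw [this]; exact (hf t).neg
    exact h1.unique h2
  obtain ⟨a, ha⟩ : ∃ a, f a = 0 := by
    have h0 := hanti 0
    rw [zero_add] at h0
    rcases le_total (f 0) 0 with h | h
    · have := intermediate_value_Icc Real.pi_pos.le hfc.continuousOn
      obtain ⟨a, _, ha⟩ := this ⟨h, by rw [h0]; linarith⟩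
      exact ⟨a, ha⟩
    · have := intermediate_value_Icc' Real.pi_pos.le hfc.continuousOn
      obtain ⟨a, _, ha⟩ := this ⟨by rw [h0]; linarith, h⟩
      exact ⟨a, ha⟩
  have hb : f (a + π) = 0 := by rw [hanti, ha, neg_zero]
  have h1 := wirt_dirichlet hf hc ha hb
  have hper : Function.Periodic (fun t => f' t ^ 2 - f t ^ 2) π := by
    intro t
    simp only [hanti, hanti', neg_sq]
  have hint : ∀ x y : ℝ, IntervalIntegrable (fun t => f' t ^ 2 - f t ^ 2) volume x y :=
    fun x y => Continuous.intervalIntegrable (by fun_prop) _ _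
  rw [← intervalIntegral.integral_add_adjacent_intervals (hint (-π) 0) (hint 0 π)]
  have e1 := hper.intervalIntegral_add_eq (-π) a
  have e2 := hper.intervalIntegral_add_eq 0 a
  rw [neg_add_cancel] at e1
  rw [zero_add] at e2
  rw [e1, e2]
  linarith

/-- the angular derivative -/
def dth (Φ : ℝ × ℝ → ℝ) (p : ℝ × ℝ) : ℝ := p.1 * dy Φ p - p.2 * dx Φ p

/-- **Wirtinger on all circles.** -/
theorem wirt_plane {Φ : ℝ × ℝ → ℝ} (hΦ : ContDiff ℝ ∞ Φ) (hodd : ∀ p, Φ (-p) = -Φ p)
    {k : ℝ → ℝ} (hk : ∀ t, 0 ≤ k t) :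
    0 ≤ ∫ p : ℝ × ℝ, k (p.1 ^ 2 + p.2 ^ 2) * (dth Φ p ^ 2 - Φ p ^ 2) := by
  set F : ℝ × ℝ → ℝ := fun p => k (p.1 ^ 2 + p.2 ^ 2) * (dth Φ p ^ 2 - Φ p ^ 2) with hF
  rw [← integral_comp_polarCoord_symm F]
  by_cases hint : IntegrableOn (fun p : ℝ × ℝ => p.1 • F (polarCoord.symm p)) polarCoord.target
  · have ht : polarCoord.target = Ioi (0 : ℝ) ×ˢ Ioo (-π) π := rfl
    rw [ht] at hint ⊢
    have hvol : (volume : Measure (ℝ × ℝ)) = (volume : Measure ℝ).prod volume := rfl
    rw [hvol] at hint ⊢
    rw [setIntegral_prod _ hint]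
    refine setIntegral_nonneg measurableSet_Ioi fun r hr => ?_
    have hr0 : (0 : ℝ) < r := hr
    set f : ℝ → ℝ := fun t => Φ (r * Real.cos t, r * Real.sin t) with hf
    set f' : ℝ → ℝ := fun t => dth Φ (r * Real.cos t, r * Real.sin t) with hf'
    have e1 : ∀ t, r • F (polarCoord.symm (r, t)) = r * k (r ^ 2) * (f' t ^ 2 - f t ^ 2) := by
      intro t
      rw [polarCoord_symm_apply]
      simp only [hF, hf, hf', smul_eq_mul]
      have : (r * Real.cos t) ^ 2 + (r * Real.sin t) ^ 2 = r ^ 2 := by
        have := Real.sin_sq_add_cos_sq t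
        nlinarith
      rw [this]; ring
    simp only [e1]
    rw [integral_const_mul]
    refine mul_nonneg (mul_nonneg hr0.le (hk _)) ?_
    have hd : ∀ t, HasDerivAt f (f' t) t := by
      intro t
      have h1 : HasDerivAt (fun t : ℝ => ((r * Real.cos t, r * Real.sin t) : ℝ × ℝ))
          (r * -Real.sin t, r * Real.cos t) t :=
        ((Real.hasDerivAt_cos t).const_mul r).prodMk ((Real.hasDerivAt_sin t).const_mul r)
      have h2 : HasFDerivAt Φ (fderiv ℝ Φ (r * Real.cos t, r * Real.sin t))
          ((fun t : ℝ => ((r * Real.cos t, r * Real.sin t) : ℝ × ℝ)) t) :=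
        (cd_diff hΦ.contDiffAt).hasFDerivAt
      have h3 := h2.comp_hasDerivAt t h1
      refine h3.congr_deriv ?_
      simp only [hf', dth, dx, dy]
      have : ((r * -Real.sin t, r * Real.cos t) : ℝ × ℝ) =
          (r * -Real.sin t) • ((1, 0) : ℝ × ℝ) + (r * Real.cos t) • ((0, 1) : ℝ × ℝ) := by
        ext <;> simp
      rw [this, map_add, map_smul, map_smul, smul_eq_mul, smul_eq_mul]
      ring
    have hc : Continuous f' := by
      have h1 := (cdx hΦ).continuous
      have h2 := (cdy hΦ).continuous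
      simp only [hf']
      unfold dth
      fun_prop
    have hanti : ∀ t, f (t + π) = -f t := by
      intro t
      simp only [hf]
      rw [Real.cos_add_pi, Real.sin_add_pi, ← hodd]
      congr 1
      ext <;> simp
    have := wirt_anti hd hc hanti
    rw [intervalIntegral.integral_of_le (by linarith [Real.pi_pos]),
      integral_Ioc_eq_integral_Ioo] at this
    exact this
  · rw [integral_undef hint]

end Pool.Agent.Helper54.AD
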