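import Pool.Agent.Helper54.AD.Bounds
import Pool.Agent.Helper54.AD.Wirt

/-!
# The weighted coercivity estimate
-/

open Set MeasureTheory Filter Topology
open scoped ContDiff Real

noncomputable section

namespace Pool.Agent.Helper54.AD

variable {p : ℝ × ℝ} {f Φ : ℝ × ℝ → ℝ}

/-- `λ Φ - ΔΦ - b·∇Φ` -/
def TT (lam : ℝ) (Φ : ℝ × ℝ → ℝ) (p : ℝ × ℝ) : ℝ :=
  lam * Φ p - lap Φ p - (b1 p * dx Φ p + b2 p * dy Φ p)

/-- test functions: admissible, odd, vanishing near the origin -/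
structure Tst (Φ : ℝ × ℝ → ℝ) : Prop where
  adm : Adm Φ
  odd : ∀ p, Φ (-p) = -Φ p
  zero : Φ =ᶠ[𝓝 0] 0

theorem Tst.smooth (h : Tst Φ) : ContDiff ℝ ∞ Φ := h.adm.smooth

theorem ev_zero_dx (h : Φ =ᶠ[𝓝 0] 0) : dx Φ =ᶠ[𝓝 0] 0 := by
  refine (dx_congr' h).trans (Eventually.of_forall fun q => ?_)
  show fderiv ℝ (0 : ℝ × ℝ → ℝ) q (1, 0) = 0
  simp

theorem ev_zero_dy (h : Φ =ᶠ[𝓝 0] 0) : dy Φ =ᶠ[𝓝 0] 0 := by
  refine (dy_congr' h).trans (Eventually.of_forall fun q => ?_)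
  show fderiv ℝ (0 : ℝ × ℝ → ℝ) q (0, 1) = 0
  simp

theorem ev_zero_lap (h : Φ =ᶠ[𝓝 0] 0) : lap Φ =ᶠ[𝓝 0] 0 := by
  filter_upwards [ev_zero_dx (ev_zero_dx h), ev_zero_dy (ev_zero_dy h)] with q h1 h2
  unfold lap
  rw [h1, h2]; simp

theorem ev_zero_mul {g : ℝ × ℝ → ℝ} (h : Φ =ᶠ[𝓝 0] 0) : (fun p => Φ p * g p) =ᶠ[𝓝 0] 0 := by
  filter_upwards [h] with q hq
  rw [hq]; simp

theorem ev_zero_mul' {g : ℝ × ℝ → ℝ} (h : Φ =ᶠ[𝓝 0] 0) : (fun p => g p * Φ p) =ᶠ[𝓝 0] 0 := by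
  filter_upwards [h] with q hq
  rw [hq]; simp

theorem ev_zero_self {g : ℝ × ℝ → ℝ} (h : g =ᶠ[𝓝 0] 0) : g 0 = 0 := h.self_of_nhds

/-- a function depending on `rq` only has zero angular derivative -/
theorem dth_radial (hf : DifferentiableAt ℝ f p) (hr : ∀ q, rq q = rq p → f q = f p) :
    dth f p = 0 := by
  have h1 : HasDerivAt (fun t : ℝ => ((p.1 * Real.cos t - p.2 * Real.sin t,
      p.1 * Real.sin t + p.2 * Real.cos t) : ℝ × ℝ))
      (p.1 * -Real.sin 0 - p.2 * Real.cos 0, p.1 * Real.cos 0 + p.2 * -Real.sin 0) 0 :=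
    (((Real.hasDerivAt_cos 0).const_mul p.1).sub ((Real.hasDerivAt_sin 0).const_mul p.2)).prodMk
      (((Real.hasDerivAt_sin 0).const_mul p.1).add ((Real.hasDerivAt_cos 0).const_mul p.2))
  have e0 : (fun t : ℝ => ((p.1 * Real.cos t - p.2 * Real.sin t,
      p.1 * Real.sin t + p.2 * Real.cos t) : ℝ × ℝ)) 0 = p := by
    simp
  have h2 : HasFDerivAt f (fderiv ℝ f p) ((fun t : ℝ => ((p.1 * Real.cos t - p.2 * Real.sin t,
      p.1 * Real.sin t + p.2 * Real.cos t) : ℝ × ℝ)) 0) := by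
    rw [e0]; exact hf.hasFDerivAt
  have h3 := h2.comp_hasDerivAt 0 h1
  have h4 : (f ∘ fun t : ℝ => ((p.1 * Real.cos t - p.2 * Real.sin t,
      p.1 * Real.sin t + p.2 * Real.cos t) : ℝ × ℝ)) = fun _ => f p := by
    ext t
    apply hr
    unfold rq
    have := Real.sin_sq_add_cos_sq t
    simp only
    nlinarith
  rw [h4] at h3
  have h5 := h3.unique (hasDerivAt_const (0 : ℝ) (f p))
  have h6 : ((p.1 * -Real.sin 0 - p.2 * Real.cos 0, p.1 * Real.cos 0 + p.2 * -Real.sin 0) : ℝ × ℝ)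
      = (-p.2) • ((1, 0) : ℝ × ℝ) + p.1 • ((0, 1) : ℝ × ℝ) := by
    ext <;> simp
  rw [h6, map_add, map_smul, map_smul, smul_eq_mul, smul_eq_mul] at h5
  unfold dth dx dy
  linarith

theorem sig_radial {p q : ℝ × ℝ} (h : rq q = rq p) : sig q = sig p := by
  unfold sig cut sig0 ss
  rw [h]

theorem dth_sig (hp : p ≠ 0) : dth sig p = 0 :=
  dth_radial (cd_diff (cd_sig hp)) fun _ h => sig_radial h

/-- the quadratic density -/
def QQ (lam : ℝ) (Φ : ℝ × ℝ → ℝ) (p : ℝ × ℝ) : ℝ :=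
  lam * sig p * Φ p ^ 2 + sig p * (dx Φ p ^ 2 + dy Φ p ^ 2) +
    Φ p * (dx sig p * dx Φ p + dy sig p * dy Φ p) +
    Φ p ^ 2 * (b1 p * dx sig p + b2 p * dy sig p) / 2

/-- first flux component -/
def FF1 (Φ : ℝ × ℝ → ℝ) (p : ℝ × ℝ) : ℝ :=
  sig p * (Φ p * dx Φ p) + b1 p * sig p / 2 * (Φ p * Φ p)

/-- second flux component -/
def FF2 (Φ : ℝ × ℝ → ℝ) (p : ℝ × ℝ) : ℝ :=
  sig p * (Φ p * dy Φ p) + b2 p * sig p / 2 * (Φ p * Φ p)

theorem pointwise_identity (lam : ℝ) (hΦ : ContDiff ℝ ∞ Φ) (hp : p ≠ 0) :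
    TT lam Φ p * (sig p * Φ p) = QQ lam Φ p - (dx (FF1 Φ) p + dy (FF2 Φ) p) := by
  have dΦ := cd_diff (hΦ.contDiffAt (x := p))
  have dΦx := cd_diff (cd_dx (hΦ.contDiffAt (x := p)))
  have dΦy := cd_diff (cd_dy (hΦ.contDiffAt (x := p)))
  have dS := cd_diff (cd_sig hp)
  have dB1 := cd_diff (cd_b1 hp)
  have dB2 := cd_diff (cd_b2 hp)
  have dC1 : DifferentiableAt ℝ (fun p => b1 p * sig p / 2) p := by
    simpa only [div_eq_mul_inv] using (dB1.fun_mul dS).mul_const (2 : ℝ)⁻¹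
  have dC2 : DifferentiableAt ℝ (fun p => b2 p * sig p / 2) p := by
    simpa only [div_eq_mul_inv] using (dB2.fun_mul dS).mul_const (2 : ℝ)⁻¹
  have e1 : dx (FF1 Φ) p = sig p * (Φ p * dx (dx Φ) p + dx Φ p * dx Φ p) +
      Φ p * dx Φ p * dx sig p + (b1 p * sig p / 2 * (Φ p * dx Φ p + Φ p * dx Φ p) +
        Φ p * Φ p * ((b1 p * dx sig p + sig p * dx b1 p) / 2)) := by
    have h0 : FF1 Φ = fun p => (fun p => sig p * (fun p => Φ p * dx Φ p) p) p +
      (fun p => (fun p => b1 p * sig p / 2) p * (fun p => Φ p * Φ p) p) p := rfl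
    have h1 : dx (fun p => b1 p * sig p / 2) p = (b1 p * dx sig p + sig p * dx b1 p) / 2 := by
      have : (fun p => b1 p * sig p / 2) = fun p => (1 / 2 : ℝ) * (fun p => b1 p * sig p) p := by
        ext q; ring
      rw [this, dx_mul (f := fun _ => (1 / 2 : ℝ)) (g := fun p => b1 p * sig p)
        (differentiableAt_const _) (dB1.mul dS), dx_mul dB1 dS]
      have : dx (fun _ => (1 / 2 : ℝ)) p = 0 := by unfold dx; simp
      rw [this]; ring
    rw [h0, dx_add (f := fun p => sig p * (fun p => Φ p * dx Φ p) p)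
      (g := fun p => (fun p => b1 p * sig p / 2) p * (fun p => Φ p * Φ p) p)
      (dS.mul (dΦ.mul dΦx)) (dC1.mul (dΦ.mul dΦ)),
      dx_mul (f := sig) (g := fun p => Φ p * dx Φ p) dS (dΦ.mul dΦx), dx_mul dΦ dΦx,
      dx_mul (f := fun p => b1 p * sig p / 2) (g := fun p => Φ p * Φ p)
        dC1 (dΦ.mul dΦ), dx_mul dΦ dΦ, h1]
  have e2 : dy (FF2 Φ) p = sig p * (Φ p * dy (dy Φ) p + dy Φ p * dy Φ p) +
      Φ p * dy Φ p * dy sig p + (b2 p * sig p / 2 * (Φ p * dy Φ p + Φ p * dy Φ p) +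
        Φ p * Φ p * ((b2 p * dy sig p + sig p * dy b2 p) / 2)) := by
    have h0 : FF2 Φ = fun p => (fun p => sig p * (fun p => Φ p * dy Φ p) p) p +
      (fun p => (fun p => b2 p * sig p / 2) p * (fun p => Φ p * Φ p) p) p := rfl
    have h1 : dy (fun p => b2 p * sig p / 2) p = (b2 p * dy sig p + sig p * dy b2 p) / 2 := by
      have : (fun p => b2 p * sig p / 2) = fun p => (1 / 2 : ℝ) * (fun p => b2 p * sig p) p := by
        ext q; ring
      rw [this, dy_mul (f := fun _ => (1 / 2 : ℝ)) (g := fun p => b2 p * sig p)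
        (differentiableAt_const _) (dB2.mul dS), dy_mul dB2 dS]
      have : dy (fun _ => (1 / 2 : ℝ)) p = 0 := by unfold dy; simp
      rw [this]; ring
    rw [h0, dy_add (f := fun p => sig p * (fun p => Φ p * dy Φ p) p)
      (g := fun p => (fun p => b2 p * sig p / 2) p * (fun p => Φ p * Φ p) p)
      (dS.mul (dΦ.mul dΦy)) (dC2.mul (dΦ.mul dΦ)),
      dy_mul (f := sig) (g := fun p => Φ p * dy Φ p) dS (dΦ.mul dΦy), dy_mul dΦ dΦy,
      dy_mul (f := fun p => b2 p * sig p / 2) (g := fun p => Φ p * Φ p)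
        dC2 (dΦ.mul dΦ), dy_mul dΦ dΦ, h1]
  rw [e1, e2]
  have hdiv := div_b hp
  unfold TT QQ lap
  have : dy b2 p = -dx b1 p := by linarith
  rw [this]
  ring

theorem QQ_ge (lam : ℝ) (Φ : ℝ × ℝ → ℝ) (hp : p ≠ 0) :
    EE lam p * Φ p ^ 2 + cut p * sig p / rq p * (dth Φ p ^ 2 - Φ p ^ 2) ≤ QQ lam Φ p := by
  have hq := rq_pos hp
  have hs := sig_pos hp
  have hc0 := cut_nonneg p
  have hc1 := cut_le_one p
  have h1 : dth sig p = 0 := dth_sig hp
  -- X = ∇Φ + Φ ∇σ/(2σ)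
  set X1 := dx Φ p + Φ p * dx sig p / (2 * sig p) with hX1
  set X2 := dy Φ p + Φ p * dy sig p / (2 * sig p) with hX2
  have e1 : sig p * (X1 ^ 2 + X2 ^ 2) = sig p * (dx Φ p ^ 2 + dy Φ p ^ 2) +
      Φ p * (dx sig p * dx Φ p + dy sig p * dy Φ p) +
      Φ p ^ 2 * ((dx sig p ^ 2 + dy sig p ^ 2) / (4 * sig p)) := by
    rw [hX1, hX2]; field_simp; ring
  have e2 : p.1 * X2 - p.2 * X1 = dth Φ p := by
    have : p.1 * X2 - p.2 * X1 = dth Φ p + Φ p / (2 * sig p) * dth sig p := by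
      rw [hX1, hX2]; unfold dth; ring
    rw [this, h1]; ring
  have e3 : dth Φ p ^ 2 ≤ rq p * (X1 ^ 2 + X2 ^ 2) := by
    rw [← e2]
    unfold rq
    nlinarith [sq_nonneg (p.1 * X1 + p.2 * X2)]
  have e4 : cut p * sig p / rq p * dth Φ p ^ 2 ≤ sig p * (X1 ^ 2 + X2 ^ 2) := by
    have h2 : sig p / rq p * dth Φ p ^ 2 ≤ sig p / rq p * (rq p * (X1 ^ 2 + X2 ^ 2)) :=
      mul_le_mul_of_nonneg_left e3 (by positivity)
    have h3 : sig p / rq p * (rq p * (X1 ^ 2 + X2 ^ 2)) = sig p * (X1 ^ 2 + X2 ^ 2) := by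
      field_simp
    have h4 : 0 ≤ sig p / rq p * dth Φ p ^ 2 := by positivity
    have h5 : cut p * sig p / rq p * dth Φ p ^ 2 = cut p * (sig p / rq p * dth Φ p ^ 2) := by ring
    rw [h5]
    nlinarith
  unfold EE QQ
  rw [e1] at e4
  nlinarith

theorem cd_EE (lam : ℝ) (hp : p ≠ 0) : ContDiffAt ℝ ∞ (EE lam) p := by
  have h1 := cd_sig hp
  have h2 := (sig_pos hp).ne'
  have h3 := cd_cut.contDiffAt (x := p)
  have h4 := cd_rq.contDiffAt (x := p)
  have h5 := (rq_pos hp).ne'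
  unfold EE
  refine ContDiffAt.add (ContDiffAt.sub (ContDiffAt.add ?_ ?_) ?_) ?_
  · exact contDiffAt_const.mul h1
  · exact (h3.mul h1).div h4 h5
  · exact (((cd_dx h1).pow 2).add ((cd_dy h1).pow 2)).div (contDiffAt_const.mul h1)
      (mul_ne_zero (by norm_num) h2)
  · exact (((cd_b1 hp).mul (cd_dx h1)).add ((cd_b2 hp).mul (cd_dy h1))).div_const 2

theorem Tst.cont_mul (h : Tst Φ) {k : ℝ × ℝ → ℝ} (hk : ∀ p ≠ 0, ContDiffAt ℝ ∞ k p) :
    Continuous fun p => k p * Φ p := (smooth_mul_of_vanish hk h.smooth h.zero).continuous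

theorem Tst.cont_mul_sq (h : Tst Φ) {k : ℝ × ℝ → ℝ} (hk : ∀ p ≠ 0, ContDiffAt ℝ ∞ k p) :
    Continuous fun p => k p * (Φ p * Φ p) :=
  (smooth_mul_of_vanish hk (h.smooth.mul h.smooth) (ev_zero_mul h.zero)).continuous

theorem Tst.adm_FF1 (h : Tst Φ) : Adm (FF1 Φ) := by
  have hx := cdx h.smooth
  have z : (fun p => Φ p * dx Φ p) =ᶠ[𝓝 0] 0 := ev_zero_mul h.zero
  have h1 : Adm fun p => Φ p * dx Φ p := h.adm.mul h.adm.dx
  have h2 : Cpt fun p => cut p * (sig0 p - 1) * (Φ p * dx Φ p) :=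
    cpt_mul (fun p hp => cd_cut_mul hp fun hs => (cd_sig0 hp hs).sub contDiffAt_const)
      (fun p hq => by rw [cut_eq_zero hq, zero_mul]) (h.smooth.mul hx) z
  have h3 : Cpt fun p => b1 p * sig p / 2 * (Φ p * Φ p) :=
    cpt_mul (fun p hp => ((cd_b1 hp).mul (cd_sig hp)).div_const 2)
      (fun p hq => by rw [b1_zero hq]; ring) (h.smooth.mul h.smooth) (ev_zero_mul h.zero)
  have := (h1.add h2.adm).add h3.adm
  have e : FF1 Φ = fun p => Φ p * dx Φ p + cut p * (sig0 p - 1) * (Φ p * dx Φ p) +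
      b1 p * sig p / 2 * (Φ p * Φ p) := by
    ext p; unfold FF1 sig; ring
  rw [e]; exact this

theorem Tst.adm_FF2 (h : Tst Φ) : Adm (FF2 Φ) := by
  have hy := cdy h.smooth
  have z : (fun p => Φ p * dy Φ p) =ᶠ[𝓝 0] 0 := ev_zero_mul h.zero
  have h1 : Adm fun p => Φ p * dy Φ p := h.adm.mul h.adm.dy
  have h2 : Cpt fun p => cut p * (sig0 p - 1) * (Φ p * dy Φ p) :=
    cpt_mul (fun p hp => cd_cut_mul hp fun hs => (cd_sig0 hp hs).sub contDiffAt_const)
      (fun p hq => by rw [cut_eq_zero hq, zero_mul]) (h.smooth.mul hy) z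
  have h3 : Cpt fun p => b2 p * sig p / 2 * (Φ p * Φ p) :=
    cpt_mul (fun p hp => ((cd_b2 hp).mul (cd_sig hp)).div_const 2)
      (fun p hq => by rw [b2_zero hq]; ring) (h.smooth.mul h.smooth) (ev_zero_mul h.zero)
  have := (h1.add h2.adm).add h3.adm
  have e : FF2 Φ = fun p => Φ p * dy Φ p + cut p * (sig0 p - 1) * (Φ p * dy Φ p) +
      b2 p * sig p / 2 * (Φ p * Φ p) := by
    ext p; unfold FF2 sig; ring
  rw [e]; exact this

theorem ae_ne_zero : ∀ᵐ p : ℝ × ℝ ∂(volume.restrict cell), p ≠ 0 := by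
  refine ae_restrict_of_ae ?_
  rw [ae_iff]; simp

theorem ae_mem_cell : ∀ᵐ p : ℝ × ℝ ∂(volume.restrict cell), p ∈ cell :=
  ae_restrict_mem measurableSet_cell

theorem Tst.cont_TT (h : Tst Φ) (lam : ℝ) : Continuous (TT lam Φ) := by
  have h1 : Continuous fun p => b1 p * dx Φ p :=
    (smooth_mul_of_vanish (fun p hp => cd_b1 hp) (cdx h.smooth) (ev_zero_dx h.zero)).continuous
  have h2 : Continuous fun p => b2 p * dy Φ p :=
    (smooth_mul_of_vanish (fun p hp => cd_b2 hp) (cdy h.smooth) (ev_zero_dy h.zero)).continuous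
  have h3 : Continuous (lap Φ) :=
    continuous_iff_continuousAt.mpr fun p => (cd_lap h.smooth.contDiffAt).continuousAt
  unfold TT
  exact ((h.smooth.continuous.const_mul lam).sub h3).sub (h1.add h2)

theorem Tst.cont_sigΦ (h : Tst Φ) : Continuous fun p => sig p * Φ p :=
  h.cont_mul fun _ hp => cd_sig hp

/-- **Weighted coercivity.** -/
theorem coercive {lam : ℝ} (hlam : ∀ p ≠ 0, rq p ≤ 1 → ss p ^ 2 * sig p ^ 2 / 6 ≤ EE lam p)
    (h : Tst Φ) :
    (∫ p in cell, (ss p * sig p * Φ p) ^ 2) / 6 ≤ ∫ p in cell, TT lam Φ p * (sig p * Φ p) := by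
  have hF1 := h.adm_FF1
  have hF2 := h.adm_FF2
  have i1 : IntegrableOn (fun p => TT lam Φ p * (sig p * Φ p)) cell :=
    integrableOn_cell ((h.cont_TT lam).mul h.cont_sigΦ)
  have i2 : IntegrableOn (dx (FF1 Φ)) cell := integrableOn_cell (cdx hF1.smooth).continuous
  have i3 : IntegrableOn (dy (FF2 Φ)) cell := integrableOn_cell (cdy hF2.smooth).continuous
  -- the quadratic density is integrable
  have i4 : IntegrableOn (QQ lam Φ) cell := by
    have : IntegrableOn (fun p => TT lam Φ p * (sig p * Φ p) + dx (FF1 Φ) p + dy (FF2 Φ) p) cell :=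
      (i1.add i2).add i3
    refine this.congr ?_
    filter_upwards [ae_ne_zero] with p hp
    rw [pointwise_identity lam h.smooth hp]; ring
  have e1 : ∫ p in cell, TT lam Φ p * (sig p * Φ p) = ∫ p in cell, QQ lam Φ p := by
    have : ∫ p in cell, QQ lam Φ p = ∫ p in cell, (TT lam Φ p * (sig p * Φ p) + dx (FF1 Φ) p +
        dy (FF2 Φ) p) := by
      refine integral_congr_ae ?_
      filter_upwards [ae_ne_zero] with p hp
      rw [pointwise_identity lam h.smooth hp]; ring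
    have i12 : IntegrableOn (fun p => TT lam Φ p * (sig p * Φ p) + dx (FF1 Φ) p) cell := i1.add i2
    rw [this, integral_add i12 i3, integral_add i1 i2, hF1.integral_dx, hF2.integral_dy]
    ring
  -- the Wirtinger term
  set k : ℝ → ℝ := fun t => |Real.smoothTransition (2 - 16 * t) *
    (1 + Real.smoothTransition (2 - 16 * t) * (1 / (t * (20 - Real.log t / 2) ^ 3) - 1)) / t|
    with hk
  have hkk : ∀ p ≠ 0, k (p.1 ^ 2 + p.2 ^ 2) = cut p * sig p / rq p := by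
    intro p hp
    have h1 := cut_nonneg p
    have h2 := sig_pos hp
    have h3 := rq_pos hp
    have : k (p.1 ^ 2 + p.2 ^ 2) = |cut p * sig p / rq p| := rfl
    rw [this, abs_of_nonneg (by positivity)]
  have cW : Continuous fun p => cut p * sig p / rq p * (dth Φ p ^ 2 - Φ p ^ 2) := by
    have z : (fun p => dth Φ p ^ 2 - Φ p ^ 2) =ᶠ[𝓝 0] 0 := by
      filter_upwards [h.zero, ev_zero_dx h.zero, ev_zero_dy h.zero] with q h1 h2 h3
      unfold dth
      rw [h1, h2, h3]; simp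
    have hsm : ContDiff ℝ ∞ fun p => dth Φ p ^ 2 - Φ p ^ 2 := by
      unfold dth
      exact (((contDiff_fst.mul (cdy h.smooth)).sub (contDiff_snd.mul (cdx h.smooth))).pow 2).sub
        (h.smooth.pow 2)
    exact (smooth_mul_of_vanish (fun p hp => (cd_cut.contDiffAt.mul (cd_sig hp)).div
      cd_rq.contDiffAt (rq_pos hp).ne') hsm z).continuous
  have e2 : 0 ≤ ∫ p in cell, cut p * sig p / rq p * (dth Φ p ^ 2 - Φ p ^ 2) := by
    have h1 := wirt_plane h.smooth h.odd (k := k) (fun t => abs_nonneg _)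
    have h2 : ∫ p : ℝ × ℝ, k (p.1 ^ 2 + p.2 ^ 2) * (dth Φ p ^ 2 - Φ p ^ 2) =
        ∫ p in cell, cut p * sig p / rq p * (dth Φ p ^ 2 - Φ p ^ 2) := by
      have h3 : ∫ p in cell, cut p * sig p / rq p * (dth Φ p ^ 2 - Φ p ^ 2) =
          ∫ p : ℝ × ℝ, cut p * sig p / rq p * (dth Φ p ^ 2 - Φ p ^ 2) := by
        refine setIntegral_eq_integral_of_forall_compl_eq_zero fun p hp => ?_
        rw [cell_eq_ball, mem_ball_zero_iff, not_lt] at hp
        rw [cut_eq_zero (rq_ge_of_norm (by linarith))]; ring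
      rw [h3]
      refine integral_congr_ae ?_
      have h0 : ∀ᵐ p : ℝ × ℝ, p ≠ 0 := by rw [ae_iff]; simp
      filter_upwards [h0] with p hp
      rw [hkk p hp]
    rw [← h2]; exact h1
  have i5 : IntegrableOn (fun p => EE lam p * (Φ p * Φ p)) cell :=
    integrableOn_cell (h.cont_mul_sq fun p hp => cd_EE lam hp)
  have i6 := integrableOn_cell cW
  have e3 : ∫ p in cell, (EE lam p * (Φ p * Φ p) +
      cut p * sig p / rq p * (dth Φ p ^ 2 - Φ p ^ 2)) ≤ ∫ p in cell, QQ lam Φ p := by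
    refine integral_mono_ae (i5.add i6) i4 ?_
    filter_upwards [ae_ne_zero] with p hp
    have := QQ_ge lam Φ hp
    rw [pow_two (Φ p)] at this
    rw [← pow_two (Φ p)] at this ⊢
    exact this
  rw [integral_add i5 i6] at e3
  have e4 : (∫ p in cell, (ss p * sig p * Φ p) ^ 2) / 6 ≤ ∫ p in cell, EE lam p * (Φ p * Φ p) := by
    rw [← integral_div]
    have i7 : IntegrableOn (fun p => (ss p * sig p * Φ p) ^ 2 / 6) cell := by
      have hc : Continuous fun p => ss p * sig p * Φ p := by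
        have hz : ∀ p, ss p * sig p * Φ p = ss p * sig p * Φ p := fun _ => rfl
        refine (smooth_mul_of_vanish (k := fun p => ss p * sig p) (fun p hp => ?_) h.smooth
          h.zero).continuous
        exact (cd_ss hp).mul (cd_sig hp)
      exact integrableOn_cell ((hc.pow 2).div_const 6)
    refine integral_mono_ae i7 i5 ?_
    filter_upwards [ae_ne_zero, ae_mem_cell] with p hp hc
    have h1 := hlam p hp (by have := rq_le_of_cell hc; linarith)
    have h2 := mul_le_mul_of_nonneg_right h1 (mul_self_nonneg (Φ p))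
    calc (ss p * sig p * Φ p) ^ 2 / 6 = ss p ^ 2 * sig p ^ 2 / 6 * (Φ p * Φ p) := by ring
      _ ≤ _ := h2
  rw [e1]
  linarith

end Pool.Agent.Helper54.AD
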