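import Pool.Agent.Helper54.AD.Calc

/-!
# Definitions for the advection-diffusion equation on the two-dimensional torus

Functions on the torus `𝕋² = ℝ²/ℤ²` are `ℤ²`-periodic functions on `ℝ × ℝ` (`Periodic2`),
integrals over the torus are integrals over the open unit square
`cell = (-1/2, 1/2)²`; `dx`, `dy` are the partial derivatives and `lap` the Laplacian.
-/

open Set MeasureTheory Function
open scoped ContDiff

noncomputable section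

namespace Pool.Agent.Helper54.AD

/-- An autonomous vector field `b ∈ L²(𝕋²)` which is divergence free in the sense of
distributions. -/
structure IsAutonomousField (b : ℝ × ℝ → ℝ × ℝ) : Prop where
  periodic : Periodic2 b
  memLp : MemLp b 2 (volume.restrict cell)
  divFree : ∀ Φ : ℝ × ℝ → ℝ, ContDiff ℝ ∞ Φ → Periodic2 Φ →
    ∫ x in cell, ((b x).1 * dx Φ x + (b x).2 * dy Φ x) = 0

/-- Test functions `φ ∈ C_c^∞([0,T) × 𝕋²)` (as restrictions of smooth functions on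
`ℝ × 𝕋²`). -/
structure IsTest (T : ℝ) (φ : ℝ → ℝ × ℝ → ℝ) : Prop where
  smooth : ContDiff ℝ ∞ (uncurry φ)
  periodic : ∀ t, Periodic2 (φ t)
  supp : ∃ T' < T, ∀ t, T' ≤ t → ∀ x, φ t x = 0

/-- A vector field `b ∈ L²([0,T]; L²(𝕋²))`, divergence free in the sense of distributions. -/
structure IsField (T : ℝ) (b : ℝ → ℝ × ℝ → ℝ × ℝ) : Prop where
  periodic : ∀ t, Periodic2 (b t)
  memLp : MemLp (uncurry b) 2 (volume.restrict (Ioo 0 T ×ˢ cell))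
  divFree : ∀ φ : ℝ → ℝ × ℝ → ℝ, IsTest T φ →
    ∫ t in Ioo 0 T, ∫ x in cell, ((b t x).1 * dx (φ t) x + (b t x).2 * dy (φ t) x) = 0

/-- `u ∈ L^∞([0,T]; L²(𝕋²))` is a distributional solution of
`∂ₜ u + div (b u) = Δ u` with initial datum `u₀ ∈ L²(𝕋²)`. -/
structure IsDistSolution (T : ℝ) (b : ℝ → ℝ × ℝ → ℝ × ℝ) (u₀ : ℝ × ℝ → ℝ)
    (u : ℝ → ℝ × ℝ → ℝ) : Prop where
  periodic₀ : Periodic2 u₀
  memLp₀ : MemLp u₀ 2 (volume.restrict cell)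
  periodic : ∀ t, Periodic2 (u t)
  measurable : AEStronglyMeasurable (uncurry u) (volume.restrict (Ioo 0 T ×ˢ cell))
  bounded : ∃ C : ℝ, ∀ᵐ t ∂volume.restrict (Ioo 0 T),
    MemLp (u t) 2 (volume.restrict cell) ∧ ∫ x in cell, u t x ^ 2 ≤ C
  eq : ∀ φ : ℝ → ℝ × ℝ → ℝ, IsTest T φ →
    (∫ t in Ioo 0 T, ∫ x in cell, u t x * (deriv (fun s => φ s x) t +
        ((b t x).1 * dx (φ t) x + (b t x).2 * dy (φ t) x) + lap (φ t) x)) +
      ∫ x in cell, u₀ x * φ 0 x = 0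

/-- `(g₁, g₂)` is the weak gradient of `f` on the torus, with components in `L²(𝕋²)`.
So `f ∈ L²(𝕋²)` is in `H¹(𝕋²)` iff `WeakGrad f g₁ g₂` for some `g₁`, `g₂`. -/
structure WeakGrad (f g₁ g₂ : ℝ × ℝ → ℝ) : Prop where
  mem₁ : MemLp g₁ 2 (volume.restrict cell)
  mem₂ : MemLp g₂ 2 (volume.restrict cell)
  eq₁ : ∀ Φ : ℝ × ℝ → ℝ, ContDiff ℝ ∞ Φ → Periodic2 Φ →
    ∫ x in cell, f x * dx Φ x = -∫ x in cell, g₁ x * Φ x
  eq₂ : ∀ Φ : ℝ × ℝ → ℝ, ContDiff ℝ ∞ Φ → Periodic2 Φ →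
    ∫ x in cell, f x * dy Φ x = -∫ x in cell, g₂ x * Φ x

/-- `u ∈ L²([0,T]; H¹(𝕋²))`. -/
def InL2H1 (T : ℝ) (u : ℝ → ℝ × ℝ → ℝ) : Prop :=
  MemLp (uncurry u) 2 (volume.restrict (Ioo 0 T ×ˢ cell)) ∧
  ∃ g₁ g₂ : ℝ → ℝ × ℝ → ℝ,
    MemLp (uncurry g₁) 2 (volume.restrict (Ioo 0 T ×ˢ cell)) ∧
    MemLp (uncurry g₂) 2 (volume.restrict (Ioo 0 T ×ˢ cell)) ∧
    ∀ᵐ t ∂volume.restrict (Ioo 0 T), WeakGrad (u t) (g₁ t) (g₂ t)

end Pool.Agent.Helper54.AD
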