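import Pool.Agent.Helper54.AD.Sol

/-!
# The equation on the whole torus
-/

open Set MeasureTheory Filter Topology
open scoped ContDiff Real

noncomputable section

namespace Pool.Agent.Helper54.AD

variable {p : ℝ × ℝ} {f g Φ Ψ H : ℝ × ℝ → ℝ} {lam : ℝ}

/-! ### parity -/

theorem lap_comp_neg (f : ℝ × ℝ → ℝ) (p : ℝ × ℝ) : lap (fun q => f (-q)) p = lap f (-p) := by
  unfold lap
  have e1 : dx (fun q => f (-q)) = fun q => -(fun q => dx f (-q)) q := funext fun q => dx_comp_neg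
  have e2 : dy (fun q => f (-q)) = fun q => -(fun q => dy f (-q)) q := funext fun q => dy_comp_neg
  rw [e1, e2, dx_neg, dy_neg, dx_comp_neg, dy_comp_neg]
  ring

theorem TT_comp_neg (lam : ℝ) (Φ : ℝ × ℝ → ℝ) (p : ℝ × ℝ) :
    TT lam (fun q => Φ (-q)) p = TT lam Φ (-p) := by
  unfold TT
  rw [lap_comp_neg, dx_comp_neg, dy_comp_neg, b1_neg, b2_neg]
  ring

theorem TT_odd (h : ∀ p, Φ (-p) = -Φ p) (p : ℝ × ℝ) : TT lam Φ (-p) = -TT lam Φ p := by
  rw [← TT_comp_neg]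
  have e : (fun q => Φ (-q)) = fun q => -Φ q := funext h
  have e1 : dx (fun q => -Φ q) = fun q => -dx Φ q := funext fun q => dx_neg
  have e2 : dy (fun q => -Φ q) = fun q => -dy Φ q := funext fun q => dy_neg
  rw [e]
  unfold TT lap
  rw [e1, e2, dx_neg, dy_neg]
  ring

theorem mp_neg : MeasurePreserving (fun p : ℝ × ℝ => -p) mc mc := by
  have h1 : MeasurePreserving (fun p : ℝ × ℝ => -p) volume volume :=
    Measure.measurePreserving_neg volume
  have h2 := h1.restrict_preimage measurableSet_cell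
  have h3 : (fun p : ℝ × ℝ => -p) ⁻¹' cell = cell := by
    ext p
    rw [Set.mem_preimage, cell_eq_ball, mem_ball_zero_iff, mem_ball_zero_iff, norm_neg]
  rwa [h3] at h2

theorem integral_neg_cell (f : ℝ × ℝ → ℝ) : ∫ p in cell, f (-p) = ∫ p in cell, f p :=
  mp_neg.integral_comp (MeasurableEquiv.neg (ℝ × ℝ)).measurableEmbedding f

theorem memLp_comp_neg (hf : MemLp f 2 mc) : MemLp (fun p => f (-p)) 2 mc :=
  hf.comp_measurePreserving mp_neg

/-- The data of the solution. -/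
structure Sol (lam : ℝ) (H : ℝ × ℝ → ℝ) : Prop where
  mem : MemLp H 2 mc
  odd : ∀ p, H (-p) = -H p
  eq : ∀ Φ, Tst Φ → ∫ p in cell, (w0 p + H p / ss p) * TT lam Φ p = 0

theorem memLp_div_ss (hH : MemLp H 2 mc) : MemLp (fun p => H p / ss p) 2 mc := by
  have hm : AEStronglyMeasurable (fun p => H p / ss p) mc := by
    have h1 : AEStronglyMeasurable (fun p => (ss p)⁻¹) mc := measurable_ss.inv.aestronglyMeasurable
    refine (hH.1.mul h1).congr (Eventually.of_forall fun p => ?_)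
    simp [div_eq_mul_inv]
  rw [memLp_two_iff_integrable_sq hm]
  refine Integrable.mono' hH.integrable_sq (hm.pow 2) ?_
  filter_upwards [ae_mem_cell] with p hc
  have hs := ss_ge (p := p) (by have := rq_le_of_cell hc; linarith)
  rw [Real.norm_eq_abs, abs_of_nonneg (sq_nonneg _), div_pow]
  refine div_le_self (sq_nonneg _) ?_
  nlinarith

theorem exists_sol : ∃ lam : ℝ, 0 < lam ∧ ∃ H, Sol lam H := by
  obtain ⟨lam, hlam0, hlam⟩ := exists_lam
  obtain ⟨h, hh, heq⟩ := exists_v0 hlam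
  refine ⟨lam, hlam0, fun p => (h p - h (-p)) / 2, ?_⟩
  have hn := memLp_comp_neg hh
  have hH : MemLp (fun p => (h p - h (-p)) / 2) 2 mc := by
    have := (hh.sub hn).const_mul (1 / 2 : ℝ)
    refine this.ae_eq (Eventually.of_forall fun p => ?_)
    simp only [Pi.sub_apply]; ring
  refine ⟨hH, fun p => ?_, fun Φ hΦ => ?_⟩
  · simp only [neg_neg]; ring
  · have m1 := hΦ.memLp_a lam
    have i1 : Integrable (fun p => h p * (TT lam Φ p / ss p)) mc := hh.integrable_mul m1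
    have i2 : Integrable (fun p => h (-p) * (TT lam Φ p / ss p)) mc := hn.integrable_mul m1
    have i0 := integrable_w0_TT hΦ lam
    have e1 : ∫ p in cell, h (-p) * (TT lam Φ p / ss p) =
        -∫ p in cell, h p * (TT lam Φ p / ss p) := by
      rw [← integral_neg_cell, ← integral_neg]
      refine integral_congr_ae (Eventually.of_forall fun p => ?_)
      simp only [neg_neg]
      rw [TT_odd hΦ.odd, ss_neg]; ring
    have e2 : ∫ p in cell, (w0 p + (h p - h (-p)) / 2 / ss p) * TT lam Φ p =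
        (∫ p in cell, w0 p * TT lam Φ p) + 1 / 2 * ((∫ p in cell, h p * (TT lam Φ p / ss p)) -
          ∫ p in cell, h (-p) * (TT lam Φ p / ss p)) := by
      have i12 : Integrable (fun p => h p * (TT lam Φ p / ss p) - h (-p) * (TT lam Φ p / ss p)) mc :=
        i1.sub i2
      rw [← integral_sub i1 i2, ← integral_const_mul, ← integral_add i0 (i12.const_mul (1 / 2))]
      refine integral_congr_ae (Eventually.of_forall fun p => ?_)
      simp only
      ring
    rw [e2, e1, heq Φ hΦ]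
    ring

/-! ### the cutoffs near the origin -/

/-- the basic cutoff -/
def eta (p : ℝ × ℝ) : ℝ := Real.smoothTransition (2 - rq p)

theorem cd_eta : ContDiff ℝ ∞ eta := by
  unfold eta
  exact Real.smoothTransition.contDiff.comp (contDiff_const.sub cd_rq)

theorem eta_one (h : rq p ≤ 1) : eta p = 1 := Real.smoothTransition.one_of_one_le (by linarith)

theorem eta_zero (h : 2 ≤ rq p) : eta p = 0 := Real.smoothTransition.zero_of_nonpos (by linarith)

theorem hcs_eta : HasCompactSupport eta := by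
  refine HasCompactSupport.intro (isCompact_closedBall (0 : ℝ × ℝ) 2) fun p hp => ?_
  rw [mem_closedBall_zero_iff, not_le] at hp
  apply eta_zero
  have := norm_sq_le_rq p
  nlinarith

theorem hcs_dx (hf : HasCompactSupport f) : HasCompactSupport (dx f) := by
  unfold dx
  exact (hf.fderiv_apply (𝕜 := ℝ) ((1, 0) : ℝ × ℝ))

theorem hcs_dy (hf : HasCompactSupport f) : HasCompactSupport (dy f) := by
  unfold dy
  exact (hf.fderiv_apply (𝕜 := ℝ) ((0, 1) : ℝ × ℝ))

theorem exists_eta_bound : ∃ C : ℝ, 0 ≤ C ∧ ∀ p, |eta p| ≤ 1 ∧ |dx eta p| ≤ C ∧ |dy eta p| ≤ C ∧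
    |lap eta p| ≤ C := by
  obtain ⟨C1, h1⟩ := (cdx cd_eta).continuous.bounded_above_of_compact_support (hcs_dx hcs_eta)
  obtain ⟨C2, h2⟩ := (cdy cd_eta).continuous.bounded_above_of_compact_support (hcs_dy hcs_eta)
  obtain ⟨C3, h3⟩ := (cdx (cdx cd_eta)).continuous.bounded_above_of_compact_support
    (hcs_dx (hcs_dx hcs_eta))
  obtain ⟨C4, h4⟩ := (cdy (cdy cd_eta)).continuous.bounded_above_of_compact_support
    (hcs_dy (hcs_dy hcs_eta))
  have k1 := (norm_nonneg _).trans (h1 0)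
  have k2 := (norm_nonneg _).trans (h2 0)
  have k3 := (norm_nonneg _).trans (h3 0)
  have k4 := (norm_nonneg _).trans (h4 0)
  refine ⟨C1 + C2 + C3 + C4, by positivity, fun p => ⟨?_, ?_, ?_, ?_⟩⟩
  · rw [abs_le]
    exact ⟨by linarith [Real.smoothTransition.nonneg (2 - rq p), show eta p =
      Real.smoothTransition (2 - rq p) from rfl], Real.smoothTransition.le_one _⟩
  · have := h1 p; rw [Real.norm_eq_abs] at this; linarith
  · have := h2 p; rw [Real.norm_eq_abs] at this; linarith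
  · have a := h3 p
    have b := h4 p
    rw [Real.norm_eq_abs] at a b
    unfold lap
    refine (abs_add_le _ _).trans ?_
    linarith

theorem dx_scale (c : ℝ) (hf : DifferentiableAt ℝ f (c • p)) :
    dx (fun p => f (c • p)) p = c * dx f (c • p) := by
  have h1 : HasFDerivAt (fun p : ℝ × ℝ => c • p) (c • ContinuousLinearMap.id ℝ (ℝ × ℝ)) p :=
    (hasFDerivAt_id p).const_smul c
  have h2 := (hf.hasFDerivAt).comp p h1
  have h3 : fderiv ℝ (fun p => f (c • p)) p =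
      (fderiv ℝ f (c • p)).comp (c • ContinuousLinearMap.id ℝ (ℝ × ℝ)) := h2.fderiv
  unfold dx
  rw [h3]
  simp

theorem dy_scale (c : ℝ) (hf : DifferentiableAt ℝ f (c • p)) :
    dy (fun p => f (c • p)) p = c * dy f (c • p) := by
  have h1 : HasFDerivAt (fun p : ℝ × ℝ => c • p) (c • ContinuousLinearMap.id ℝ (ℝ × ℝ)) p :=
    (hasFDerivAt_id p).const_smul c
  have h2 := (hf.hasFDerivAt).comp p h1
  have h3 : fderiv ℝ (fun p => f (c • p)) p =
      (fderiv ℝ f (c • p)).comp (c • ContinuousLinearMap.id ℝ (ℝ × ℝ)) := h2.fderiv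
  unfold dy
  rw [h3]
  simp

theorem cd_scale (c : ℝ) (hf : ContDiff ℝ ∞ f) : ContDiff ℝ ∞ fun p => f (c • p) :=
  hf.comp (contDiff_const_smul c)

theorem lap_scale (c : ℝ) (hf : ContDiff ℝ ∞ f) (p : ℝ × ℝ) :
    lap (fun p => f (c • p)) p = c ^ 2 * lap f (c • p) := by
  have e1 : dx (fun p => f (c • p)) = fun p => c * (fun p => dx f (c • p)) p :=
    funext fun q => dx_scale c (cd_diff hf.contDiffAt)
  have e2 : dy (fun p => f (c • p)) = fun p => c * (fun p => dy f (c • p)) p :=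
    funext fun q => dy_scale c (cd_diff hf.contDiffAt)
  unfold lap
  rw [e1, e2, dx_const_mul c (cd_diff (cd_scale c (cdx hf)).contDiffAt),
    dy_const_mul c (cd_diff (cd_scale c (cdy hf)).contDiffAt),
    dx_scale c (cd_diff (cdx hf).contDiffAt), dy_scale c (cd_diff (cdy hf).contDiffAt)]
  ring

theorem rq_smul (c : ℝ) (p : ℝ × ℝ) : rq (c • p) = c ^ 2 * rq p := by
  unfold rq; simp; ring

/-- small discs -/
def Bc (c : ℝ) : Set (ℝ × ℝ) := {p | c ^ 2 * rq p ≤ 2}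

theorem measurableSet_Bc (c : ℝ) : MeasurableSet (Bc c) :=
  (isClosed_le (cd_rq.continuous.const_smul (c ^ 2)) continuous_const).measurableSet

theorem volume_Bc {c : ℝ} (hc : 0 < c) : (volume : Measure (ℝ × ℝ)).real (Bc c) ≤ 16 / c ^ 2 := by
  have hsub : Bc c ⊆ Icc (-2 / c) (2 / c) ×ˢ Icc (-2 / c) (2 / c) := by
    intro p hp
    have hp' : c ^ 2 * rq p ≤ 2 := hp
    have h1 : (c * p.1) ^ 2 ≤ 2 ^ 2 := by
      have : rq p = p.1 ^ 2 + p.2 ^ 2 := rfl
      nlinarith [mul_nonneg (sq_nonneg c) (sq_nonneg p.2)]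
    have h2 : (c * p.2) ^ 2 ≤ 2 ^ 2 := by
      have : rq p = p.1 ^ 2 + p.2 ^ 2 := rfl
      nlinarith [mul_nonneg (sq_nonneg c) (sq_nonneg p.1)]
    have h3 := abs_le.mp (abs_le_of_sq_le_sq h1 (by norm_num))
    have h4 := abs_le.mp (abs_le_of_sq_le_sq h2 (by norm_num))
    refine ⟨⟨?_, ?_⟩, ⟨?_, ?_⟩⟩
    · rw [div_le_iff₀ hc]; linarith [h3.1]
    · rw [le_div_iff₀ hc]; linarith [h3.2]
    · rw [div_le_iff₀ hc]; linarith [h4.1]
    · rw [le_div_iff₀ hc]; linarith [h4.2]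
  have hfin : (volume : Measure (ℝ × ℝ)) (Icc (-2 / c) (2 / c) ×ˢ Icc (-2 / c) (2 / c)) ≠ ⊤ :=
    (isCompact_Icc.prod isCompact_Icc).measure_lt_top.ne
  have h1 := measureReal_mono hsub hfin
  refine h1.trans (le_of_eq ?_)
  rw [Measure.volume_eq_prod, measureReal_prod_prod, Real.volume_real_Icc_of_le (by
    rw [div_le_div_iff_of_pos_right hc]; norm_num)]
  field_simp
  ring

theorem abs_mul_le_delta {a b δ : ℝ} (hδ : 0 < δ) : |a * b| ≤ δ⁻¹ * a ^ 2 + δ * b ^ 2 := by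
  have h1 : 0 < δ⁻¹ := inv_pos.mpr hδ
  have h2 : δ * δ⁻¹ = 1 := mul_inv_cancel₀ hδ.ne'
  have h3 : 0 ≤ δ⁻¹ * (|a| - δ * |b|) ^ 2 := by positivity
  have h4 : δ⁻¹ * (|a| - δ * |b|) ^ 2 = δ⁻¹ * a ^ 2 - 2 * |a * b| + δ * b ^ 2 := by
    rw [abs_mul]
    have : δ⁻¹ * (|a| - δ * |b|) ^ 2 = δ⁻¹ * |a| ^ 2 - 2 * (δ * δ⁻¹) * (|a| * |b|) +
      (δ * δ⁻¹) * δ * |b| ^ 2 := by ring
    rw [this, h2, sq_abs, sq_abs]; ring
  have h5 : 0 ≤ |a * b| := abs_nonneg _
  nlinarith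

/-- small-disc integrals tend to zero -/
theorem tendsto_Bc {F : ℝ × ℝ → ℝ} (hF : IntegrableOn F cell) :
    Tendsto (fun n : ℕ => ∫ p in cell, (Bc (n + 4)).indicator F p) atTop (𝓝 0) := by
  have h1 : Tendsto (fun n : ℕ => ∫ p in cell, (Bc (n + 4)).indicator F p) atTop
      (𝓝 (∫ p in cell, (0 : ℝ))) := by
    refine tendsto_integral_of_dominated_convergence (fun p => |F p|) ?_ hF.abs ?_ ?_
    · exact fun n => hF.1.indicator (measurableSet_Bc _)
    · intro n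
      refine Eventually.of_forall fun p => ?_
      rw [Real.norm_eq_abs]
      by_cases hp : p ∈ Bc (n + 4)
      · rw [Set.indicator_of_mem hp]
      · rw [Set.indicator_of_notMem hp, abs_zero]; exact abs_nonneg _
    · filter_upwards [ae_ne_zero] with p hp
      have hq := rq_pos hp
      refine tendsto_const_nhds.congr' ?_
      have h2 : Tendsto (fun n : ℕ => ((n : ℝ) + 4) ^ 2 * rq p) atTop atTop := by
        refine Tendsto.atTop_mul_const hq ?_
        refine (tendsto_pow_atTop (by norm_num)).comp ?_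
        exact tendsto_atTop_add_const_right _ _ tendsto_natCast_atTop_atTop
      filter_upwards [h2.eventually_gt_atTop 2] with n hn
      rw [Set.indicator_of_notMem]
      intro h
      have h' : ((n : ℝ) + 4) ^ 2 * rq p ≤ 2 := h
      linarith
  simpa using h1

theorem zero_of_bounds {F : ℝ × ℝ → ℝ} (hF : IntegrableOn F cell) {I K : ℝ}
    (h : ∀ δ > 0, ∀ n : ℕ, |I| ≤ δ⁻¹ * (∫ p in cell, (Bc (n + 4)).indicator F p) + δ * K) :
    I = 0 := by
  have h1 : ∀ δ > 0, |I| ≤ δ * K := by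
    intro δ hδ
    have h2 := ((tendsto_Bc hF).const_mul δ⁻¹).add_const (δ * K)
    rw [mul_zero, zero_add] at h2
    exact ge_of_tendsto' h2 (h δ hδ)
  have h3 : |I| ≤ 0 := by
    have h4 : Tendsto (fun δ : ℝ => δ * K) (𝓝[>] 0) (𝓝 (0 * K)) :=
      ((continuous_mul_const K).tendsto 0).mono_left nhdsWithin_le_nhds
    rw [zero_mul] at h4
    refine ge_of_tendsto h4 ?_
    filter_upwards [self_mem_nhdsWithin] with δ hδ using h1 δ hδ
  exact abs_nonpos_iff.mp h3

/-- bounds for smooth functions on the cell -/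
theorem exists_bound_cell (hf : Continuous f) : ∃ C : ℝ, 0 ≤ C ∧ ∀ p ∈ cell, |f p| ≤ C := by
  obtain ⟨C, hC⟩ := (isCompact_Icc.prod isCompact_Icc).exists_bound_of_continuousOn
    (hf.continuousOn (s := Icc (-1 / 2 : ℝ) (1 / 2) ×ˢ Icc (-1 / 2 : ℝ) (1 / 2)))
  refine ⟨max C 0, le_max_right _ _, fun p hp => ?_⟩
  exact (hC p (cell_subset hp)).trans (le_max_left _ _)

theorem lipschitz_zero (hΦ : ContDiff ℝ ∞ Φ) (h0 : Φ 0 = 0) :
    ∃ C : ℝ, 0 ≤ C ∧ ∀ p ∈ cell, |Φ p| ≤ C * ‖p‖ := by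
  have hc : Continuous (fderiv ℝ Φ) := hΦ.continuous_fderiv (by simp)
  obtain ⟨C, hC⟩ := (isCompact_closedBall (0 : ℝ × ℝ) 1).exists_bound_of_continuousOn
    hc.continuousOn
  have hC0 : 0 ≤ C := (norm_nonneg _).trans (hC 0 (by simp))
  refine ⟨C, hC0, fun p hp => ?_⟩
  have hp' : p ∈ Metric.closedBall (0 : ℝ × ℝ) 1 := by
    rw [cell_eq_ball, mem_ball_zero_iff] at hp
    rw [mem_closedBall_zero_iff]; linarith
  have := (convex_closedBall (0 : ℝ × ℝ) 1).norm_image_sub_le_of_norm_fderiv_le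
    (f := Φ) (𝕜 := ℝ) (x := (0 : ℝ × ℝ)) (fun x _ => cd_diff hΦ.contDiffAt) hC (by simp) hp'
  rw [h0, sub_zero, sub_zero, Real.norm_eq_abs] at this
  exact this

/-- the cutoff product -/
def cp (c : ℝ) (Φ : ℝ × ℝ → ℝ) (p : ℝ × ℝ) : ℝ := eta (c • p) * Φ p

theorem cd_cp (c : ℝ) (hΦ : ContDiff ℝ ∞ Φ) : ContDiff ℝ ∞ (cp c Φ) := (cd_scale c cd_eta).mul hΦ

theorem cp_zero_off {c : ℝ} (h : p ∉ Bc c) : cp c Φ =ᶠ[𝓝 p] 0 := by
  have h' : 2 < c ^ 2 * rq p := not_le.mp h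
  have hc : Continuous fun q => c ^ 2 * rq q := cd_rq.continuous.const_smul (c ^ 2)
  filter_upwards [hc.continuousAt.eventually (lt_mem_nhds h')] with q hq
  unfold cp
  rw [eta_zero (by rw [rq_smul]; exact hq.le)]; simp

theorem cpt_cp {c : ℝ} (hc : 4 ≤ c) (hΦ : ContDiff ℝ ∞ Φ) : Cpt (cp c Φ) := by
  refine ⟨cd_cp c hΦ, 3 / 8, by norm_num, fun p hp => ?_⟩
  have h1 := rq_ge_of_norm hp
  unfold cp
  rw [eta_zero, zero_mul]
  rw [rq_smul]
  have : 16 ≤ c ^ 2 := by nlinarith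
  nlinarith

theorem cp_bounds (hΦ : ContDiff ℝ ∞ Φ) (h0 : Φ 0 = 0) : ∃ K : ℝ, 0 ≤ K ∧ ∀ c, 4 ≤ c →
    ∀ p ∈ cell, p ∈ Bc c → |cp c Φ p| ≤ K ∧ |dx (cp c Φ) p| ≤ K ∧ |dy (cp c Φ) p| ≤ K ∧
      |lap (cp c Φ) p| ≤ K * c := by
  obtain ⟨Ce, hCe0, hCe⟩ := exists_eta_bound
  obtain ⟨L, hL0, hL⟩ := lipschitz_zero hΦ h0
  obtain ⟨M0, hM00, hM0⟩ := exists_bound_cell hΦ.continuous
  obtain ⟨M1, hM10, hM1⟩ := exists_bound_cell (cdx hΦ).continuous
  obtain ⟨M2, hM20, hM2⟩ := exists_bound_cell (cdy hΦ).continuous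
  obtain ⟨M3, hM30, hM3⟩ := exists_bound_cell (f := lap Φ)
    (continuous_iff_continuousAt.mpr fun p => (cd_lap hΦ.contDiffAt).continuousAt)
  refine ⟨M0 + M1 + M2 + M3 + 2 * L * Ce + 2 * Ce * (M1 + M2), by positivity,
    fun c hc p hp hB => ?_⟩
  have hc0 : 0 < c := by linarith
  have hB' : c ^ 2 * rq p ≤ 2 := hB
  obtain ⟨e0, e1, e2, e3⟩ := hCe (c • p)
  have a0 := hM0 p hp
  have a1 := hM1 p hp
  have a2 := hM2 p hp
  have a3 := hM3 p hp
  have aL := hL p hp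
  -- |Φ| ≤ 2 L / c
  have hn : c * ‖p‖ ≤ 2 := by
    have h1 := norm_sq_le_rq p
    have h2 : (c * ‖p‖) ^ 2 ≤ 2 ^ 2 := by
      rw [mul_pow]
      nlinarith [mul_le_mul_of_nonneg_left h1 (sq_nonneg c)]
    exact (sq_le_sq₀ (by positivity) (by norm_num)).mp h2
  have aΦ : c * |Φ p| ≤ 2 * L := by
    calc c * |Φ p| ≤ c * (L * ‖p‖) := mul_le_mul_of_nonneg_left aL hc0.le
      _ = L * (c * ‖p‖) := by ring
      _ ≤ L * 2 := mul_le_mul_of_nonneg_left hn hL0
      _ = 2 * L := by ring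
  have dE : DifferentiableAt ℝ (fun p => eta (c • p)) p :=
    cd_diff (cd_scale c cd_eta).contDiffAt
  have dΦ := cd_diff (hΦ.contDiffAt (x := p))
  have x1 : dx (cp c Φ) p = eta (c • p) * dx Φ p + Φ p * (c * dx eta (c • p)) := by
    have : cp c Φ = fun p => (fun p => eta (c • p)) p * Φ p := rfl
    rw [this, dx_mul dE dΦ, dx_scale c (cd_diff cd_eta.contDiffAt)]
  have x2 : dy (cp c Φ) p = eta (c • p) * dy Φ p + Φ p * (c * dy eta (c • p)) := by
    have : cp c Φ = fun p => (fun p => eta (c • p)) p * Φ p := rfl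
    rw [this, dy_mul dE dΦ, dy_scale c (cd_diff cd_eta.contDiffAt)]
  have x3 : lap (cp c Φ) p = eta (c • p) * lap Φ p +
      2 * (c * dx eta (c • p) * dx Φ p + c * dy eta (c • p) * dy Φ p) +
      Φ p * (c ^ 2 * lap eta (c • p)) := by
    have : cp c Φ = fun p => (fun p => eta (c • p)) p * Φ p := rfl
    rw [this, lap_mul (cd_scale c cd_eta).contDiffAt hΦ.contDiffAt, lap_scale c cd_eta,
      dx_scale c (cd_diff cd_eta.contDiffAt), dy_scale c (cd_diff cd_eta.contDiffAt)]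
  have hprod : ∀ x y X Y : ℝ, |x| ≤ X → |y| ≤ Y → |x * y| ≤ X * Y := fun x y X Y h1 h2 => by
    rw [abs_mul]; exact mul_le_mul h1 h2 (abs_nonneg _) ((abs_nonneg _).trans h1)
  have y1 : |Φ p * (c * dx eta (c • p))| ≤ 2 * L * Ce := by
    have : Φ p * (c * dx eta (c • p)) = (c * Φ p) * dx eta (c • p) := by ring
    rw [this]
    refine hprod _ _ _ _ ?_ e1
    rw [abs_mul, abs_of_pos hc0]; exact aΦ
  have y2 : |Φ p * (c * dy eta (c • p))| ≤ 2 * L * Ce := by
    have : Φ p * (c * dy eta (c • p)) = (c * Φ p) * dy eta (c • p) := by ring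
    rw [this]
    refine hprod _ _ _ _ ?_ e2
    rw [abs_mul, abs_of_pos hc0]; exact aΦ
  have y3 : |Φ p * (c ^ 2 * lap eta (c • p))| ≤ 2 * L * Ce * c := by
    have : Φ p * (c ^ 2 * lap eta (c • p)) = ((c * Φ p) * lap eta (c • p)) * c := by ring
    rw [this, abs_mul _ c, abs_of_pos hc0]
    refine mul_le_mul_of_nonneg_right (hprod _ _ _ _ ?_ e3) hc0.le
    rw [abs_mul, abs_of_pos hc0]; exact aΦ
  have z0 : |eta (c • p) * Φ p| ≤ 1 * M0 := hprod _ _ _ _ e0 a0
  have z1 : |eta (c • p) * dx Φ p| ≤ 1 * M1 := hprod _ _ _ _ e0 a1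
  have z2 : |eta (c • p) * dy Φ p| ≤ 1 * M2 := hprod _ _ _ _ e0 a2
  have z3 : |eta (c • p) * lap Φ p| ≤ 1 * M3 := hprod _ _ _ _ e0 a3
  have z4 : |dx eta (c • p) * dx Φ p| ≤ Ce * M1 := hprod _ _ _ _ e1 a1
  have z5 : |dy eta (c • p) * dy Φ p| ≤ Ce * M2 := hprod _ _ _ _ e2 a2
  have n1 : 0 ≤ 2 * L * Ce := by positivity
  have n2 : 0 ≤ 2 * Ce * (M1 + M2) := by positivity
  refine ⟨?_, ?_, ?_, ?_⟩
  · unfold cp; linarith
  · rw [x1]; refine (abs_add_le _ _).trans ?_; linarith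
  · rw [x2]; refine (abs_add_le _ _).trans ?_; linarith
  · rw [x3]
    have w1 : |2 * (c * dx eta (c • p) * dx Φ p + c * dy eta (c • p) * dy Φ p)| ≤
        2 * Ce * (M1 + M2) * c := by
      have : 2 * (c * dx eta (c • p) * dx Φ p + c * dy eta (c • p) * dy Φ p) =
          2 * (dx eta (c • p) * dx Φ p + dy eta (c • p) * dy Φ p) * c := by ring
      rw [this, abs_mul _ c, abs_of_pos hc0, abs_mul 2, abs_of_pos (by norm_num : (0 : ℝ) < 2)]
      refine mul_le_mul_of_nonneg_right ?_ hc0.le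
      have := abs_add_le (dx eta (c • p) * dx Φ p) (dy eta (c • p) * dy Φ p)
      linarith
    have w2 : |eta (c • p) * lap Φ p| ≤ M3 * c := by nlinarith
    refine (abs_add_three _ _ _).trans ?_
    have : M3 * c + 2 * Ce * (M1 + M2) * c + 2 * L * Ce * c ≤
        (M0 + M1 + M2 + M3 + 2 * L * Ce + 2 * Ce * (M1 + M2)) * c := by
      nlinarith [mul_nonneg hM00 hc0.le, mul_nonneg hM10 hc0.le, mul_nonneg hM20 hc0.le]
    linarith

end Pool.Agent.Helper54.AD
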