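import Pool.Agent.Helper54.AD.Ext

/-!
# The equation and the divergence-free condition tested with all smooth periodic functions
-/

open Set MeasureTheory Filter Topology
open scoped ContDiff Real

noncomputable section

namespace Pool.Agent.Helper54.AD

variable {p : ℝ × ℝ} {f g Φ Ψ H : ℝ × ℝ → ℝ} {lam : ℝ}

theorem memLp_mul_cont (hf : MemLp f 2 mc) (hg : Continuous g) :
    MemLp (fun p => f p * g p) 2 mc := by
  obtain ⟨C, hC0, hC⟩ := exists_bound_cell hg
  have hm : AEStronglyMeasurable (fun p => f p * g p) mc :=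
    hf.1.mul hg.aestronglyMeasurable
  rw [memLp_two_iff_integrable_sq hm]
  refine Integrable.mono' (hf.integrable_sq.const_mul (C ^ 2)) (hm.pow 2) ?_
  filter_upwards [ae_mem_cell] with p hc
  rw [Real.norm_eq_abs, abs_of_nonneg (sq_nonneg _), mul_pow, mul_comm]
  refine mul_le_mul_of_nonneg_right ?_ (sq_nonneg _)
  rw [← sq_abs]
  exact pow_le_pow_left₀ (abs_nonneg _) (hC p hc) 2

theorem cont_lap (hΦ : ContDiff ℝ ∞ Φ) : Continuous (lap Φ) :=
  continuous_iff_continuousAt.mpr fun _ => (cd_lap hΦ.contDiffAt).continuousAt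

theorem memLp_TT (hΦ : ContDiff ℝ ∞ Φ) (lam : ℝ) : MemLp (TT lam Φ) 2 mc := by
  have h1 := memLp_of_cont ((hΦ.continuous.const_mul lam).sub (cont_lap hΦ))
  have h2 := memLp_mul_cont memLp_b1 (cdx hΦ).continuous
  have h3 := memLp_mul_cont memLp_b2 (cdy hΦ).continuous
  exact h1.sub (h2.add h3)

theorem memLp_u (hH : MemLp H 2 mc) : MemLp (fun p => w0 p + H p / ss p) 2 mc :=
  memLp_w0.add (memLp_div_ss hH)

theorem cell_real_le : (volume : Measure (ℝ × ℝ)).real cell ≤ 1 := by
  unfold cell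
  rw [Measure.volume_eq_prod, measureReal_prod_prod, Real.volume_real_Ioo_of_le (by norm_num)]
  norm_num

/-- integrals over small discs of constants -/
theorem integral_Bc_const {c K : ℝ} (hc : 0 < c) (hK : 0 ≤ K) :
    ∫ p in cell, (Bc c).indicator (fun _ => K) p ≤ 16 / c ^ 2 * K := by
  rw [integral_indicator (measurableSet_Bc c), Measure.restrict_restrict (measurableSet_Bc c),
    setIntegral_const, smul_eq_mul]
  refine mul_le_mul_of_nonneg_right ?_ hK
  have hsub : Bc c ⊆ Metric.closedBall (0 : ℝ × ℝ) (2 / c) := by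
    intro p hp
    rw [mem_closedBall_zero_iff, le_div_iff₀ hc]
    have h1 := norm_sq_le_rq p
    have h2 : c ^ 2 * rq p ≤ 2 := hp
    have h3 : (‖p‖ * c) ^ 2 ≤ 2 ^ 2 := by
      rw [mul_pow]
      nlinarith [mul_le_mul_of_nonneg_left h1 (sq_nonneg c)]
    exact (sq_le_sq₀ (by positivity) (by norm_num)).mp h3
  have hfin : (volume : Measure (ℝ × ℝ)) (Bc c) ≠ ⊤ :=
    ((measure_mono hsub).trans_lt (isCompact_closedBall (0 : ℝ × ℝ) (2 / c)).measure_lt_top).ne
  exact le_trans (measureReal_mono Set.inter_subset_left hfin) (volume_Bc hc)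

theorem Sol.eq_odd (h : Sol lam H) (hΦ : Adm Φ) (hodd : ∀ p, Φ (-p) = -Φ p) :
    ∫ p in cell, (w0 p + H p / ss p) * TT lam Φ p = 0 := by
  have hsm := hΦ.smooth
  have h0 : Φ 0 = 0 := by
    have := hodd 0
    rw [neg_zero] at this
    linarith
  obtain ⟨K, hK0, hK⟩ := cp_bounds hsm h0
  set u : ℝ × ℝ → ℝ := fun p => w0 p + H p / ss p with hu
  have mu : MemLp u 2 mc := memLp_u h.mem
  set B : ℝ × ℝ → ℝ := fun p => b1 p ^ 2 + b2 p ^ 2 with hB
  have iB : Integrable B mc := memLp_b1.integrable_sq.add memLp_b2.integrable_sq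
  have hB0 : 0 ≤ ∫ p in cell, B p := integral_nonneg fun p => by simp only [hB]; positivity
  set K1 : ℝ := |lam| * K + K + 2 * K with hK1
  have hK1' : 0 ≤ K1 := by positivity
  refine zero_of_bounds (F := fun p => u p ^ 2) mu.integrable_sq
    (K := 3 * K1 ^ 2 * (16 + ∫ p in cell, B p)) fun δ hδ n => ?_
  set c : ℝ := (n : ℝ) + 4 with hc
  have hc4 : 4 ≤ c := by rw [hc]; have := n.cast_nonneg (α := ℝ); linarith
  have hc0 : 0 < c := by linarith
  -- the cut off test function
  have hcp := cpt_cp hc4 hsm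
  have hneg : Tst fun p => Φ p + (-1) * cp c Φ p := by
    refine ⟨hΦ.add ((adm_const (-1)).mul hcp.adm), fun p => ?_, ?_⟩
    · unfold cp
      rw [hodd, smul_neg]
      have : eta (-(c • p)) = eta (c • p) := by unfold eta; rw [rq_neg]
      rw [this]; ring
    · have h1 : ∀ᶠ p in 𝓝 (0 : ℝ × ℝ), rq (c • p) < 1 := by
        have h2 : Continuous fun p : ℝ × ℝ => rq (c • p) :=
          cd_rq.continuous.comp (continuous_const_smul c)
        refine h2.continuousAt.eventually (gt_mem_nhds ?_)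
        simp [rq]
      filter_upwards [h1] with p hp
      unfold cp
      rw [eta_one hp.le]; simp
  have e1 := h.eq _ hneg
  have e2 : ∀ p, TT lam (fun p => Φ p + (-1) * cp c Φ p) p = TT lam Φ p - TT lam (cp c Φ) p := by
    intro p
    rw [TT_add hsm (contDiff_const.mul hcp.smooth), TT_const_mul hcp.smooth]; ring
  have m1 := memLp_TT hsm lam
  have m2 := memLp_TT hcp.smooth lam
  have i1 : Integrable (fun p => u p * TT lam Φ p) mc := mu.integrable_mul m1
  have i2 : Integrable (fun p => u p * TT lam (cp c Φ) p) mc := mu.integrable_mul m2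
  have e3 : ∫ p in cell, u p * TT lam Φ p = ∫ p in cell, u p * TT lam (cp c Φ) p := by
    have : ∫ p in cell, (u p * TT lam Φ p - u p * TT lam (cp c Φ) p) = 0 := by
      rw [← e1]
      refine integral_congr_ae (Eventually.of_forall fun p => ?_)
      simp only [hu]
      rw [e2]; ring
    rw [integral_sub i1 i2] at this
    linarith
  rw [e3]
  -- pointwise bound of the cut off part
  have hb : ∀ p ∈ cell, |u p * TT lam (cp c Φ) p| ≤
      δ⁻¹ * (Bc c).indicator (fun p => u p ^ 2) p +
        δ * ((Bc c).indicator (fun _ => 3 * K1 ^ 2 * c ^ 2) p + 3 * K1 ^ 2 * B p) := by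
    intro p hp
    have hBn : 0 ≤ B p := by simp only [hB]; positivity
    by_cases hpB : p ∈ Bc c
    · rw [Set.indicator_of_mem hpB, Set.indicator_of_mem hpB]
      refine (abs_mul_le_delta hδ).trans ?_
      have hsq : TT lam (cp c Φ) p ^ 2 ≤ 3 * K1 ^ 2 * c ^ 2 + 3 * K1 ^ 2 * B p := by
        obtain ⟨k0, k1, k2, k3⟩ := hK c hc4 p hp hpB
        have hT : |TT lam (cp c Φ) p| ≤ K1 * (c + |b1 p| + |b2 p|) := by
          unfold TT
          have t1 : |lam * cp c Φ p| ≤ |lam| * K := by
            rw [abs_mul]; exact mul_le_mul_of_nonneg_left k0 (abs_nonneg _)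
          have t2 : |b1 p * dx (cp c Φ) p| ≤ |b1 p| * K := by
            rw [abs_mul]; exact mul_le_mul_of_nonneg_left k1 (abs_nonneg _)
          have t3 : |b2 p * dy (cp c Φ) p| ≤ |b2 p| * K := by
            rw [abs_mul]; exact mul_le_mul_of_nonneg_left k2 (abs_nonneg _)
          have t4 : |lam * cp c Φ p - lap (cp c Φ) p -
              (b1 p * dx (cp c Φ) p + b2 p * dy (cp c Φ) p)| ≤
              |lam| * K + K * c + (|b1 p| * K + |b2 p| * K) := by
            refine (abs_sub _ _).trans (add_le_add ((abs_sub _ _).trans (add_le_add t1 k3)) ?_)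
            exact (abs_add_le _ _).trans (add_le_add t2 t3)
          refine t4.trans ?_
          have u1 := abs_nonneg (b1 p)
          have u2 := abs_nonneg (b2 p)
          have u3 : |lam| * K ≤ |lam| * K * c := by
            have : 0 ≤ |lam| * K := by positivity
            nlinarith
          have u4 : 0 ≤ |lam| * K := by positivity
          rw [hK1]
          nlinarith [mul_nonneg u4 u1, mul_nonneg u4 u2, mul_nonneg hK0 u1, mul_nonneg hK0 u2,
            mul_nonneg hK0 hc0.le]
        have hsq1 : TT lam (cp c Φ) p ^ 2 ≤ (K1 * (c + |b1 p| + |b2 p|)) ^ 2 := by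
          rw [← sq_abs]; exact pow_le_pow_left₀ (abs_nonneg _) hT 2
        refine hsq1.trans ?_
        have hb1 := sq_abs (b1 p)
        have hb2 := sq_abs (b2 p)
        have e4 : 3 * K1 ^ 2 * c ^ 2 + 3 * K1 ^ 2 * B p =
            K1 ^ 2 * (3 * (c ^ 2 + |b1 p| ^ 2 + |b2 p| ^ 2)) := by
          simp only [hB]; rw [hb1, hb2]; ring
        rw [e4, mul_pow]
        refine mul_le_mul_of_nonneg_left ?_ (sq_nonneg _)
        nlinarith [sq_nonneg (c - |b1 p|), sq_nonneg (c - |b2 p|), sq_nonneg (|b1 p| - |b2 p|)]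
      exact add_le_add le_rfl (mul_le_mul_of_nonneg_left hsq hδ.le)
    · rw [Set.indicator_of_notMem hpB, Set.indicator_of_notMem hpB]
      have hz : TT lam (cp c Φ) p = 0 := by
        have hev := cp_zero_off (Φ := Φ) hpB
        unfold TT
        rw [lap_congr hev, dx_congr hev, dy_congr hev, hev.self_of_nhds]
        unfold lap dx dy
        simp
      rw [hz, mul_zero, abs_zero]
      have : 0 ≤ δ * (0 + 3 * K1 ^ 2 * B p) := by positivity
      linarith
  have j1 : Integrable (fun p => δ⁻¹ * (Bc c).indicator (fun p => u p ^ 2) p) mc :=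
    (mu.integrable_sq.indicator (measurableSet_Bc c)).const_mul _
  have hcellfin : IsFiniteMeasure mc := ⟨by
    rw [Measure.restrict_apply_univ]; exact volume_cell_lt_top⟩
  have j2 : Integrable (fun p => (Bc c).indicator (fun _ => 3 * K1 ^ 2 * c ^ 2) p) mc :=
    (integrable_const _).indicator (measurableSet_Bc c)
  have j3 : Integrable (fun p => 3 * K1 ^ 2 * B p) mc := iB.const_mul _
  have j23 : Integrable (fun p => (Bc c).indicator (fun _ => 3 * K1 ^ 2 * c ^ 2) p +
      3 * K1 ^ 2 * B p) mc := j2.add j3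
  have j4 : Integrable (fun p => δ * ((Bc c).indicator (fun _ => 3 * K1 ^ 2 * c ^ 2) p +
      3 * K1 ^ 2 * B p)) mc := j23.const_mul _
  calc |∫ p in cell, u p * TT lam (cp c Φ) p| ≤ ∫ p in cell, |u p * TT lam (cp c Φ) p| :=
        abs_integral_le_integral_abs
    _ ≤ ∫ p in cell, (δ⁻¹ * (Bc c).indicator (fun p => u p ^ 2) p +
        δ * ((Bc c).indicator (fun _ => 3 * K1 ^ 2 * c ^ 2) p + 3 * K1 ^ 2 * B p)) := by
        refine integral_mono_ae i2.abs (j1.add j4) ?_
        filter_upwards [ae_mem_cell] with p hp using hb p hp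
    _ = δ⁻¹ * (∫ p in cell, (Bc c).indicator (fun p => u p ^ 2) p) +
        δ * ((∫ p in cell, (Bc c).indicator (fun _ => 3 * K1 ^ 2 * c ^ 2) p) +
          3 * K1 ^ 2 * ∫ p in cell, B p) := by
        rw [integral_add j1 j4, integral_const_mul, integral_const_mul, integral_add j2 j3,
          integral_const_mul]
    _ ≤ _ := by
        refine add_le_add le_rfl (mul_le_mul_of_nonneg_left ?_ hδ.le)
        have h5 := integral_Bc_const (K := 3 * K1 ^ 2 * c ^ 2) hc0 (by positivity)
        have h6 : 16 / c ^ 2 * (3 * K1 ^ 2 * c ^ 2) = 3 * K1 ^ 2 * 16 := by field_simp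
        rw [h6] at h5
        linarith

theorem u_odd (h : Sol lam H) (p : ℝ × ℝ) :
    w0 (-p) + H (-p) / ss (-p) = -(w0 p + H p / ss p) := by
  rw [w0_neg, h.odd, ss_neg]; ring

theorem Periodic2.comp_neg (hp : Periodic2 Φ) : Periodic2 fun p => Φ (-p) := by
  constructor
  · intro p
    have := hp.1 (-(p.1 + 1, p.2))
    have e1 : ((-(p.1 + 1, p.2) : ℝ × ℝ).1 + 1, (-(p.1 + 1, p.2) : ℝ × ℝ).2) = -p := by
      ext <;> simp
    rw [e1] at this
    exact this.symm
  · intro p
    have := hp.2 (-(p.1, p.2 + 1))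
    have e1 : ((-(p.1, p.2 + 1) : ℝ × ℝ).1, (-(p.1, p.2 + 1) : ℝ × ℝ).2 + 1) = -p := by
      ext <;> simp
    rw [e1] at this
    exact this.symm

/-- **The stationary equation on the torus.** -/
theorem Sol.eq_all (h : Sol lam H) (hΦ : ContDiff ℝ ∞ Φ) (hp : Periodic2 Φ) :
    ∫ p in cell, (w0 p + H p / ss p) * TT lam Φ p = 0 := by
  set u : ℝ × ℝ → ℝ := fun p => w0 p + H p / ss p with hu
  have mu : MemLp u 2 mc := memLp_u h.mem
  have hneg : ContDiff ℝ ∞ fun p => Φ (-p) := hΦ.comp contDiff_neg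
  have hA : Adm fun p => Φ p + (-1) * (fun p => Φ (-p)) p :=
    (adm_of_periodic hΦ hp).add ((adm_const (-1)).mul (adm_of_periodic hneg hp.comp_neg))
  have e1 := h.eq_odd hA (fun p => by simp only [neg_neg]; ring)
  have e2 : ∀ p, TT lam (fun p => Φ p + (-1) * (fun p => Φ (-p)) p) p =
      TT lam Φ p - TT lam Φ (-p) := by
    intro p
    rw [TT_add hΦ (contDiff_const.mul hneg), TT_const_mul hneg, TT_comp_neg]; ring
  have m1 := memLp_TT hΦ lam
  have i1 : Integrable (fun p => u p * TT lam Φ p) mc := mu.integrable_mul m1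
  have i2 : Integrable (fun p => u p * TT lam Φ (-p)) mc :=
    mu.integrable_mul (memLp_comp_neg m1)
  have e3 : ∫ p in cell, u p * TT lam Φ (-p) = -∫ p in cell, u p * TT lam Φ p := by
    rw [← integral_neg_cell (fun p => u p * TT lam Φ (-p)), ← integral_neg]
    refine integral_congr_ae (Eventually.of_forall fun p => ?_)
    simp only [hu, neg_neg]
    rw [u_odd h]; ring
  have e4 : ∫ p in cell, (w0 p + H p / ss p) *
      TT lam (fun p => Φ p + (-1) * (fun p => Φ (-p)) p) p =
      (∫ p in cell, u p * TT lam Φ p) - ∫ p in cell, u p * TT lam Φ (-p) := by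
    rw [← integral_sub i1 i2]
    refine integral_congr_ae (Eventually.of_forall fun p => ?_)
    simp only [hu]
    rw [e2]; ring
  rw [e4, e3] at e1
  linarith

/-- **The drift is divergence free on the torus.** -/
theorem div_free_all (hΦ : ContDiff ℝ ∞ Φ) (hp : Periodic2 Φ) :
    ∫ p in cell, (b1 p * dx Φ p + b2 p * dy Φ p) = 0 := by
  -- reduce to functions vanishing at the origin
  set Θ : ℝ × ℝ → ℝ := fun p => Φ p + (fun _ => -Φ 0) p with hΘ
  have hsm : ContDiff ℝ ∞ Θ := hΦ.add contDiff_const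
  have hadm : Adm Θ := (adm_of_periodic hΦ hp).add (adm_const _)
  have h0 : Θ 0 = 0 := by simp [hΘ]
  have hdx : ∀ p, dx Θ p = dx Φ p := fun p => by
    rw [hΘ, dx_add (cd_diff hΦ.contDiffAt) (differentiableAt_const _)]
    have : dx (fun _ : ℝ × ℝ => -Φ 0) p = 0 := by unfold dx; simp
    rw [this, add_zero]
  have hdy : ∀ p, dy Θ p = dy Φ p := fun p => by
    rw [hΘ, dy_add (cd_diff hΦ.contDiffAt) (differentiableAt_const _)]
    have : dy (fun _ : ℝ × ℝ => -Φ 0) p = 0 := by unfold dy; simp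
    rw [this, add_zero]
  have hre : ∫ p in cell, (b1 p * dx Φ p + b2 p * dy Φ p) =
      ∫ p in cell, (b1 p * dx Θ p + b2 p * dy Θ p) := by
    refine integral_congr_ae (Eventually.of_forall fun p => ?_)
    simp only [hdx, hdy]
  rw [hre]
  obtain ⟨K, hK0, hK⟩ := cp_bounds hsm h0
  set B : ℝ × ℝ → ℝ := fun p => b1 p ^ 2 + b2 p ^ 2 with hB
  have iB : Integrable B mc := memLp_b1.integrable_sq.add memLp_b2.integrable_sq
  refine zero_of_bounds (F := B) iB (K := 2 * K ^ 2 * 16) fun δ hδ n => ?_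
  set c : ℝ := (n : ℝ) + 4 with hc
  have hc4 : 4 ≤ c := by rw [hc]; have := n.cast_nonneg (α := ℝ); linarith
  have hc0 : 0 < c := by linarith
  have hcp := cpt_cp hc4 hsm
  set Λ : ℝ × ℝ → ℝ := fun p => Θ p + (-1) * cp c Θ p with hΛ
  have hΛs : ContDiff ℝ ∞ Λ := hsm.add (contDiff_const.mul hcp.smooth)
  have hΛ0 : Λ =ᶠ[𝓝 0] 0 := by
    have h1 : ∀ᶠ p in 𝓝 (0 : ℝ × ℝ), rq (c • p) < 1 := by
      have h2 : Continuous fun p : ℝ × ℝ => rq (c • p) :=
        cd_rq.continuous.comp (continuous_const_smul c)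
      refine h2.continuousAt.eventually (gt_mem_nhds ?_)
      simp [rq]
    filter_upwards [h1] with p hp
    simp only [hΛ]
    unfold cp
    rw [eta_one hp.le]; simp
  have c1 : Cpt fun p => b1 p * Λ p :=
    cpt_mul (fun _ hp => cd_b1 hp) (fun _ hq => b1_zero hq) hΛs hΛ0
  have c2 : Cpt fun p => b2 p * Λ p :=
    cpt_mul (fun _ hp => cd_b2 hp) (fun _ hq => b2_zero hq) hΛs hΛ0
  have e1 : ∫ p in cell, (b1 p * dx Λ p + b2 p * dy Λ p) = 0 := by
    have i1 : IntegrableOn (dx fun p => b1 p * Λ p) cell :=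
      integrableOn_cell (cdx c1.smooth).continuous
    have i2 : IntegrableOn (dy fun p => b2 p * Λ p) cell :=
      integrableOn_cell (cdy c2.smooth).continuous
    have : ∫ p in cell, (b1 p * dx Λ p + b2 p * dy Λ p) =
        ∫ p in cell, (dx (fun p => b1 p * Λ p) p + dy (fun p => b2 p * Λ p) p) := by
      refine integral_congr_ae ?_
      filter_upwards [ae_ne_zero] with p hp
      rw [dx_mul (cd_diff (cd_b1 hp)) (cd_diff hΛs.contDiffAt),
        dy_mul (cd_diff (cd_b2 hp)) (cd_diff hΛs.contDiffAt)]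
      have := div_b hp
      have h3 : dy b2 p = -dx b1 p := by linarith
      rw [h3]; ring
    rw [this, integral_add i1 i2, c1.integral_dx, c2.integral_dy, add_zero]
  have mi : ∀ {Ψ : ℝ × ℝ → ℝ}, ContDiff ℝ ∞ Ψ →
      Integrable (fun p => b1 p * dx Ψ p + b2 p * dy Ψ p) mc := fun hΨ =>
    (memLp_b1.integrable_mul (memLp_of_cont (cdx hΨ).continuous)).add
      (memLp_b2.integrable_mul (memLp_of_cont (cdy hΨ).continuous))
  have e3 : ∫ p in cell, (b1 p * dx Θ p + b2 p * dy Θ p) =
      ∫ p in cell, (b1 p * dx (cp c Θ) p + b2 p * dy (cp c Θ) p) := by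
    have i1 := mi hsm
    have i2 := mi hcp.smooth
    have : ∫ p in cell, ((b1 p * dx Θ p + b2 p * dy Θ p) -
        (b1 p * dx (cp c Θ) p + b2 p * dy (cp c Θ) p)) = 0 := by
      rw [← e1]
      refine integral_congr_ae (Eventually.of_forall fun p => ?_)
      have d1 := cd_diff (hsm.contDiffAt (x := p))
      have d2 := cd_diff (hcp.smooth.contDiffAt (x := p))
      have d3 : DifferentiableAt ℝ (fun p => (-1) * cp c Θ p) p := d2.const_mul (-1)
      simp only [hΛ]
      rw [dx_add (g := fun p => (-1) * cp c Θ p) d1 d3, dy_add (g := fun p => (-1) * cp c Θ p) d1 d3,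
        dx_const_mul (-1) d2, dy_const_mul (-1) d2]
      ring
    rw [integral_sub i1 i2] at this
    linarith
  rw [e3]
  have hb : ∀ p ∈ cell, |b1 p * dx (cp c Θ) p + b2 p * dy (cp c Θ) p| ≤
      δ⁻¹ * (Bc c).indicator B p + δ * (Bc c).indicator (fun _ => 2 * K ^ 2) p := by
    intro p hp
    by_cases hpB : p ∈ Bc c
    · rw [Set.indicator_of_mem hpB, Set.indicator_of_mem hpB]
      obtain ⟨_, k1, k2, _⟩ := hK c hc4 p hp hpB
      have s1 : dx (cp c Θ) p ^ 2 ≤ K ^ 2 := by
        rw [← sq_abs]; exact pow_le_pow_left₀ (abs_nonneg _) k1 2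
      have s2 : dy (cp c Θ) p ^ 2 ≤ K ^ 2 := by
        rw [← sq_abs]; exact pow_le_pow_left₀ (abs_nonneg _) k2 2
      have t1 := abs_mul_le_delta (a := b1 p) (b := dx (cp c Θ) p) hδ
      have t2 := abs_mul_le_delta (a := b2 p) (b := dy (cp c Θ) p) hδ
      refine (abs_add_le _ _).trans ?_
      simp only [hB]
      have u1 := mul_le_mul_of_nonneg_left s1 hδ.le
      have u2 := mul_le_mul_of_nonneg_left s2 hδ.le
      linarith
    · rw [Set.indicator_of_notMem hpB, Set.indicator_of_notMem hpB]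
      have hev := cp_zero_off (Φ := Θ) hpB
      rw [dx_congr hev, dy_congr hev]
      unfold dx dy
      simp
  have hcellfin : IsFiniteMeasure mc := ⟨by
    rw [Measure.restrict_apply_univ]; exact volume_cell_lt_top⟩
  have j1 : Integrable (fun p => δ⁻¹ * (Bc c).indicator B p) mc :=
    (iB.indicator (measurableSet_Bc c)).const_mul _
  have j2 : Integrable (fun p => δ * (Bc c).indicator (fun _ => 2 * K ^ 2) p) mc :=
    ((integrable_const _).indicator (measurableSet_Bc c)).const_mul _
  calc |∫ p in cell, (b1 p * dx (cp c Θ) p + b2 p * dy (cp c Θ) p)| ≤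
        ∫ p in cell, |b1 p * dx (cp c Θ) p + b2 p * dy (cp c Θ) p| :=
        abs_integral_le_integral_abs
    _ ≤ ∫ p in cell, (δ⁻¹ * (Bc c).indicator B p + δ * (Bc c).indicator (fun _ => 2 * K ^ 2) p) := by
        refine integral_mono_ae (mi hcp.smooth).abs (j1.add j2) ?_
        filter_upwards [ae_mem_cell] with p hp using hb p hp
    _ = δ⁻¹ * (∫ p in cell, (Bc c).indicator B p) +
        δ * ∫ p in cell, (Bc c).indicator (fun _ => 2 * K ^ 2) p := by
        rw [integral_add j1 j2, integral_const_mul, integral_const_mul]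
    _ ≤ _ := by
        refine add_le_add le_rfl (mul_le_mul_of_nonneg_left ?_ hδ.le)
        have h5 := integral_Bc_const (K := 2 * K ^ 2) hc0 (by positivity)
        refine h5.trans ?_
        have h6 : 16 / c ^ 2 ≤ 16 := by
          rw [div_le_iff₀ (by positivity)]
          nlinarith
        have h7 := mul_le_mul_of_nonneg_right h6 (by positivity : 0 ≤ 2 * K ^ 2)
        linarith

end Pool.Agent.Helper54.AD
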