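import Pool.Agent.Helper54.AD.Profile

/-!
# The global functions: stream function, drift, weight and singular profile
-/

open Set MeasureTheory Filter Topology
open scoped ContDiff

noncomputable section

namespace Pool.Agent.Helper54.AD

/-- the stream function -/
def psi (p : ℝ × ℝ) : ℝ := cut p * psi0 p

/-- first component of the drift -/
def b1 (p : ℝ × ℝ) : ℝ := dy psi p

/-- second component of the drift -/
def b2 (p : ℝ × ℝ) : ℝ := -dx psi p

/-- the singular profile -/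
def w0 (p : ℝ × ℝ) : ℝ := cut p * w00 p

/-- the weight -/
def sig (p : ℝ × ℝ) : ℝ := 1 + cut p * (sig0 p - 1)

/-- the model integrable singularity `s^(-4/3) / r²` -/
def kk (p : ℝ × ℝ) : ℝ := aa p ^ 2 / rq p

variable {p : ℝ × ℝ} {f : ℝ × ℝ → ℝ}

theorem ss_pos (h : rq p ≤ 1) : 0 < ss p := by linarith [ss_ge h]

theorem ev_cut_zero (h : 1 / 8 < rq p) : ∀ᶠ q in 𝓝 p, cut q = 0 := by
  filter_upwards [(cd_rq.continuous.continuousAt (x := p)).eventually (lt_mem_nhds h)] with q hq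
    using cut_eq_zero hq.le

theorem cd_cut_mul (_hp : p ≠ 0) (hf : 0 < ss p → ContDiffAt ℝ ∞ f p) :
    ContDiffAt ℝ ∞ (fun q => cut q * f q) p := by
  rcases le_or_gt (rq p) 1 with h | h
  · exact cd_cut.contDiffAt.mul (hf (ss_pos h))
  · have : (fun q => cut q * f q) =ᶠ[𝓝 p] fun _ => 0 := by
      filter_upwards [ev_cut_zero (by linarith)] with q hq
      rw [hq, zero_mul]
    exact contDiffAt_const.congr_of_eventuallyEq this

theorem cd_psi (hp : p ≠ 0) : ContDiffAt ℝ ∞ psi p := cd_cut_mul hp (cd_psi0 hp)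

theorem cd_w0 (hp : p ≠ 0) : ContDiffAt ℝ ∞ w0 p := cd_cut_mul hp (cd_w00 hp)

theorem cd_sig (hp : p ≠ 0) : ContDiffAt ℝ ∞ sig p :=
  contDiffAt_const.add (cd_cut_mul hp fun h => (cd_sig0 hp h).sub contDiffAt_const)

theorem cd_b1 (hp : p ≠ 0) : ContDiffAt ℝ ∞ b1 p := cd_dy (cd_psi hp)

theorem cd_b2 (hp : p ≠ 0) : ContDiffAt ℝ ∞ b2 p := (cd_dx (cd_psi hp)).neg

theorem div_b (hp : p ≠ 0) : dx b1 p + dy b2 p = 0 := by
  have h1 : dx b1 p = dx (dy psi) p := rfl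
  have h2 : dy b2 p = -dy (dx psi) p := by
    have : b2 = fun p => -dx psi p := rfl
    rw [this, dy_neg]
  rw [h1, h2, dx_dy_comm (cd_psi hp)]; ring

theorem ev_cut_one (h : rq p < 1 / 16) : ∀ᶠ q in 𝓝 p, cut q = 1 := by
  filter_upwards [(cd_rq.continuous.continuousAt (x := p)).eventually (gt_mem_nhds h)] with q hq
    using cut_eq_one hq.le

theorem psi_ev (h : rq p < 1 / 16) : psi =ᶠ[𝓝 p] psi0 := by
  filter_upwards [ev_cut_one h] with q hq
  unfold psi; rw [hq, one_mul]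

theorem w0_ev (h : rq p < 1 / 16) : w0 =ᶠ[𝓝 p] w00 := by
  filter_upwards [ev_cut_one h] with q hq
  unfold w0; rw [hq, one_mul]

theorem sig_ev (h : rq p < 1 / 16) : sig =ᶠ[𝓝 p] sig0 := by
  filter_upwards [ev_cut_one h] with q hq
  unfold sig; rw [hq]; ring

theorem sig0_pos (hp : p ≠ 0) (h : rq p ≤ 1) : 0 < sig0 p := by
  unfold sig0
  have := rq_pos hp
  have := ss_pos h
  positivity

theorem sig_pos (hp : p ≠ 0) : 0 < sig p := by
  unfold sig
  rcases le_or_gt (rq p) 1 with h | h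
  · have h1 := sig0_pos hp h
    have h2 := cut_nonneg p
    have h3 := cut_le_one p
    rcases eq_or_lt_of_le h3 with h4 | h4
    · rw [h4]; linarith
    · nlinarith [mul_nonneg h2 h1.le]
  · rw [cut_eq_zero (by linarith)]; norm_num

theorem norm_sq_le_rq (p : ℝ × ℝ) : ‖p‖ ^ 2 ≤ rq p := by
  rw [Prod.norm_def]
  unfold rq
  rcases le_total ‖p.1‖ ‖p.2‖ with h | h
  · rw [max_eq_right h, Real.norm_eq_abs, sq_abs]
    nlinarith [sq_nonneg p.1]
  · rw [max_eq_left h, Real.norm_eq_abs, sq_abs]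
    nlinarith [sq_nonneg p.2]

theorem rq_le_norm_sq (p : ℝ × ℝ) : rq p ≤ 2 * ‖p‖ ^ 2 := by
  have h1 := norm_fst_le p
  have h2 := norm_snd_le p
  rw [Real.norm_eq_abs] at h1 h2
  have h3 : p.1 ^ 2 ≤ ‖p‖ ^ 2 := by rw [← sq_abs p.1]; exact pow_le_pow_left₀ (abs_nonneg _) h1 2
  have h4 : p.2 ^ 2 ≤ ‖p‖ ^ 2 := by rw [← sq_abs p.2]; exact pow_le_pow_left₀ (abs_nonneg _) h2 2
  unfold rq; linarith

theorem rq_ge_of_norm (h : 3 / 8 < ‖p‖) : 1 / 8 ≤ rq p := by
  have := norm_sq_le_rq p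
  nlinarith

theorem rq_le_of_cell (h : p ∈ cell) : rq p ≤ 1 / 2 := by
  rw [cell_eq_ball, mem_ball_zero_iff] at h
  have h2 := rq_le_norm_sq p
  have h3 := norm_nonneg p
  nlinarith

/-- `k * Φ` is admissible when `k` is smooth off the origin and supported in the cell -/
theorem cpt_mul {k Φ : ℝ × ℝ → ℝ} (hk : ∀ p ≠ 0, ContDiffAt ℝ ∞ k p)
    (hk0 : ∀ p, 1 / 8 ≤ rq p → k p = 0) (hΦ : ContDiff ℝ ∞ Φ) (h0 : Φ =ᶠ[𝓝 0] 0) :
    Cpt fun p => k p * Φ p :=
  ⟨smooth_mul_of_vanish hk hΦ h0, 3 / 8, by norm_num, fun p hp => by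
    rw [hk0 p (rq_ge_of_norm hp), zero_mul]⟩

theorem psi_zero (h : 1 / 8 ≤ rq p) : psi p = 0 := by unfold psi; rw [cut_eq_zero h, zero_mul]

theorem w0_zero (h : 1 / 8 ≤ rq p) : w0 p = 0 := by unfold w0; rw [cut_eq_zero h, zero_mul]

theorem sig_one (h : 1 / 8 ≤ rq p) : sig p = 1 := by
  unfold sig; rw [cut_eq_zero h, zero_mul, add_zero]

/-- derivatives of a function that vanishes for `rq ≥ 1/8` vanish there as well (off the
boundary by local constancy, on the boundary by continuity) -/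
theorem closure_rq (h : 1 / 8 ≤ rq p) : p ∈ closure {q : ℝ × ℝ | 1 / 8 < rq q} := by
  have hp : p ≠ 0 := by
    rintro rfl
    have : rq (0 : ℝ × ℝ) = 0 := by simp [rq]
    rw [this] at h; norm_num at h
  have h1 : Tendsto (fun t : ℝ => t • p) (𝓝[>] 1) (𝓝 p) := by
    have hc : Continuous fun t : ℝ => t • p := by fun_prop
    have := (hc.tendsto 1).mono_left (nhdsWithin_le_nhds (s := Ioi (1 : ℝ)))
    simpa using this
  refine mem_closure_of_tendsto h1 ?_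
  filter_upwards [self_mem_nhdsWithin] with t ht
  have ht' : (1 : ℝ) < t := ht
  have e : rq (t • p) = t ^ 2 * rq p := by unfold rq; simp; ring
  show 1 / 8 < rq (t • p)
  rw [e]
  have := rq_pos hp
  nlinarith

theorem dx_zero_of_supp (hk : ∀ p ≠ 0, ContDiffAt ℝ ∞ f p)
    (hk0 : ∀ p, 1 / 8 ≤ rq p → f p = 0) (h : 1 / 8 ≤ rq p) : dx f p = 0 := by
  have hp : p ≠ 0 := by
    rintro rfl
    have : rq (0 : ℝ × ℝ) = 0 := by simp [rq]
    rw [this] at h; norm_num at h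
  have hc : ContinuousAt (dx f) p := (cd_dx (hk p hp)).continuousAt
  have hz : ∀ q ∈ {q : ℝ × ℝ | 1 / 8 < rq q}, dx f q = 0 := by
    intro q hq
    have : f =ᶠ[𝓝 q] fun _ => 0 := by
      filter_upwards [(cd_rq.continuous.continuousAt (x := q)).eventually (lt_mem_nhds hq)] with
        q' hq' using hk0 q' (le_of_lt hq')
    rw [dx_congr this]; unfold dx; simp
  have h2 : dx f p ∈ closure ({0} : Set ℝ) := by
    have := hc.continuousWithinAt.mem_closure (closure_rq h) (t := {0}) fun q hq => hz q hq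
    exact this
  simpa using h2

theorem dy_zero_of_supp (hk : ∀ p ≠ 0, ContDiffAt ℝ ∞ f p)
    (hk0 : ∀ p, 1 / 8 ≤ rq p → f p = 0) (h : 1 / 8 ≤ rq p) : dy f p = 0 := by
  have hp : p ≠ 0 := by
    rintro rfl
    have : rq (0 : ℝ × ℝ) = 0 := by simp [rq]
    rw [this] at h; norm_num at h
  have hc : ContinuousAt (dy f) p := (cd_dy (hk p hp)).continuousAt
  have hz : ∀ q ∈ {q : ℝ × ℝ | 1 / 8 < rq q}, dy f q = 0 := by
    intro q hq
    have : f =ᶠ[𝓝 q] fun _ => 0 := by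
      filter_upwards [(cd_rq.continuous.continuousAt (x := q)).eventually (lt_mem_nhds hq)] with
        q' hq' using hk0 q' (le_of_lt hq')
    rw [dy_congr this]; unfold dy; simp
  have h2 : dy f p ∈ closure ({0} : Set ℝ) := by
    have := hc.continuousWithinAt.mem_closure (closure_rq h) (t := {0}) fun q hq => hz q hq
    exact this
  simpa using h2

theorem b1_zero (h : 1 / 8 ≤ rq p) : b1 p = 0 :=
  dy_zero_of_supp (fun _ hp => cd_psi hp) (fun _ h => psi_zero h) h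

theorem b2_zero (h : 1 / 8 ≤ rq p) : b2 p = 0 := by
  unfold b2
  rw [dx_zero_of_supp (fun _ hp => cd_psi hp) (fun _ h => psi_zero h) h, neg_zero]

/-! ### parity -/

theorem fderiv_neg_arg (f : ℝ × ℝ → ℝ) (p v : ℝ × ℝ) :
    fderiv ℝ (fun q => f (-q)) p v = -(fderiv ℝ f (-p) v) := by
  have h := (ContinuousLinearEquiv.neg ℝ (M := ℝ × ℝ)).comp_right_fderiv (f := f) (x := p)
  have h2 : (fun q => f (-q)) = f ∘ (ContinuousLinearEquiv.neg ℝ (M := ℝ × ℝ)) := rfl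
  rw [h2, h]
  have h3 : (ContinuousLinearEquiv.neg ℝ (M := ℝ × ℝ)) p = -p := rfl
  rw [h3]
  show fderiv ℝ f (-p) (-v) = _
  rw [map_neg]

theorem dx_comp_neg : dx (fun q => f (-q)) p = -dx f (-p) := by
  unfold dx
  rw [fderiv_neg_arg]

theorem dy_comp_neg : dy (fun q => f (-q)) p = -dy f (-p) := by
  unfold dy
  rw [fderiv_neg_arg]

theorem rq_neg (p : ℝ × ℝ) : rq (-p) = rq p := by unfold rq; simp

theorem ss_neg (p : ℝ × ℝ) : ss (-p) = ss p := by unfold ss; rw [rq_neg]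

theorem cut_neg (p : ℝ × ℝ) : cut (-p) = cut p := by unfold cut; rw [rq_neg]

theorem psi_neg (p : ℝ × ℝ) : psi (-p) = psi p := by
  unfold psi psi0; rw [cut_neg, ss_neg, rq_neg]; simp

theorem sig_neg (p : ℝ × ℝ) : sig (-p) = sig p := by
  unfold sig sig0; rw [cut_neg, ss_neg, rq_neg]

theorem w0_neg (p : ℝ × ℝ) : w0 (-p) = -w0 p := by
  unfold w0 w00 aa R1 R3 is6; rw [cut_neg, ss_neg, rq_neg]; simp; ring

theorem b1_neg (p : ℝ × ℝ) : b1 (-p) = -b1 p := by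
  unfold b1
  have h : (fun q => psi (-q)) = psi := funext psi_neg
  have := dy_comp_neg (f := psi) (p := p)
  rw [h] at this
  linarith

theorem b2_neg (p : ℝ × ℝ) : b2 (-p) = -b2 p := by
  unfold b2
  have h : (fun q => psi (-q)) = psi := funext psi_neg
  have := dx_comp_neg (f := psi) (p := p)
  rw [h] at this
  linarith

/-! ### pointwise bounds -/

theorem isCompact_ann : IsCompact {p : ℝ × ℝ | 1 / 16 ≤ rq p ∧ rq p ≤ 1} := by
  have hcl : IsClosed {p : ℝ × ℝ | 1 / 16 ≤ rq p ∧ rq p ≤ 1} :=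
    (isClosed_le continuous_const cd_rq.continuous).inter
      (isClosed_le cd_rq.continuous continuous_const)
  refine Metric.isCompact_of_isClosed_isBounded hcl ?_
  rw [isBounded_iff_forall_norm_le]
  refine ⟨1, fun p hp => ?_⟩
  have := norm_sq_le_rq p
  nlinarith [hp.2, norm_nonneg p]

theorem exists_bound_ann (hf : ∀ p ≠ 0, 0 < ss p → ContinuousAt f p) :
    ∃ C : ℝ, 0 ≤ C ∧ ∀ p, 1 / 16 ≤ rq p → rq p ≤ 1 → |f p| ≤ C := by
  have hc : ContinuousOn f {p : ℝ × ℝ | 1 / 16 ≤ rq p ∧ rq p ≤ 1} := by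
    intro p hp
    have hp0 : p ≠ 0 := by
      rintro rfl
      have h1 := hp.1
      have : rq (0 : ℝ × ℝ) = 0 := by simp [rq]
      rw [this] at h1; norm_num at h1
    exact (hf p hp0 (ss_pos hp.2)).continuousWithinAt
  obtain ⟨C, hC⟩ := isCompact_ann.exists_bound_of_continuousOn hc
  refine ⟨max C 0, le_max_right _ _, fun p h1 h2 => ?_⟩
  exact (hC p ⟨h1, h2⟩).trans (le_max_left _ _)

theorem kk_pos (hp : p ≠ 0) (h : rq p ≤ 1) : 0 < kk p := by
  unfold kk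
  have := rq_pos hp
  have := aa_pos (ss_pos h)
  positivity

theorem inv_sq_le_aa (h : rq p ≤ 1) : 1 / ss p ^ 2 ≤ aa p ^ 2 := by
  have hs := ss_ge h
  have h1 : 1 / ss p ≤ aa p := by
    unfold aa
    rw [one_div, ← Real.rpow_neg_one]
    exact Real.rpow_le_rpow_of_exponent_le (by linarith) (by norm_num)
  have h2 : 0 ≤ 1 / ss p := by positivity
  calc 1 / ss p ^ 2 = (1 / ss p) ^ 2 := by rw [div_pow, one_pow]
    _ ≤ aa p ^ 2 := pow_le_pow_left₀ h2 h1 2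

theorem R1_sq (hp : p ≠ 0) : R1 p ^ 2 ≤ 1 / rq p := by
  have h1 := rq_pos hp
  unfold R1
  rw [div_pow, div_le_div_iff₀ (by positivity) h1]
  have e6 : rq p = p.1 ^ 2 + p.2 ^ 2 := rfl
  nlinarith [sq_nonneg p.1, sq_nonneg p.2, mul_nonneg h1.le (sq_nonneg p.2)]

theorem R3_sq (hp : p ≠ 0) : R3 p ^ 2 ≤ 1 / rq p := by
  have h1 := rq_pos hp
  unfold R3
  rw [div_pow, div_le_div_iff₀ (by positivity) h1]
  have e6 : rq p = p.1 ^ 2 + p.2 ^ 2 := rfl
  have e7 : (rq p ^ 2) ^ 2 = rq p * (rq p) ^ 3 := by ring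
  have e8 : rq p ^ 3 = (p.1 ^ 3 - 3 * p.1 * p.2 ^ 2) ^ 2 + (3 * p.1 ^ 2 * p.2 - p.2 ^ 3) ^ 2 := by
    rw [e6]; ring
  rw [e7, one_mul, mul_comm]
  refine mul_le_mul_of_nonneg_left ?_ h1.le
  rw [e8]; nlinarith [sq_nonneg (3 * p.1 ^ 2 * p.2 - p.2 ^ 3)]

/-- `√(1/q)` -/
def mm (p : ℝ × ℝ) : ℝ := Real.sqrt (1 / rq p)

theorem mm_sq (hp : p ≠ 0) : mm p ^ 2 = 1 / rq p := by
  have := rq_pos hp
  exact Real.sq_sqrt (by positivity)

theorem mm_nonneg (p : ℝ × ℝ) : 0 ≤ mm p := Real.sqrt_nonneg _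

theorem abs_R1_le (hp : p ≠ 0) : |R1 p| ≤ mm p := Real.abs_le_sqrt (R1_sq hp)

theorem abs_R3_le (hp : p ≠ 0) : |R3 p| ≤ mm p := Real.abs_le_sqrt (R3_sq hp)

theorem w00_sq_le (hp : p ≠ 0) (h : rq p ≤ 1) : w00 p ^ 2 ≤ 4 * kk p := by
  have h1 := rq_pos hp
  have hs := ss_ge h
  have h2 : |is6 p| ≤ 1 := by
    unfold is6
    rw [abs_of_pos (by positivity), div_le_one (by positivity)]
    linarith
  have h3 : |R1 p + is6 p * R3 p| ≤ 2 * mm p := by
    calc |R1 p + is6 p * R3 p| ≤ |R1 p| + |is6 p| * |R3 p| := by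
          rw [← abs_mul]; exact abs_add_le _ _
      _ ≤ mm p + 1 * mm p := add_le_add (abs_R1_le hp)
          (mul_le_mul h2 (abs_R3_le hp) (abs_nonneg _) zero_le_one)
      _ = 2 * mm p := by ring
  have h4 : (R1 p + is6 p * R3 p) ^ 2 ≤ (2 * mm p) ^ 2 := by
    rw [← sq_abs]; exact pow_le_pow_left₀ (abs_nonneg _) h3 2
  unfold w00 kk
  rw [mul_pow]
  have h5 : (2 * mm p) ^ 2 = 4 * (1 / rq p) := by rw [mul_pow, mm_sq hp]; norm_num
  rw [h5] at h4
  calc aa p ^ 2 * (R1 p + is6 p * R3 p) ^ 2 ≤ aa p ^ 2 * (4 * (1 / rq p)) :=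
        mul_le_mul_of_nonneg_left h4 (sq_nonneg _)
    _ = 4 * (aa p ^ 2 / rq p) := by ring

theorem w0_sq_le (hp : p ≠ 0) (h : rq p ≤ 1) : w0 p ^ 2 ≤ 4 * kk p := by
  have h1 := w00_sq_le hp h
  unfold w0
  rw [mul_pow]
  have h2 : cut p ^ 2 ≤ 1 := pow_le_one₀ (cut_nonneg p) (cut_le_one p)
  nlinarith [sq_nonneg (w00 p), sq_nonneg (cut p)]

/-- `q s² ≤ 400` -/
theorem rq_ss_le (hp : p ≠ 0) (h : rq p ≤ 1) : rq p * ss p ^ 2 ≤ 400 := by
  have h1 := rq_pos hp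
  set t := Real.sqrt (rq p) with ht
  have ht0 : 0 < t := Real.sqrt_pos.mpr h1
  have ht1 : t ≤ 1 := Real.sqrt_le_one.mpr h
  have htq : rq p = t ^ 2 := (Real.sq_sqrt h1.le).symm
  have hl : ss p = 20 - Real.log t := by
    unfold ss; rw [htq, Real.log_pow]; norm_num
  have h2 : -Real.log t ≤ 1 / t - 1 := by
    have := Real.log_le_sub_one_of_pos (x := 1 / t) (by positivity)
    rwa [one_div, Real.log_inv, ← one_div] at this
  have h3 : t * ss p ≤ 20 := by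
    rw [hl]
    have : t * (20 - Real.log t) ≤ t * (20 + (1 / t - 1)) :=
      mul_le_mul_of_nonneg_left (by linarith) ht0.le
    have e : t * (20 + (1 / t - 1)) = 19 * t + 1 := by field_simp; ring
    linarith
  have h4 : 0 ≤ t * ss p := mul_nonneg ht0.le (ss_pos h).le
  calc rq p * ss p ^ 2 = (t * ss p) ^ 2 := by rw [htq]; ring
    _ ≤ 20 ^ 2 := pow_le_pow_left₀ h4 h3 2
    _ = 400 := by norm_num

end Pool.Agent.Helper54.AD
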