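import Pool.Agent.Helper54.AD.Glob

/-!
# Integrability of the model singularity
-/

open Set MeasureTheory Filter Topology
open scoped ContDiff

noncomputable section

namespace Pool.Agent.Helper54.AD

/-- antiderivative -/
def gg (y : ℝ) : ℝ := if y = 0 then 0 else 3 * (19 - Real.log y) ^ (-1 / 3 : ℝ)

theorem integrableOn_model :
    IntegrableOn (fun y : ℝ => y⁻¹ * (19 - Real.log y) ^ (-4 / 3 : ℝ)) (Ioc 0 (1 / 2)) := by
  have hlog : ∀ y : ℝ, 0 < y → y ≤ 1 / 2 → 0 < 19 - Real.log y := by
    intro y hy hy2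
    have := Real.log_nonpos hy.le (by linarith)
    linarith
  refine intervalIntegral.integrableOn_deriv_right_of_nonneg (g := gg) ?_ ?_ ?_
  · intro y hy
    rcases eq_or_lt_of_le hy.1 with h | h
    · subst h
      have h1 : ContinuousWithinAt gg (Ioi 0) 0 := by
        have h2 : Tendsto (fun y : ℝ => 3 * (19 - Real.log y) ^ (-(1 / 3) : ℝ)) (𝓝[>] 0)
            (𝓝 (3 * 0)) := by
          refine Tendsto.const_mul 3 ?_
          refine (tendsto_rpow_neg_atTop (by norm_num : (0 : ℝ) < 1 / 3)).comp ?_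
          have h3 : Tendsto (fun y : ℝ => 19 + -Real.log y) (𝓝[>] 0) atTop :=
            tendsto_atTop_add_const_left _ _ (tendsto_neg_atBot_atTop.comp
              Real.tendsto_log_nhdsGT_zero)
          exact h3.congr fun y => by ring
        have h4 : gg 0 = 3 * 0 := by simp [gg]
        unfold ContinuousWithinAt
        rw [h4]
        refine h2.congr' ?_
        filter_upwards [self_mem_nhdsWithin] with y hy
        unfold gg
        rw [if_neg (ne_of_gt hy)]
        norm_num
      have h5 : ContinuousWithinAt gg (Ici 0) 0 := by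
        rw [← continuousWithinAt_Ioi_iff_Ici]; exact h1
      exact h5.mono fun z hz => hz.1
    · have h1 : gg =ᶠ[𝓝 y] fun y => 3 * (19 - Real.log y) ^ (-1 / 3 : ℝ) := by
        filter_upwards [isOpen_ne.mem_nhds h.ne'] with z hz
        unfold gg; rw [if_neg hz]
      have h2 : ContinuousAt (fun y : ℝ => 3 * (19 - Real.log y) ^ (-1 / 3 : ℝ)) y := by
        refine ContinuousAt.mul continuousAt_const ?_
        exact (continuousAt_const.sub (Real.continuousAt_log h.ne')).rpow_const
          (Or.inl (hlog y h hy.2).ne')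
      exact (h2.congr h1.symm).continuousWithinAt
  · intro y hy
    have h1 : gg =ᶠ[𝓝 y] fun y => 3 * (19 - Real.log y) ^ (-1 / 3 : ℝ) := by
      filter_upwards [isOpen_ne.mem_nhds hy.1.ne'] with z hz
      unfold gg; rw [if_neg hz]
    have h0 := hlog y hy.1 hy.2.le
    have h2 : HasDerivAt (fun y : ℝ => 19 - Real.log y) (-y⁻¹) y :=
      (Real.hasDerivAt_log hy.1.ne').const_sub 19
    have h3 := (h2.rpow_const (p := (-1 / 3 : ℝ)) (Or.inl h0.ne')).const_mul 3
    have h4 : HasDerivAt gg (y⁻¹ * (19 - Real.log y) ^ (-4 / 3 : ℝ)) y := by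
      refine (h3.congr_of_eventuallyEq h1).congr_deriv ?_
      have : (-1 / 3 - 1 : ℝ) = -4 / 3 := by norm_num
      rw [this]; ring
    exact h4.hasDerivWithinAt
  · intro y hy
    have h0 := hlog y hy.1 hy.2.le
    have := Real.rpow_nonneg h0.le (-4 / 3)
    have h1 : 0 < y⁻¹ := inv_pos.mpr hy.1
    positivity

theorem integrableOn_kk : IntegrableOn kk cell := by
  rw [cell_eq_ball]
  have h1 : IntegrableOn (fun p : ℝ × ℝ => (‖p‖ ^ 2)⁻¹ * (19 - Real.log ‖p‖) ^ (-4 / 3 : ℝ))
      (Metric.ball 0 (1 / 2)) := by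
    rw [integrableOn_fun_norm_addHaar volume
      (f := fun r => (r ^ 2)⁻¹ * (19 - Real.log r) ^ (-4 / 3 : ℝ))]
    refine (integrableOn_model.mono_set Ioo_subset_Ioc_self).congr_fun (fun y hy => ?_)
      measurableSet_Ioo
    have hd : Module.finrank ℝ (ℝ × ℝ) - 1 = 1 := by simp
    have hy0 : y ≠ 0 := hy.1.ne'
    rw [hd, pow_one, smul_eq_mul]
    field_simp
  have h0 : ∀ᵐ p : ℝ × ℝ ∂(volume.restrict (Metric.ball 0 (1 / 2))), p ≠ 0 := by
    refine ae_restrict_of_ae ?_
    rw [ae_iff]; simp
  refine Integrable.mono h1 ?_ ?_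
  · have hm : Measurable kk := by
      unfold kk aa ss rq
      fun_prop
    exact hm.aestronglyMeasurable
  · have hmem : ∀ᵐ p : ℝ × ℝ ∂(volume.restrict (Metric.ball 0 (1 / 2))),
        p ∈ Metric.ball (0 : ℝ × ℝ) (1 / 2) := ae_restrict_mem Metric.isOpen_ball.measurableSet
    filter_upwards [h0, hmem] with p hp hb
    have hcell : p ∈ cell := by rw [cell_eq_ball]; exact hb
    have hq := rq_le_of_cell hcell
    have hle : rq p ≤ 1 := by linarith
    have hq0 := rq_pos hp
    have hn : 0 < ‖p‖ := norm_pos_iff.mpr hp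
    rw [mem_ball_zero_iff] at hb
    have h19 : 0 < 19 - Real.log ‖p‖ := by
      have := Real.log_nonpos hn.le (by linarith)
      linarith
    have hs : 19 - Real.log ‖p‖ ≤ ss p := by
      unfold ss
      have e1 : Real.log (rq p) ≤ Real.log (2 * ‖p‖ ^ 2) :=
        Real.log_le_log hq0 (rq_le_norm_sq p)
      rw [Real.log_mul (by norm_num) (by positivity), Real.log_pow] at e1
      have e2 : Real.log 2 ≤ 1 := by
        have := Real.log_le_sub_one_of_pos (x := 2) (by norm_num)
        linarith
      push_cast at e1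
      linarith
    have haa : aa p ^ 2 = ss p ^ (-4 / 3 : ℝ) := by
      unfold aa
      rw [← Real.rpow_natCast, ← Real.rpow_mul (ss_pos hle).le]
      norm_num
    rw [Real.norm_eq_abs, Real.norm_eq_abs, abs_of_pos (kk_pos hp hle), abs_of_nonneg (by
      have := Real.rpow_nonneg h19.le (-4 / 3)
      positivity)]
    unfold kk
    rw [haa, div_eq_mul_inv, mul_comm]
    refine mul_le_mul ?_ ?_ (Real.rpow_nonneg (ss_pos hle).le _) (by positivity)
    · exact inv_anti₀ (by positivity) (norm_sq_le_rq p)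
    · exact Real.rpow_le_rpow_of_nonpos h19 hs (by norm_num)

end Pool.Agent.Helper54.AD
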