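import Pool.Agent.Helper54.AD.Calc

/-!
# Periodic extension of functions supported in the cell
-/

open Set MeasureTheory Filter Topology
open scoped ContDiff Real

noncomputable section

namespace Pool.Agent.Helper54.AD

/-- periodisation -/
def per {α : Type*} (f : ℝ × ℝ → α) (p : ℝ × ℝ) : α :=
  f (p.1 - round p.1, p.2 - round p.2)

theorem periodic_per {α : Type*} (f : ℝ × ℝ → α) : Periodic2 (per f) := by
  constructor
  · intro p
    unfold per
    simp only [round_add_one]
    push_cast
    congr 2; ring
  · intro p
    unfold per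
    simp only [round_add_one]
    push_cast
    congr 2; ring

theorem per_eq {α : Type*} (f : ℝ × ℝ → α) {p : ℝ × ℝ} (hp : p ∈ cell) : per f p = f p := by
  have h1 : round p.1 = 0 := by
    rw [round_eq_zero_iff]
    have := hp.1
    constructor
    · have := this.1; norm_num at this ⊢; linarith
    · have := this.2; norm_num at this ⊢; linarith
  have h2 : round p.2 = 0 := by
    rw [round_eq_zero_iff]
    have := hp.2
    constructor
    · have := this.1; norm_num at this ⊢; linarith
    · have := this.2; norm_num at this ⊢; linarith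
  unfold per
  rw [h1, h2]; simp

theorem round_locally {x₀ : ℝ} (h : |x₀ - round x₀| < 1 / 2) :
    ∀ᶠ x in 𝓝 x₀, round x = round x₀ := by
  have h1 : x₀ ∈ Ioo ((round x₀ : ℝ) - 1 / 2) (round x₀ + 1 / 2) := by
    rw [abs_lt] at h
    constructor <;> linarith [h.1, h.2]
  filter_upwards [isOpen_Ioo.mem_nhds h1] with x hx
  have h2 : round (x - (round x₀ : ℤ)) = 0 := by
    rw [round_eq_zero_iff]
    constructor
    · have := hx.1; norm_num; linarith
    · have := hx.2; norm_num; linarith
  rw [round_sub_intCast] at h2
  omega

theorem dist_round_lip (x y : ℝ) : |y - round y| - |x - y| ≤ |x - round x| := by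
  have h1 := round_le y (round x)
  have h2 : |y - round x| ≤ |x - y| + |x - round x| := by
    have : y - round x = -(x - y) + (x - round x) := by ring
    rw [this]
    refine (abs_add_le _ _).trans ?_
    rw [abs_neg]
  linarith

theorem Cpt.per_smooth {f : ℝ × ℝ → ℝ} (hf : Cpt f) : ContDiff ℝ ∞ (per f) := by
  obtain ⟨R, hR1, hR⟩ := hf.supp
  rw [contDiff_iff_contDiffAt]
  intro p
  by_cases h : |p.1 - round p.1| < 1 / 2 ∧ |p.2 - round p.2| < 1 / 2
  · have h1 := round_locally h.1
    have h2 := round_locally h.2
    have h3 : ∀ᶠ q in 𝓝 p, round q.1 = round p.1 := continuous_fst.continuousAt.eventually h1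
    have h4 : ∀ᶠ q in 𝓝 p, round q.2 = round p.2 := continuous_snd.continuousAt.eventually h2
    have h5 : per f =ᶠ[𝓝 p] fun q => f (q.1 - round p.1, q.2 - round p.2) := by
      filter_upwards [h3, h4] with q e1 e2
      unfold per; rw [e1, e2]
    refine ContDiffAt.congr_of_eventuallyEq ?_ h5
    have h6 : ContDiff ℝ ∞ fun q : ℝ × ℝ => f (q.1 - round p.1, q.2 - round p.2) :=
      hf.smooth.comp ((contDiff_fst.sub contDiff_const).prodMk (contDiff_snd.sub contDiff_const))
    exact h6.contDiffAt
  · have h5 : per f =ᶠ[𝓝 p] fun _ => 0 := by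
      rw [not_and_or, not_lt, not_lt] at h
      rcases h with h | h
      · have h1 : ∀ᶠ q : ℝ × ℝ in 𝓝 p, |q.1 - p.1| < 1 / 2 - R := by
          have hc : Continuous fun q : ℝ × ℝ => |q.1 - p.1| := by fun_prop
          refine hc.continuousAt.eventually (gt_mem_nhds ?_)
          simp; linarith
        filter_upwards [h1] with q hq
        unfold per
        apply hR
        refine lt_of_lt_of_le ?_ (norm_fst_le _)
        rw [Real.norm_eq_abs]
        have := dist_round_lip q.1 p.1
        linarith
      · have h1 : ∀ᶠ q : ℝ × ℝ in 𝓝 p, |q.2 - p.2| < 1 / 2 - R := by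
          have hc : Continuous fun q : ℝ × ℝ => |q.2 - p.2| := by fun_prop
          refine hc.continuousAt.eventually (gt_mem_nhds ?_)
          simp; linarith
        filter_upwards [h1] with q hq
        unfold per
        apply hR
        refine lt_of_lt_of_le ?_ (norm_snd_le _)
        rw [Real.norm_eq_abs]
        have := dist_round_lip q.2 p.2
        linarith
    exact contDiffAt_const.congr_of_eventuallyEq h5

theorem per_ev {α : Type*} (f : ℝ × ℝ → α) {p : ℝ × ℝ} (hp : p ∈ cell) : per f =ᶠ[𝓝 p] f := by
  filter_upwards [isOpen_cell.mem_nhds hp] with q hq using per_eq f hq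

end Pool.Agent.Helper54.AD
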