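import Pool.Agent.Helper54.AD.Full
import Pool.Agent.Helper54.AD.Per
import Pool.Agent.Helper54.AD.Defs

/-!
# The solution is not in `H¹`
-/

open Set MeasureTheory Filter Topology
open scoped ContDiff Real

noncomputable section

namespace Pool.Agent.Helper54.AD

variable {p : ℝ × ℝ} {f g Φ Ψ H : ℝ × ℝ → ℝ} {lam : ℝ}

theorem WeakGrad.cpt₁ {u g₁ g₂ : ℝ × ℝ → ℝ} (h : WeakGrad u g₁ g₂) (hΦ : Cpt Φ) :
    ∫ p in cell, u p * dx Φ p = -∫ p in cell, g₁ p * Φ p := by
  have h1 := h.eq₁ (per Φ) hΦ.per_smooth (periodic_per Φ)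
  have e1 : ∫ p in cell, u p * dx (per Φ) p = ∫ p in cell, u p * dx Φ p :=
    setIntegral_congr_fun measurableSet_cell fun p hp => by rw [dx_congr (per_ev Φ hp)]
  have e2 : ∫ p in cell, g₁ p * per Φ p = ∫ p in cell, g₁ p * Φ p :=
    setIntegral_congr_fun measurableSet_cell fun p hp => by rw [per_eq Φ hp]
  rw [e1, e2] at h1
  exact h1

theorem WeakGrad.cpt₂ {u g₁ g₂ : ℝ × ℝ → ℝ} (h : WeakGrad u g₁ g₂) (hΦ : Cpt Φ) :
    ∫ p in cell, u p * dy Φ p = -∫ p in cell, g₂ p * Φ p := by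
  have h1 := h.eq₂ (per Φ) hΦ.per_smooth (periodic_per Φ)
  have e1 : ∫ p in cell, u p * dy (per Φ) p = ∫ p in cell, u p * dy Φ p :=
    setIntegral_congr_fun measurableSet_cell fun p hp => by rw [dy_congr (per_ev Φ hp)]
  have e2 : ∫ p in cell, g₂ p * per Φ p = ∫ p in cell, g₂ p * Φ p :=
    setIntegral_congr_fun measurableSet_cell fun p hp => by rw [per_eq Φ hp]
  rw [e1, e2] at h1
  exact h1

/-! ### the test fields -/

/-- bump in `r²` -/
def ze (t : ℝ) : ℝ := Real.smoothTransition (t - 1) * Real.smoothTransition (4 - t)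

theorem ze_nonneg (t : ℝ) : 0 ≤ ze t :=
  mul_nonneg (Real.smoothTransition.nonneg _) (Real.smoothTransition.nonneg _)

theorem ze_one {t : ℝ} (h1 : 2 ≤ t) (h2 : t ≤ 3) : ze t = 1 := by
  unfold ze
  rw [Real.smoothTransition.one_of_one_le (by linarith),
    Real.smoothTransition.one_of_one_le (by linarith), one_mul]

theorem ze_zero_left {t : ℝ} (h : t ≤ 1) : ze t = 0 := by
  unfold ze; rw [Real.smoothTransition.zero_of_nonpos (by linarith), zero_mul]

theorem ze_zero_right {t : ℝ} (h : 4 ≤ t) : ze t = 0 := by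
  unfold ze; rw [Real.smoothTransition.zero_of_nonpos (x := 4 - t) (by linarith), mul_zero]

theorem cd_ze : ContDiff ℝ ∞ ze := by
  unfold ze
  exact (Real.smoothTransition.contDiff.comp (contDiff_id.sub contDiff_const)).mul
    (Real.smoothTransition.contDiff.comp (contDiff_const.sub contDiff_id))

/-- first base field -/
def P1 (p : ℝ × ℝ) : ℝ := ze (rq p) * p.1 ^ 2

/-- second base field -/
def P2 (p : ℝ × ℝ) : ℝ := ze (rq p) * (p.1 * p.2)

theorem cd_P1 : ContDiff ℝ ∞ P1 := (cd_ze.comp cd_rq).mul (contDiff_fst.pow 2)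

theorem cd_P2 : ContDiff ℝ ∞ P2 := (cd_ze.comp cd_rq).mul (contDiff_fst.mul contDiff_snd)

theorem hcs_of_rq (hf : ∀ p, 4 ≤ rq p → f p = 0) : HasCompactSupport f := by
  refine HasCompactSupport.intro (isCompact_closedBall (0 : ℝ × ℝ) 2) fun p hp => hf p ?_
  rw [mem_closedBall_zero_iff, not_le] at hp
  have := norm_sq_le_rq p
  nlinarith

theorem exists_P_bound : ∃ M : ℝ, 0 ≤ M ∧ ∀ p, |P1 p| ≤ M ∧ |P2 p| ≤ M ∧
    |dx P1 p + dy P2 p| ≤ M := by
  have h1 : HasCompactSupport P1 := hcs_of_rq fun p hp => by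
    unfold P1; rw [ze_zero_right hp, zero_mul]
  have h2 : HasCompactSupport P2 := hcs_of_rq fun p hp => by
    unfold P2; rw [ze_zero_right hp, zero_mul]
  obtain ⟨C1, k1⟩ := cd_P1.continuous.bounded_above_of_compact_support h1
  obtain ⟨C2, k2⟩ := cd_P2.continuous.bounded_above_of_compact_support h2
  obtain ⟨C3, k3⟩ := (cdx cd_P1).continuous.bounded_above_of_compact_support (hcs_dx h1)
  obtain ⟨C4, k4⟩ := (cdy cd_P2).continuous.bounded_above_of_compact_support (hcs_dy h2)
  have l1 := (norm_nonneg _).trans (k1 0)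
  have l2 := (norm_nonneg _).trans (k2 0)
  have l3 := (norm_nonneg _).trans (k3 0)
  have l4 := (norm_nonneg _).trans (k4 0)
  refine ⟨C1 + C2 + C3 + C4, by positivity, fun p => ⟨?_, ?_, ?_⟩⟩
  · have := k1 p; rw [Real.norm_eq_abs] at this; linarith
  · have := k2 p; rw [Real.norm_eq_abs] at this; linarith
  · have a := k3 p
    have b := k4 p
    rw [Real.norm_eq_abs] at a b
    refine (abs_add_le _ _).trans ?_
    linarith

/-- scaled field -/
def sc (c : ℝ) (f : ℝ × ℝ → ℝ) (p : ℝ × ℝ) : ℝ := c * f (c • p)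

theorem cd_sc (c : ℝ) (hf : ContDiff ℝ ∞ f) : ContDiff ℝ ∞ (sc c f) :=
  contDiff_const.mul (cd_scale c hf)

theorem dx_sc (c : ℝ) (hf : ContDiff ℝ ∞ f) (p : ℝ × ℝ) : dx (sc c f) p = c ^ 2 * dx f (c • p) := by
  unfold sc
  rw [dx_const_mul c (cd_diff (cd_scale c hf).contDiffAt), dx_scale c (cd_diff hf.contDiffAt)]
  ring

theorem dy_sc (c : ℝ) (hf : ContDiff ℝ ∞ f) (p : ℝ × ℝ) : dy (sc c f) p = c ^ 2 * dy f (c • p) := by
  unfold sc
  rw [dy_const_mul c (cd_diff (cd_scale c hf).contDiffAt), dy_scale c (cd_diff hf.contDiffAt)]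
  ring

theorem cpt_sc {c : ℝ} (hc : 8 ≤ c) (hf : ContDiff ℝ ∞ f) (h0 : ∀ p, 4 ≤ rq p → f p = 0) :
    Cpt (sc c f) := by
  refine ⟨cd_sc c hf, 3 / 8, by norm_num, fun p hp => ?_⟩
  have h1 := rq_ge_of_norm hp
  unfold sc
  rw [h0, mul_zero]
  rw [rq_smul]
  have : 64 ≤ c ^ 2 := by nlinarith
  nlinarith

/-- the radial derivative of the singular profile -/
theorem radial_w00 (hp : p ≠ 0) (hs : 0 < ss p) :
    p.1 * dx w00 p + p.2 * dy w00 p = -(aa p * (R1 p + is6 p * R3 p - R3 p / (6 * ss p ^ 2) -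
      2 / 3 / ss p * (R1 p + is6 p * R3 p))) := by
  have h1 := (rq_pos hp).ne'
  have h2 := hs.ne'
  rw [dx_w00 hp hs, dy_w00 hp hs, dx_KK hp hs, dy_KK hp hs]
  have e6 : rq p = p.1 ^ 2 + p.2 ^ 2 := rfl
  unfold KK is6 R3x R3y R3 R1
  field_simp
  rw [e6]
  ring

theorem radial_lower (hp : p ≠ 0) (h : rq p ≤ 1) :
    aa p * (p.1 ^ 2 / rq p) / 2 ≤ -(p.1 * (p.1 * dx w00 p + p.2 * dy w00 p)) := by
  have hq := rq_pos hp
  have hs := ss_ge h
  have hs0 := ss_pos h
  have ha := aa_pos hs0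
  rw [radial_w00 hp hs0]
  set X := p.1 ^ 2 / rq p with hX
  have hX0 : 0 ≤ X := by positivity
  set θ := (p.1 ^ 2 - 3 * p.2 ^ 2) / rq p with hθ
  have hθ3 : |θ| ≤ 3 := by
    rw [hθ, abs_div, abs_of_pos hq, div_le_iff₀ hq, abs_le]
    have e6 : rq p = p.1 ^ 2 + p.2 ^ 2 := rfl
    constructor <;> nlinarith [sq_nonneg p.1, sq_nonneg p.2]
  have e1 : p.1 * R1 p = X := by rw [hX]; unfold R1; ring
  have e2 : p.1 * R3 p = X * θ := by rw [hX, hθ]; unfold R3; field_simp
  set i := 1 / ss p with hi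
  have hi0 : 0 < i := by positivity
  have hi1 : i ≤ 1 / 20 := one_div_le_one_div_of_le (by norm_num) hs
  have e3 : -(p.1 * -(aa p * (R1 p + is6 p * R3 p - R3 p / (6 * ss p ^ 2) -
      2 / 3 / ss p * (R1 p + is6 p * R3 p)))) =
      aa p * X * (1 + θ * i / 6 - θ * i ^ 2 / 6 - 2 / 3 * i * (1 + θ * i / 6)) := by
    have : -(p.1 * -(aa p * (R1 p + is6 p * R3 p - R3 p / (6 * ss p ^ 2) -
      2 / 3 / ss p * (R1 p + is6 p * R3 p)))) =
      aa p * ((p.1 * R1 p) + is6 p * (p.1 * R3 p) - (p.1 * R3 p) / (6 * ss p ^ 2) -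
      2 / 3 / ss p * ((p.1 * R1 p) + is6 p * (p.1 * R3 p))) := by ring
    rw [this, e1, e2, hi]
    unfold is6
    field_simp
  rw [e3]
  have e4 : 1 / 2 ≤ 1 + θ * i / 6 - θ * i ^ 2 / 6 - 2 / 3 * i * (1 + θ * i / 6) := by
    rw [abs_le] at hθ3
    have h1 : -3 * i ≤ θ * i := mul_le_mul_of_nonneg_right hθ3.1 hi0.le
    have h2 : θ * i ≤ 3 * i := mul_le_mul_of_nonneg_right hθ3.2 hi0.le
    have h3 : θ * i ^ 2 ≤ 3 * i ^ 2 := mul_le_mul_of_nonneg_right hθ3.2 (by positivity)
    nlinarith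
  have h5 : 0 ≤ aa p * X := by positivity
  nlinarith

theorem aa_lower {c : ℝ} (hc : 1 ≤ c) (hp : p ≠ 0) (h1 : 1 ≤ c ^ 2 * rq p) (h : rq p ≤ 1) :
    (20 + Real.log c) ^ (-2 / 3 : ℝ) ≤ aa p := by
  have hq := rq_pos hp
  unfold aa
  refine Real.rpow_le_rpow_of_nonpos (ss_pos h) ?_ (by norm_num)
  have h2 : Real.log 1 ≤ Real.log (c ^ 2 * rq p) := Real.log_le_log one_pos h1
  rw [Real.log_one, Real.log_mul (by positivity) hq.ne', Real.log_pow] at h2
  push_cast at h2
  unfold ss
  linarith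

theorem ss_lower {c : ℝ} (hc : 1 ≤ c) (hp : p ≠ 0) (h1 : c ^ 2 * rq p ≤ 4) :
    18 + Real.log c ≤ ss p := by
  have hq := rq_pos hp
  have h2 : Real.log (c ^ 2 * rq p) ≤ Real.log 4 := Real.log_le_log (by positivity) h1
  rw [Real.log_mul (by positivity) hq.ne', Real.log_pow] at h2
  have h3 : Real.log 4 ≤ 3 := by
    have := Real.log_le_sub_one_of_pos (x := 4) (by norm_num)
    linarith
  push_cast at h2
  unfold ss
  linarith

/-- the rectangle on which the test field is large -/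
def rect (c : ℝ) : Set (ℝ × ℝ) := Icc (1.2 / c) (1.3 / c) ×ˢ Icc (0.9 / c) (1 / c)

theorem rect_facts {c : ℝ} (hc : 0 < c) (hp : p ∈ rect c) :
    2 ≤ c ^ 2 * rq p ∧ c ^ 2 * rq p ≤ 3 ∧ 1 / 2 ≤ p.1 ^ 2 / rq p := by
  obtain ⟨⟨h1, h2⟩, h3, h4⟩ := hp
  rw [div_le_iff₀ hc] at h1 h3
  rw [le_div_iff₀ hc] at h2 h4
  have e6 : rq p = p.1 ^ 2 + p.2 ^ 2 := rfl
  have e1 : c ^ 2 * rq p = (p.1 * c) ^ 2 + (p.2 * c) ^ 2 := by rw [e6]; ring
  have a1 : 1.2 ^ 2 ≤ (p.1 * c) ^ 2 := pow_le_pow_left₀ (by norm_num) h1 2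
  have a2 : (p.1 * c) ^ 2 ≤ 1.3 ^ 2 := pow_le_pow_left₀ (by linarith) h2 2
  have a3 : 0.9 ^ 2 ≤ (p.2 * c) ^ 2 := pow_le_pow_left₀ (by norm_num) h3 2
  have a4 : (p.2 * c) ^ 2 ≤ 1 := by
    have := pow_le_pow_left₀ (by linarith) h4 2
    rwa [one_pow] at this
  have b1 : 2 ≤ c ^ 2 * rq p := by rw [e1]; norm_num at a1 a3 ⊢; linarith
  have b2 : c ^ 2 * rq p ≤ 3 := by rw [e1]; norm_num at a2 ⊢; linarith
  refine ⟨b1, b2, ?_⟩
  have hq : 0 < rq p := by
    have : 0 < c ^ 2 * rq p := by linarith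
    exact pos_of_mul_pos_right this (by positivity)
  rw [le_div_iff₀ hq]
  have : 1 / 2 * (c ^ 2 * rq p) ≤ (p.1 * c) ^ 2 := by norm_num at a1; linarith
  have h5 : c ^ 2 * (1 / 2 * rq p) ≤ c ^ 2 * p.1 ^ 2 := by nlinarith
  exact le_of_mul_le_mul_left h5 (by positivity)

theorem volume_rect {c : ℝ} (hc : 0 < c) :
    (volume : Measure (ℝ × ℝ)).real (rect c) = 0.01 / c ^ 2 := by
  unfold rect
  rw [Measure.volume_eq_prod, measureReal_prod_prod, Real.volume_real_Icc_of_le (by
    rw [div_le_div_iff_of_pos_right hc]; norm_num), Real.volume_real_Icc_of_le (by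
    rw [div_le_div_iff_of_pos_right hc]; norm_num)]
  field_simp
  norm_num

theorem rect_subset_cell {c : ℝ} (hc : 8 ≤ c) : rect c ⊆ cell := by
  rintro p ⟨⟨h1, h2⟩, h3, h4⟩
  have hc0 : 0 < c := by linarith
  have k1 : 1.3 / c ≤ 1.3 / 8 := div_le_div_of_nonneg_left (by norm_num) (by norm_num) hc
  have k2 : 1 / c ≤ 1 / 8 := div_le_div_of_nonneg_left (by norm_num) (by norm_num) hc
  have k3 : 0 < 1.2 / c := by positivity
  have k4 : 0 < 0.9 / c := by positivity
  norm_num at k1
  refine ⟨⟨?_, ?_⟩, ?_, ?_⟩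
  · linarith
  · norm_num; linarith
  · linarith
  · norm_num; linarith

/-- the lower bound for the singular part -/
theorem lower_w0 {c : ℝ} (hc : 9 ≤ c) : 1 / 400 * c * (20 + Real.log c) ^ (-2 / 3 : ℝ) ≤
    ∫ p in cell, w0 p * (dx (sc c P1) p + dy (sc c P2) p) := by
  have hc0 : 0 < c := by linarith
  have z1 : ∀ p, 4 ≤ rq p → P1 p = 0 := fun p hp => by unfold P1; rw [ze_zero_right hp, zero_mul]
  have z2 : ∀ p, 4 ≤ rq p → P2 p = 0 := fun p hp => by unfold P2; rw [ze_zero_right hp, zero_mul]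
  have s1 := cd_sc c cd_P1
  have s2 := cd_sc c cd_P2
  have hev : ∀ᶠ p in 𝓝 (0 : ℝ × ℝ), rq (c • p) < 1 := by
    have h2 : Continuous fun p : ℝ × ℝ => rq (c • p) :=
      cd_rq.continuous.comp (continuous_const_smul c)
    refine h2.continuousAt.eventually (gt_mem_nhds ?_)
    simp [rq]
  have n1 : sc c P1 =ᶠ[𝓝 0] 0 := by
    filter_upwards [hev] with p hp
    unfold sc P1
    rw [ze_zero_left hp.le]; simp
  have n2 : sc c P2 =ᶠ[𝓝 0] 0 := by
    filter_upwards [hev] with p hp
    unfold sc P2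
    rw [ze_zero_left hp.le]; simp
  have c1 : Cpt fun p => w0 p * sc c P1 p :=
    cpt_mul (fun _ hp => cd_w0 hp) (fun _ hq => w0_zero hq) s1 n1
  have c2 : Cpt fun p => w0 p * sc c P2 p :=
    cpt_mul (fun _ hp => cd_w0 hp) (fun _ hq => w0_zero hq) s2 n2
  have e1 : ∫ p in cell, w0 p * (dx (sc c P1) p + dy (sc c P2) p) =
      ∫ p in cell, (-(sc c P1 p * dx w0 p + sc c P2 p * dy w0 p) +
        (dx (fun p => w0 p * sc c P1 p) p + dy (fun p => w0 p * sc c P2 p) p)) := by
    refine integral_congr_ae ?_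
    filter_upwards [ae_ne_zero] with p hp
    rw [dx_mul (cd_diff (cd_w0 hp)) (cd_diff s1.contDiffAt),
      dy_mul (cd_diff (cd_w0 hp)) (cd_diff s2.contDiffAt)]
    ring
  have i1 : IntegrableOn (dx fun p => w0 p * sc c P1 p) cell :=
    integrableOn_cell (cdx c1.smooth).continuous
  have i2 : IntegrableOn (dy fun p => w0 p * sc c P2 p) cell :=
    integrableOn_cell (cdy c2.smooth).continuous
  have hcont : Continuous fun p => -(sc c P1 p * dx w0 p + sc c P2 p * dy w0 p) := by
    have k1 := (smooth_mul_of_vanish (fun p hp => cd_dx (cd_w0 (p := p) hp)) s1 n1).continuous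
    have k2 := (smooth_mul_of_vanish (fun p hp => cd_dy (cd_w0 (p := p) hp)) s2 n2).continuous
    refine ((k1.add k2).neg).congr fun p => ?_
    simp only [Pi.neg_apply, Pi.add_apply]
    ring
  have i3 := integrableOn_cell hcont
  have i12 : IntegrableOn (fun p => dx (fun p => w0 p * sc c P1 p) p +
    dy (fun p => w0 p * sc c P2 p) p) cell := i1.add i2
  rw [e1, integral_add i3 i12, integral_add i1 i2, c1.integral_dx, c2.integral_dy, add_zero,
    add_zero]
  -- pointwise
  have hpt : ∀ p ≠ 0, rq p ≤ 1 / 2 →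
      c ^ 3 * ze (c ^ 2 * rq p) * (aa p * (p.1 ^ 2 / rq p) / 2) ≤
        -(sc c P1 p * dx w0 p + sc c P2 p * dy w0 p) := by
    intro p hp hle
    have e2 : -(sc c P1 p * dx w0 p + sc c P2 p * dy w0 p) =
        c ^ 3 * ze (c ^ 2 * rq p) * -(p.1 * (p.1 * dx w0 p + p.2 * dy w0 p)) := by
      unfold sc P1 P2
      rw [rq_smul]
      simp only [Prod.smul_fst, Prod.smul_snd, smul_eq_mul]
      ring
    rw [e2]
    have hz := ze_nonneg (c ^ 2 * rq p)
    by_cases h4 : 4 ≤ c ^ 2 * rq p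
    · rw [ze_zero_right h4]; simp
    · push Not at h4
      have h5 : rq p < 1 / 16 := by
        have : 81 ≤ c ^ 2 := by nlinarith
        have hq := rq_pos hp
        nlinarith
      rw [dx_congr (w0_ev h5), dy_congr (w0_ev h5)]
      exact mul_le_mul_of_nonneg_left (radial_lower hp (by linarith)) (by positivity)
  have hnn : ∀ p ≠ 0, rq p ≤ 1 / 2 → 0 ≤ -(sc c P1 p * dx w0 p + sc c P2 p * dy w0 p) := by
    intro p hp hle
    refine le_trans ?_ (hpt p hp hle)
    have := ze_nonneg (c ^ 2 * rq p)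
    have := aa_pos (ss_pos (p := p) (by linarith))
    have := rq_pos hp
    positivity
  set m : ℝ := (20 + Real.log c) ^ (-2 / 3 : ℝ) with hm
  have hlog : 0 ≤ Real.log c := Real.log_nonneg (by linarith)
  have hm0 : 0 ≤ m := Real.rpow_nonneg (by linarith) _
  have hrect : ∀ p ∈ rect c, 1 / 4 * c ^ 3 * m ≤ -(sc c P1 p * dx w0 p + sc c P2 p * dy w0 p) := by
    intro p hp
    obtain ⟨h1, h2, h3⟩ := rect_facts hc0 hp
    have hpcell := rect_subset_cell (by linarith : 8 ≤ c) hp
    have hle := rq_le_of_cell hpcell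
    have hp0 : p ≠ 0 := by
      rintro rfl
      have : rq (0 : ℝ × ℝ) = 0 := by simp [rq]
      rw [this] at h1; norm_num at h1
    refine le_trans ?_ (hpt p hp0 hle)
    rw [ze_one h1 h2, mul_one]
    have h4 := aa_lower (by linarith : 1 ≤ c) hp0 (by linarith) (by linarith : rq p ≤ 1)
    have h5 : m * (1 / 2) ≤ aa p * (p.1 ^ 2 / rq p) :=
      mul_le_mul h4 h3 (by norm_num) (hm0.trans h4)
    have h6 : 0 < c ^ 3 := by positivity
    nlinarith
  have hmeas : MeasurableSet (rect c) := measurableSet_Icc.prod measurableSet_Icc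
  calc 1 / 400 * c * m = ∫ p in rect c, 1 / 4 * c ^ 3 * m := by
        rw [setIntegral_const, volume_rect hc0, smul_eq_mul]
        field_simp
        norm_num
        try ring
    _ ≤ ∫ p in rect c, -(sc c P1 p * dx w0 p + sc c P2 p * dy w0 p) := by
        refine setIntegral_mono_on ?_ ?_ hmeas hrect
        · exact integrableOn_const (isCompact_Icc.prod isCompact_Icc).measure_lt_top.ne
        · exact i3.mono_set (rect_subset_cell (by linarith))
    _ ≤ ∫ p in cell, -(sc c P1 p * dx w0 p + sc c P2 p * dy w0 p) := by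
        refine setIntegral_mono_set i3 ?_ (Eventually.of_forall (rect_subset_cell (by linarith)))
        filter_upwards [ae_ne_zero, ae_mem_cell] with p hp hcell
        exact hnn p hp (rq_le_of_cell hcell)

theorem sc_bound {M : ℝ} {c : ℝ} (hc : 0 < c) (hb : ∀ p, |f p| ≤ M) (h0 : ∀ p, 4 ≤ rq p → f p = 0)
    (p : ℝ × ℝ) : sc c f p ^ 2 ≤ (Bc (c / 2)).indicator (fun _ => c ^ 2 * M ^ 2) p := by
  by_cases hp : p ∈ Bc (c / 2)
  · rw [Set.indicator_of_mem hp]
    unfold sc
    rw [mul_pow]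
    refine mul_le_mul_of_nonneg_left ?_ (sq_nonneg _)
    rw [← sq_abs]
    exact pow_le_pow_left₀ (abs_nonneg _) (hb _) 2
  · rw [Set.indicator_of_notMem hp]
    have h1 : 2 < (c / 2) ^ 2 * rq p := not_le.mp hp
    unfold sc
    rw [h0 (c • p) (by rw [rq_smul]; nlinarith)]
    simp

/-- **The solution is not in `H¹`.** -/
theorem not_weakGrad (hH : MemLp H 2 mc) (g₁ g₂ : ℝ × ℝ → ℝ) :
    ¬ WeakGrad (fun p => w0 p + H p / ss p) g₁ g₂ := by
  intro hg
  obtain ⟨M, hM0, hM⟩ := exists_P_bound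
  have z1 : ∀ p, 4 ≤ rq p → P1 p = 0 := fun p hp => by unfold P1; rw [ze_zero_right hp, zero_mul]
  have z2 : ∀ p, 4 ≤ rq p → P2 p = 0 := fun p hp => by unfold P2; rw [ze_zero_right hp, zero_mul]
  set G : ℝ := (∫ p in cell, g₁ p ^ 2) + (∫ p in cell, g₂ p ^ 2) + 128 * M ^ 2 with hG
  set V : ℝ := (∫ p in cell, H p ^ 2) + 64 * M ^ 2 with hV
  have hG0 : 0 ≤ G := by
    have h1 : 0 ≤ ∫ p in cell, g₁ p ^ 2 := integral_nonneg fun p => sq_nonneg _
    have h2 : 0 ≤ ∫ p in cell, g₂ p ^ 2 := integral_nonneg fun p => sq_nonneg _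
    positivity
  have hV0 : 0 ≤ V := by
    have h1 : 0 ≤ ∫ p in cell, H p ^ 2 := integral_nonneg fun p => sq_nonneg _
    positivity
  have hcellfin : IsFiniteMeasure mc := ⟨by
    rw [Measure.restrict_apply_univ]; exact volume_cell_lt_top⟩
  have key : ∀ c : ℝ, 9 ≤ c → 1 / 400 * c * (20 + Real.log c) ^ (-2 / 3 : ℝ) ≤
      G + c / (18 + Real.log c) * V := by
    intro c hc
    have hc0 : 0 < c := by linarith
    have hlog : 0 ≤ Real.log c := Real.log_nonneg (by linarith)
    have hB0 : 0 < c / 2 := by linarith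
    have C1 := cpt_sc (by linarith : 8 ≤ c) cd_P1 z1
    have C2 := cpt_sc (by linarith : 8 ≤ c) cd_P2 z2
    have l1 := lower_w0 hc
    have w1 := hg.cpt₁ C1
    have w2 := hg.cpt₂ C2
    -- integrability
    have m1 := memLp_of_cont (cdx C1.smooth).continuous
    have m2 := memLp_of_cont (cdy C2.smooth).continuous
    have m12 : MemLp (fun p => dx (sc c P1) p + dy (sc c P2) p) 2 mc := m1.add m2
    have mu := memLp_u hH
    have mv := memLp_div_ss hH
    have e1 : ∫ p in cell, (w0 p + H p / ss p) * (dx (sc c P1) p + dy (sc c P2) p) =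
        -(∫ p in cell, g₁ p * sc c P1 p) - ∫ p in cell, g₂ p * sc c P2 p := by
      have k1 : Integrable (fun p => (w0 p + H p / ss p) * dx (sc c P1) p) mc :=
        mu.integrable_mul m1
      have k2 : Integrable (fun p => (w0 p + H p / ss p) * dy (sc c P2) p) mc :=
        mu.integrable_mul m2
      have : ∫ p in cell, (w0 p + H p / ss p) * (dx (sc c P1) p + dy (sc c P2) p) =
          ∫ p in cell, ((w0 p + H p / ss p) * dx (sc c P1) p +
            (w0 p + H p / ss p) * dy (sc c P2) p) :=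
        integral_congr_ae (Eventually.of_forall fun p => by simp only; ring)
      rw [this, integral_add k1 k2, w1, w2]; ring
    have e2 : ∫ p in cell, (w0 p + H p / ss p) * (dx (sc c P1) p + dy (sc c P2) p) =
        (∫ p in cell, w0 p * (dx (sc c P1) p + dy (sc c P2) p)) +
          ∫ p in cell, H p / ss p * (dx (sc c P1) p + dy (sc c P2) p) := by
      have k1 : Integrable (fun p => w0 p * (dx (sc c P1) p + dy (sc c P2) p)) mc :=
        memLp_w0.integrable_mul m12
      have k2 : Integrable (fun p => H p / ss p * (dx (sc c P1) p + dy (sc c P2) p)) mc :=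
        mv.integrable_mul m12
      rw [← integral_add k1 k2]
      exact integral_congr_ae (Eventually.of_forall fun p => by simp only; ring)
    -- bounds of the gradient terms
    have gb : ∀ {g f : ℝ × ℝ → ℝ}, MemLp g 2 mc → ContDiff ℝ ∞ f → (∀ p, |f p| ≤ M) →
        (∀ p, 4 ≤ rq p → f p = 0) →
        |∫ p in cell, g p * sc c f p| ≤ (∫ p in cell, g p ^ 2) + 64 * M ^ 2 := by
      intro g f hgm hf hfM hf0
      have mf := memLp_of_cont (cd_sc c hf).continuous
      have k1 : Integrable (fun p => g p * sc c f p) mc := hgm.integrable_mul mf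
      have k2 : Integrable (fun p => (Bc (c / 2)).indicator (fun _ => c ^ 2 * M ^ 2) p) mc :=
        (integrable_const _).indicator (measurableSet_Bc _)
      calc |∫ p in cell, g p * sc c f p| ≤ ∫ p in cell, |g p * sc c f p| :=
            abs_integral_le_integral_abs
        _ ≤ ∫ p in cell, (g p ^ 2 + (Bc (c / 2)).indicator (fun _ => c ^ 2 * M ^ 2) p) := by
            refine integral_mono_ae k1.abs (hgm.integrable_sq.add k2)
              (Eventually.of_forall fun p => ?_)
            have h1 := abs_mul_le_delta (a := g p) (b := sc c f p) one_pos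
            rw [inv_one, one_mul, one_mul] at h1
            exact h1.trans (add_le_add le_rfl (sc_bound hc0 hfM hf0 p))
        _ = (∫ p in cell, g p ^ 2) +
              ∫ p in cell, (Bc (c / 2)).indicator (fun _ => c ^ 2 * M ^ 2) p :=
            integral_add hgm.integrable_sq k2
        _ ≤ _ := by
            refine add_le_add le_rfl ?_
            refine (integral_Bc_const hB0 (by positivity)).trans (le_of_eq ?_)
            field_simp
            ring
    have g1 := gb hg.mem₁ cd_P1 (fun p => (hM p).1) z1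
    have g2 := gb hg.mem₂ cd_P2 (fun p => (hM p).2.1) z2
    -- bound of the regular part
    set σ : ℝ := 18 + Real.log c with hσ
    have hσ0 : 0 < σ := by rw [hσ]; linarith
    have hv : |∫ p in cell, H p / ss p * (dx (sc c P1) p + dy (sc c P2) p)| ≤ c / σ * V := by
      have k1 : Integrable (fun p => H p / ss p * (dx (sc c P1) p + dy (sc c P2) p)) mc :=
        mv.integrable_mul m12
      have k2 : Integrable (fun p => (Bc (c / 2)).indicator (fun _ => c ^ 4 * M ^ 2 / σ ^ 2) p) mc :=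
        (integrable_const _).indicator (measurableSet_Bc _)
      have hδ : 0 < σ / c := by positivity
      have hpt : ∀ p ≠ 0, |H p / ss p * (dx (sc c P1) p + dy (sc c P2) p)| ≤
          (σ / c)⁻¹ * H p ^ 2 + σ / c * (Bc (c / 2)).indicator (fun _ => c ^ 4 * M ^ 2 / σ ^ 2) p := by
        intro p hp
        have hq := rq_pos hp
        have hnn : 0 ≤ (Bc (c / 2)).indicator (fun _ => c ^ 4 * M ^ 2 / σ ^ 2) p :=
          Set.indicator_nonneg (fun _ _ => by positivity) p
        have e3 : dx (sc c P1) p + dy (sc c P2) p = c ^ 2 * (dx P1 (c • p) + dy P2 (c • p)) := by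
          rw [dx_sc c cd_P1, dy_sc c cd_P2]; ring
        by_cases h4 : c ^ 2 * rq p ≤ 4
        · have hs := ss_lower (by linarith : 1 ≤ c) hp h4
          have hs0 : 0 < ss p := lt_of_lt_of_le hσ0 hs
          have hmem : p ∈ Bc (c / 2) := by
            show (c / 2) ^ 2 * rq p ≤ 2
            nlinarith
          rw [Set.indicator_of_mem hmem]
          have e4 : H p / ss p * (dx (sc c P1) p + dy (sc c P2) p) =
              H p * ((dx (sc c P1) p + dy (sc c P2) p) / ss p) := by ring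
          rw [e4]
          refine (abs_mul_le_delta hδ).trans (add_le_add le_rfl
            (mul_le_mul_of_nonneg_left ?_ hδ.le))
          rw [div_pow, e3, mul_pow]
          have h5 : (dx P1 (c • p) + dy P2 (c • p)) ^ 2 ≤ M ^ 2 := by
            rw [← sq_abs]; exact pow_le_pow_left₀ (abs_nonneg _) (hM _).2.2 2
          have h6 : σ ^ 2 ≤ ss p ^ 2 := pow_le_pow_left₀ hσ0.le hs 2
          have e5 : (c ^ 2) ^ 2 = c ^ 4 := by ring
          rw [e5]
          exact div_le_div₀ (by positivity) (mul_le_mul_of_nonneg_left h5 (by positivity))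
            (by positivity) h6
        · push Not at h4
          have h5 : dx (sc c P1) p + dy (sc c P2) p = 0 := by
            have hc' : Continuous fun q : ℝ × ℝ => c ^ 2 * rq q :=
              cd_rq.continuous.const_smul (c ^ 2)
            have hev := hc'.continuousAt.eventually (lt_mem_nhds h4)
            have k3 : sc c P1 =ᶠ[𝓝 p] fun _ => 0 := by
              filter_upwards [hev] with q hq
              unfold sc
              rw [z1 _ (by rw [rq_smul]; exact hq.le), mul_zero]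
            have k4 : sc c P2 =ᶠ[𝓝 p] fun _ => 0 := by
              filter_upwards [hev] with q hq
              unfold sc
              rw [z2 _ (by rw [rq_smul]; exact hq.le), mul_zero]
            rw [dx_congr k3, dy_congr k4]
            unfold dx dy; simp
          rw [h5, mul_zero, abs_zero]
          positivity
      calc |∫ p in cell, H p / ss p * (dx (sc c P1) p + dy (sc c P2) p)| ≤
            ∫ p in cell, |H p / ss p * (dx (sc c P1) p + dy (sc c P2) p)| :=
            abs_integral_le_integral_abs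
        _ ≤ ∫ p in cell, ((σ / c)⁻¹ * H p ^ 2 +
              σ / c * (Bc (c / 2)).indicator (fun _ => c ^ 4 * M ^ 2 / σ ^ 2) p) := by
            refine integral_mono_ae k1.abs ((hH.integrable_sq.const_mul _).add (k2.const_mul _)) ?_
            filter_upwards [ae_ne_zero] with p hp using hpt p hp
        _ = (σ / c)⁻¹ * (∫ p in cell, H p ^ 2) +
              σ / c * ∫ p in cell, (Bc (c / 2)).indicator (fun _ => c ^ 4 * M ^ 2 / σ ^ 2) p := by
            rw [integral_add (hH.integrable_sq.const_mul _) (k2.const_mul _), integral_const_mul,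
              integral_const_mul]
        _ ≤ (σ / c)⁻¹ * (∫ p in cell, H p ^ 2) +
              σ / c * (16 / (c / 2) ^ 2 * (c ^ 4 * M ^ 2 / σ ^ 2)) :=
            add_le_add le_rfl (mul_le_mul_of_nonneg_left
              (integral_Bc_const hB0 (by positivity)) hδ.le)
        _ = c / σ * V := by
            rw [hV]; field_simp; ring
    rw [e2] at e1
    rw [abs_le] at g1 g2 hv
    rw [hG]
    linarith [g1.1, g1.2, g2.1, g2.2, hv.1, hv.2]
  -- contradiction for large `c = exp L`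
  have key2 : ∀ L : ℝ, 3 ≤ L → 1 / 400 * (18 + L) * (20 + L) ^ (-2 / 3 : ℝ) ≤ 18 * G + V := by
    intro L hL
    have hc : 9 ≤ Real.exp L := by
      have h1 : 2.7 ≤ Real.exp 1 := by linarith [Real.exp_one_gt_d9]
      have h2 : Real.exp 3 ≤ Real.exp L := Real.exp_le_exp.mpr hL
      have h3 : Real.exp 3 = Real.exp 1 ^ 3 := by rw [← Real.exp_nat_mul]; norm_num
      have h4 : (2.7 : ℝ) ^ 3 ≤ Real.exp 1 ^ 3 := pow_le_pow_left₀ (by norm_num) h1 3
      norm_num at h4
      linarith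
    have hk := key _ hc
    rw [Real.log_exp] at hk
    set c := Real.exp L with hcdef
    have hc0 : 0 < c := Real.exp_pos L
    have h1 : 18 + L ≤ 18 * c := by
      have := Real.add_one_le_exp L
      rw [← hcdef] at this
      linarith
    have h18 : 0 < 18 + L := by linarith
    have h2 := mul_le_mul_of_nonneg_left hk (by positivity : 0 ≤ (18 + L) / c)
    have e1 : (18 + L) / c * (1 / 400 * c * (20 + L) ^ (-2 / 3 : ℝ)) =
        1 / 400 * (18 + L) * (20 + L) ^ (-2 / 3 : ℝ) := by field_simp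
    have e2 : (18 + L) / c * (G + c / (18 + L) * V) = (18 + L) / c * G + V := by field_simp
    rw [e1, e2] at h2
    have h3 : (18 + L) / c * G ≤ 18 * G := by
      refine mul_le_mul_of_nonneg_right ?_ hG0
      rw [div_le_iff₀ hc0]; exact h1
    linarith
  have key3 : ∀ L : ℝ, 3 ≤ L → 1 / 800 * (20 + L) ^ (1 / 3 : ℝ) ≤ 18 * G + V := by
    intro L hL
    refine le_trans ?_ (key2 L hL)
    have h20 : 0 < 20 + L := by linarith
    have e1 : (20 + L) ^ (1 / 3 : ℝ) = (20 + L) * (20 + L) ^ (-2 / 3 : ℝ) := by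
      have : (20 + L) * (20 + L) ^ (-2 / 3 : ℝ) = (20 + L) ^ (1 : ℝ) * (20 + L) ^ (-2 / 3 : ℝ) := by
        rw [Real.rpow_one]
      rw [this, ← Real.rpow_add h20]
      norm_num
    rw [e1]
    have h1 : 0 ≤ (20 + L) ^ (-2 / 3 : ℝ) := Real.rpow_nonneg h20.le _
    nlinarith
  have h4 : Tendsto (fun L : ℝ => 1 / 800 * (20 + L) ^ (1 / 3 : ℝ)) atTop atTop := by
    refine Tendsto.const_mul_atTop (by norm_num) ?_
    exact (tendsto_rpow_atTop (by norm_num)).comp (tendsto_atTop_add_const_left _ _ tendsto_id)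
  obtain ⟨L, hL1, hL2⟩ := ((h4.eventually_gt_atTop (18 * G + V)).and
    (eventually_ge_atTop (3 : ℝ))).exists
  exact absurd (key3 L hL2) (not_le.mpr hL1)

end Pool.Agent.Helper54.AD
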