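import Pool.Agent.Helper54.AD.Calc

/-!
# The explicit profiles near the singular point
-/

open Set MeasureTheory Filter Topology
open scoped ContDiff

noncomputable section

namespace Pool.Agent.Helper54.AD

/-- `r²` -/
def rq (p : ℝ × ℝ) : ℝ := p.1 ^ 2 + p.2 ^ 2

/-- `s = 20 - log r` -/
def ss (p : ℝ × ℝ) : ℝ := 20 - Real.log (rq p) / 2

/-- the cutoff, equal to `1` for `r² ≤ 1/16` and to `0` for `r² ≥ 1/8`. -/
def cut (p : ℝ × ℝ) : ℝ := Real.smoothTransition (2 - 16 * rq p)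

/-- `s^(-2/3)` -/
def aa (p : ℝ × ℝ) : ℝ := ss p ^ (-2 / 3 : ℝ)

/-- the stream function near the origin -/
def psi0 (p : ℝ × ℝ) : ℝ := 8 / 3 * p.1 * p.2 / (ss p * rq p)

/-- the weight near the origin -/
def sig0 (p : ℝ × ℝ) : ℝ := 1 / (rq p * ss p ^ 3)

/-- `cos θ / r` -/
def R1 (p : ℝ × ℝ) : ℝ := p.1 / rq p

/-- `cos 3θ / r` -/
def R3 (p : ℝ × ℝ) : ℝ := (p.1 ^ 3 - 3 * p.1 * p.2 ^ 2) / rq p ^ 2

/-- `1 / (6 s)` -/
def is6 (p : ℝ × ℝ) : ℝ := 1 / (6 * ss p)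

/-- the singular solution near the origin -/
def w00 (p : ℝ × ℝ) : ℝ := aa p * (R1 p + is6 p * R3 p)

variable {p : ℝ × ℝ}

theorem rq_pos (hp : p ≠ 0) : 0 < rq p := by
  unfold rq
  by_contra h
  apply hp
  have h1 := sq_nonneg p.1
  have h2 := sq_nonneg p.2
  have e1 : p.1 = 0 := by nlinarith
  have e2 : p.2 = 0 := by nlinarith
  exact Prod.ext e1 e2

theorem rq_nonneg (p : ℝ × ℝ) : 0 ≤ rq p := by unfold rq; positivity

theorem cd_rq : ContDiff ℝ ∞ rq := by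
  unfold rq; fun_prop

theorem cd_ss (hp : p ≠ 0) : ContDiffAt ℝ ∞ ss p := by
  unfold ss
  exact contDiffAt_const.sub ((cd_rq.contDiffAt.log (rq_pos hp).ne').div_const 2)

theorem cd_cut : ContDiff ℝ ∞ cut := by
  unfold cut
  exact Real.smoothTransition.contDiff.comp (contDiff_const.sub (contDiff_const.mul cd_rq))

theorem cut_nonneg (p : ℝ × ℝ) : 0 ≤ cut p := Real.smoothTransition.nonneg _

theorem cut_le_one (p : ℝ × ℝ) : cut p ≤ 1 := Real.smoothTransition.le_one _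

theorem cut_eq_one (h : rq p ≤ 1 / 16) : cut p = 1 :=
  Real.smoothTransition.one_of_one_le (by linarith)

theorem cut_eq_zero (h : 1 / 8 ≤ rq p) : cut p = 0 :=
  Real.smoothTransition.zero_of_nonpos (by linarith)

theorem ss_ge (h : rq p ≤ 1) : 20 ≤ ss p := by
  unfold ss
  have := Real.log_nonpos (rq_nonneg p) h
  linarith

theorem hd_rq_x (p : ℝ × ℝ) : HasDerivAt (fun t => rq (t, p.2)) (2 * p.1) p.1 := by
  unfold rq
  simpa using (hasDerivAt_pow 2 p.1).add_const (p.2 ^ 2)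

theorem hd_rq_y (p : ℝ × ℝ) : HasDerivAt (fun t => rq (p.1, t)) (2 * p.2) p.2 := by
  unfold rq
  simpa using (hasDerivAt_pow 2 p.2).const_add (p.1 ^ 2)

theorem hd_ss_x (hp : p ≠ 0) : HasDerivAt (fun t => ss (t, p.2)) (-p.1 / rq p) p.1 := by
  have h0 := (rq_pos hp).ne'
  have h1 := ((hd_rq_x p).log h0).div_const 2
  have h2 := h1.const_sub 20
  refine h2.congr_deriv ?_
  show -(2 * p.1 / rq p / 2) = -p.1 / rq p
  field_simp

theorem hd_ss_y (hp : p ≠ 0) : HasDerivAt (fun t => ss (p.1, t)) (-p.2 / rq p) p.2 := by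
  have h0 := (rq_pos hp).ne'
  have h1 := ((hd_rq_y p).log h0).div_const 2
  have h2 := h1.const_sub 20
  refine h2.congr_deriv ?_
  show -(2 * p.2 / rq p / 2) = -p.2 / rq p
  field_simp

theorem dx_rq (p : ℝ × ℝ) : dx rq p = 2 * p.1 :=
  dx_of_hasDerivAt (cd_diff cd_rq.contDiffAt) (hd_rq_x p)

theorem dy_rq (p : ℝ × ℝ) : dy rq p = 2 * p.2 :=
  dy_of_hasDerivAt (cd_diff cd_rq.contDiffAt) (hd_rq_y p)

theorem dx_ss (hp : p ≠ 0) : dx ss p = -p.1 / rq p :=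
  dx_of_hasDerivAt (cd_diff (cd_ss hp)) (hd_ss_x hp)

theorem dy_ss (hp : p ≠ 0) : dy ss p = -p.2 / rq p :=
  dy_of_hasDerivAt (cd_diff (cd_ss hp)) (hd_ss_y hp)

/-- nearby points of a nonzero point are nonzero -/
theorem ev_ne (hp : p ≠ 0) : ∀ᶠ q in 𝓝 p, q ≠ 0 := isOpen_ne.mem_nhds hp

/-- functions of `s` -/
theorem dx_comp_ss {F : ℝ → ℝ} {F' : ℝ} (hp : p ≠ 0) (hF : HasDerivAt F F' (ss p)) :
    HasDerivAt (fun t => F (ss (t, p.2))) (F' * (-p.1 / rq p)) p.1 :=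
  HasDerivAt.comp p.1 (h₂ := F) hF (hd_ss_x hp)

theorem dy_comp_ss {F : ℝ → ℝ} {F' : ℝ} (hp : p ≠ 0) (hF : HasDerivAt F F' (ss p)) :
    HasDerivAt (fun t => F (ss (p.1, t))) (F' * (-p.2 / rq p)) p.2 :=
  HasDerivAt.comp p.2 (h₂ := F) hF (hd_ss_y hp)

theorem cd_aa (hp : p ≠ 0) (hs : 0 < ss p) : ContDiffAt ℝ ∞ aa p := by
  unfold aa
  exact (cd_ss hp).rpow_const_of_ne hs.ne'

theorem aa_pos (hs : 0 < ss p) : 0 < aa p := Real.rpow_pos_of_pos hs _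

theorem hd_rpow {s : ℝ} (hs : 0 < s) :
    HasDerivAt (fun s : ℝ => s ^ (-2 / 3 : ℝ)) (-(2 / 3) * s ^ (-2 / 3 : ℝ) / s) s := by
  have h := Real.hasDerivAt_rpow_const (x := s) (p := (-2 / 3 : ℝ)) (Or.inl hs.ne')
  convert h using 1
  rw [Real.rpow_sub_one hs.ne']
  ring

theorem dx_aa (hp : p ≠ 0) (hs : 0 < ss p) : dx aa p = 2 / 3 * aa p * p.1 / (ss p * rq p) := by
  have h := dx_comp_ss hp (hd_rpow hs)
  rw [dx_of_hasDerivAt (cd_diff (cd_aa hp hs)) h]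
  have h1 := (rq_pos hp).ne'
  have h2 := hs.ne'
  unfold aa
  field_simp

theorem dy_aa (hp : p ≠ 0) (hs : 0 < ss p) : dy aa p = 2 / 3 * aa p * p.2 / (ss p * rq p) := by
  have h := dy_comp_ss hp (hd_rpow hs)
  rw [dy_of_hasDerivAt (cd_diff (cd_aa hp hs)) h]
  have h1 := (rq_pos hp).ne'
  have h2 := hs.ne'
  unfold aa
  field_simp

theorem ev_good (hp : p ≠ 0) (hs : 0 < ss p) : ∀ᶠ q in 𝓝 p, q ≠ 0 ∧ 0 < ss q :=
  (ev_ne hp).and ((cd_ss hp).continuousAt.eventually (lt_mem_nhds hs))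

theorem lap_aa (hp : p ≠ 0) (hs : 0 < ss p) : lap aa p = 10 / 9 * aa p / (ss p ^ 2 * rq p) := by
  have h1 := (rq_pos hp).ne'
  have h2 := hs.ne'
  have e1 : dx aa =ᶠ[𝓝 p] fun q => 2 / 3 * aa q * q.1 / (ss q * rq q) := by
    filter_upwards [ev_good hp hs] with q hq using dx_aa hq.1 hq.2
  have e2 : dy aa =ᶠ[𝓝 p] fun q => 2 / 3 * aa q * q.2 / (ss q * rq q) := by
    filter_upwards [ev_good hp hs] with q hq using dy_aa hq.1 hq.2
  unfold lap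
  rw [dx_congr e1, dy_congr e2]
  have cA := cd_aa hp hs
  have cS := cd_ss hp
  have cQ : ContDiffAt ℝ ∞ rq p := cd_rq.contDiffAt
  have hne : ss p * rq p ≠ 0 := mul_ne_zero h2 h1
  have c1 : ContDiffAt ℝ ∞ (fun q : ℝ × ℝ => 2 / 3 * aa q * q.1 / (ss q * rq q)) p :=
    ((contDiffAt_const.mul cA).mul contDiffAt_fst).div (cS.mul cQ) hne
  have c2 : ContDiffAt ℝ ∞ (fun q : ℝ × ℝ => 2 / 3 * aa q * q.2 / (ss q * rq q)) p :=
    ((contDiffAt_const.mul cA).mul contDiffAt_snd).div (cS.mul cQ) hne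
  have hAx : HasDerivAt (fun t => aa (t, p.2)) (2 / 3 * aa p * p.1 / (ss p * rq p)) p.1 := by
    rw [← dx_aa hp hs]; exact dx_eq_deriv (cd_diff cA)
  have hAy : HasDerivAt (fun t => aa (p.1, t)) (2 / 3 * aa p * p.2 / (ss p * rq p)) p.2 := by
    rw [← dy_aa hp hs]; exact dy_eq_deriv (cd_diff cA)
  have d1 := (((hAx.const_mul (2 / 3)).mul (hasDerivAt_id p.1)).div
    ((hd_ss_x hp).mul (hd_rq_x p)) hne)
  have d2 := (((hAy.const_mul (2 / 3)).mul (hasDerivAt_id p.2)).div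
    ((hd_ss_y hp).mul (hd_rq_y p)) hne)
  rw [dx_of_hasDerivAt (cd_diff c1) d1, dy_of_hasDerivAt (cd_diff c2) d2]
  have e3 : aa (p.1, p.2) = aa p := rfl
  have e4 : ss (p.1, p.2) = ss p := rfl
  have e5 : rq (p.1, p.2) = rq p := rfl
  simp only [Pi.mul_apply, id_eq, e3, e4, e5]
  have e6 : rq p = p.1 ^ 2 + p.2 ^ 2 := rfl
  field_simp
  rw [e6]
  ring

theorem cd_R1 (hp : p ≠ 0) : ContDiffAt ℝ ∞ R1 p := by
  unfold R1
  exact contDiffAt_fst.div cd_rq.contDiffAt (rq_pos hp).ne'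

theorem cd_R3 (hp : p ≠ 0) : ContDiffAt ℝ ∞ R3 p := by
  unfold R3
  refine ContDiffAt.div ?_ (cd_rq.contDiffAt.pow 2) (pow_ne_zero 2 (rq_pos hp).ne')
  exact (contDiffAt_fst.pow 3).sub ((contDiffAt_const.mul contDiffAt_fst).mul
    (contDiffAt_snd.pow 2))

theorem cd_is6 (hp : p ≠ 0) (hs : 0 < ss p) : ContDiffAt ℝ ∞ is6 p := by
  unfold is6
  exact contDiffAt_const.div (contDiffAt_const.mul (cd_ss hp)) (by positivity)

theorem dx_R1 (hp : p ≠ 0) : dx R1 p = (p.2 ^ 2 - p.1 ^ 2) / rq p ^ 2 := by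
  have h1 := (rq_pos hp).ne'
  have d1 := (hasDerivAt_id p.1).div (hd_rq_x p) h1
  rw [dx_of_hasDerivAt (cd_diff (cd_R1 hp)) d1]
  have e5 : rq (p.1, p.2) = rq p := rfl
  have e6 : rq p = p.1 ^ 2 + p.2 ^ 2 := rfl
  simp only [id_eq, e5]
  field_simp
  rw [e6]; ring

theorem dy_R1 (hp : p ≠ 0) : dy R1 p = -(2 * p.1 * p.2) / rq p ^ 2 := by
  have h1 := (rq_pos hp).ne'
  have d1 := (hasDerivAt_const p.2 p.1).div (hd_rq_y p) h1
  rw [dy_of_hasDerivAt (cd_diff (cd_R1 hp)) d1]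
  have e5 : rq (p.1, p.2) = rq p := rfl
  simp only [e5]
  field_simp
  ring

theorem lap_R1 (hp : p ≠ 0) : lap R1 p = 0 := by
  have h1 := (rq_pos hp).ne'
  have e1 : dx R1 =ᶠ[𝓝 p] fun q => (q.2 ^ 2 - q.1 ^ 2) / rq q ^ 2 := by
    filter_upwards [ev_ne hp] with q hq using dx_R1 hq
  have e2 : dy R1 =ᶠ[𝓝 p] fun q => -(2 * q.1 * q.2) / rq q ^ 2 := by
    filter_upwards [ev_ne hp] with q hq using dy_R1 hq
  unfold lap
  rw [dx_congr e1, dy_congr e2]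
  have h2 : rq p ^ 2 ≠ 0 := pow_ne_zero 2 h1
  have c1 : ContDiffAt ℝ ∞ (fun q : ℝ × ℝ => (q.2 ^ 2 - q.1 ^ 2) / rq q ^ 2) p :=
    ((contDiffAt_snd.pow 2).sub (contDiffAt_fst.pow 2)).div (cd_rq.contDiffAt.pow 2) h2
  have c2 : ContDiffAt ℝ ∞ (fun q : ℝ × ℝ => -(2 * q.1 * q.2) / rq q ^ 2) p :=
    (((contDiffAt_const.mul contDiffAt_fst).mul contDiffAt_snd).neg).div
      (cd_rq.contDiffAt.pow 2) h2
  have d1 := ((hasDerivAt_pow 2 p.1).const_sub (p.2 ^ 2)).div ((hd_rq_x p).pow 2) h2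
  have d2 := (((hasDerivAt_id p.2).const_mul (2 * p.1)).neg).div ((hd_rq_y p).pow 2) h2
  rw [dx_of_hasDerivAt (cd_diff c1) d1, dy_of_hasDerivAt (cd_diff c2) d2]
  have e5 : rq (p.1, p.2) = rq p := rfl
  have e6 : rq p = p.1 ^ 2 + p.2 ^ 2 := rfl
  simp only [Pi.pow_apply, Pi.neg_apply, id_eq, e5]
  field_simp
  rw [e6]
  ring

/-- `∂R3/∂x` -/
def R3x (p : ℝ × ℝ) : ℝ := (3 * p.1 ^ 2 - 3 * p.2 ^ 2) / rq p ^ 2 -
  4 * p.1 * (p.1 ^ 3 - 3 * p.1 * p.2 ^ 2) / rq p ^ 3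

/-- `∂R3/∂y` -/
def R3y (p : ℝ × ℝ) : ℝ := -(6 * p.1 * p.2) / rq p ^ 2 -
  4 * p.2 * (p.1 ^ 3 - 3 * p.1 * p.2 ^ 2) / rq p ^ 3

theorem dx_R3 (hp : p ≠ 0) : dx R3 p = R3x p := by
  have h1 := (rq_pos hp).ne'
  have h2 : rq p ^ 2 ≠ 0 := pow_ne_zero 2 h1
  have d0 : HasDerivAt (fun t : ℝ => t ^ 3 - 3 * t * p.2 ^ 2) (3 * p.1 ^ 2 - 3 * p.2 ^ 2) p.1 := by
    have := (hasDerivAt_pow 3 p.1).sub (((hasDerivAt_id p.1).const_mul 3).mul_const (p.2 ^ 2))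
    refine this.congr_deriv ?_
    norm_num
  have d1 := d0.div ((hd_rq_x p).pow 2) h2
  rw [dx_of_hasDerivAt (cd_diff (cd_R3 hp)) d1]
  have e5 : rq (p.1, p.2) = rq p := rfl
  simp only [Pi.pow_apply, e5, R3x]
  field_simp
  ring

theorem dy_R3 (hp : p ≠ 0) : dy R3 p = R3y p := by
  have h1 := (rq_pos hp).ne'
  have h2 : rq p ^ 2 ≠ 0 := pow_ne_zero 2 h1
  have d0 : HasDerivAt (fun t : ℝ => p.1 ^ 3 - 3 * p.1 * t ^ 2) (-(6 * p.1 * p.2)) p.2 := by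
    have := ((hasDerivAt_pow 2 p.2).const_mul (3 * p.1)).const_sub (p.1 ^ 3)
    refine this.congr_deriv ?_
    norm_num
    ring
  have d1 := d0.div ((hd_rq_y p).pow 2) h2
  rw [dy_of_hasDerivAt (cd_diff (cd_R3 hp)) d1]
  have e5 : rq (p.1, p.2) = rq p := rfl
  simp only [Pi.pow_apply, e5, R3y]
  field_simp
  ring

theorem lap_R3 (hp : p ≠ 0) : lap R3 p = -8 * R3 p / rq p := by
  have h1 := (rq_pos hp).ne'
  have h2 : rq p ^ 2 ≠ 0 := pow_ne_zero 2 h1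
  have h3 : rq p ^ 3 ≠ 0 := pow_ne_zero 3 h1
  have e1 : dx R3 =ᶠ[𝓝 p] R3x := by
    filter_upwards [ev_ne hp] with q hq using dx_R3 hq
  have e2 : dy R3 =ᶠ[𝓝 p] R3y := by
    filter_upwards [ev_ne hp] with q hq using dy_R3 hq
  have c1 : ContDiffAt ℝ ∞ R3x p := (cd_dx (cd_R3 hp)).congr_of_eventuallyEq e1.symm
  have c2 : ContDiffAt ℝ ∞ R3y p := (cd_dy (cd_R3 hp)).congr_of_eventuallyEq e2.symm
  unfold lap
  rw [dx_congr e1, dy_congr e2]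
  have d0x : HasDerivAt (fun t : ℝ => 3 * t ^ 2 - 3 * p.2 ^ 2) (6 * p.1) p.1 := by
    have := ((hasDerivAt_pow 2 p.1).const_mul 3).sub_const (3 * p.2 ^ 2)
    refine this.congr_deriv ?_
    norm_num; ring
  have d1x : HasDerivAt (fun t : ℝ => 4 * t * (t ^ 3 - 3 * t * p.2 ^ 2))
      (16 * p.1 ^ 3 - 24 * p.1 * p.2 ^ 2) p.1 := by
    have := ((hasDerivAt_id p.1).const_mul 4).mul ((hasDerivAt_pow 3 p.1).sub
      (((hasDerivAt_id p.1).const_mul 3).mul_const (p.2 ^ 2)))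
    refine this.congr_deriv ?_
    simp only [Pi.sub_apply, id_eq]
    norm_num; ring
  have d0y : HasDerivAt (fun t : ℝ => -(6 * p.1 * t)) (-(6 * p.1)) p.2 := by
    have := ((hasDerivAt_id p.2).const_mul (6 * p.1)).neg
    refine this.congr_deriv ?_
    norm_num
  have d1y : HasDerivAt (fun t : ℝ => 4 * t * (p.1 ^ 3 - 3 * p.1 * t ^ 2))
      (4 * p.1 ^ 3 - 36 * p.1 * p.2 ^ 2) p.2 := by
    have := ((hasDerivAt_id p.2).const_mul 4).mul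
      (((hasDerivAt_pow 2 p.2).const_mul (3 * p.1)).const_sub (p.1 ^ 3))
    refine this.congr_deriv ?_
    simp only [id_eq]
    norm_num; ring
  have dx1 := (d0x.div ((hd_rq_x p).pow 2) h2).sub (d1x.div ((hd_rq_x p).pow 3) h3)
  have dy1 := (d0y.div ((hd_rq_y p).pow 2) h2).sub (d1y.div ((hd_rq_y p).pow 3) h3)
  rw [dx_of_hasDerivAt (cd_diff c1) dx1, dy_of_hasDerivAt (cd_diff c2) dy1]
  have e5 : rq (p.1, p.2) = rq p := rfl
  have e6 : rq p = p.1 ^ 2 + p.2 ^ 2 := rfl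
  simp only [Pi.pow_apply, e5, R3]
  field_simp
  rw [e6]
  ring

theorem hd_is6 {s : ℝ} (hs : 0 < s) :
    HasDerivAt (fun s : ℝ => 1 / (6 * s)) (-1 / (6 * s ^ 2)) s := by
  have := ((hasDerivAt_const s (1 : ℝ)).div ((hasDerivAt_id s).const_mul 6) (by
    simp; exact hs.ne'))
  refine this.congr_deriv ?_
  simp only [id_eq]
  field_simp
  ring

theorem dx_is6 (hp : p ≠ 0) (hs : 0 < ss p) : dx is6 p = p.1 / (6 * ss p ^ 2 * rq p) := by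
  have h := dx_comp_ss hp (hd_is6 hs)
  rw [dx_of_hasDerivAt (cd_diff (cd_is6 hp hs)) h]
  have h1 := (rq_pos hp).ne'
  have h2 := hs.ne'
  field_simp

theorem dy_is6 (hp : p ≠ 0) (hs : 0 < ss p) : dy is6 p = p.2 / (6 * ss p ^ 2 * rq p) := by
  have h := dy_comp_ss hp (hd_is6 hs)
  rw [dy_of_hasDerivAt (cd_diff (cd_is6 hp hs)) h]
  have h1 := (rq_pos hp).ne'
  have h2 := hs.ne'
  field_simp

theorem lap_is6 (hp : p ≠ 0) (hs : 0 < ss p) : lap is6 p = 1 / (3 * ss p ^ 3 * rq p) := by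
  have h1 := (rq_pos hp).ne'
  have h2 := hs.ne'
  have e1 : dx is6 =ᶠ[𝓝 p] fun q => q.1 / (6 * ss q ^ 2 * rq q) := by
    filter_upwards [ev_good hp hs] with q hq using dx_is6 hq.1 hq.2
  have e2 : dy is6 =ᶠ[𝓝 p] fun q => q.2 / (6 * ss q ^ 2 * rq q) := by
    filter_upwards [ev_good hp hs] with q hq using dy_is6 hq.1 hq.2
  unfold lap
  rw [dx_congr e1, dy_congr e2]
  have cS := cd_ss hp
  have cQ : ContDiffAt ℝ ∞ rq p := cd_rq.contDiffAt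
  have hne : 6 * ss p ^ 2 * rq p ≠ 0 := by positivity
  have c1 : ContDiffAt ℝ ∞ (fun q : ℝ × ℝ => q.1 / (6 * ss q ^ 2 * rq q)) p :=
    contDiffAt_fst.div ((contDiffAt_const.mul (cS.pow 2)).mul cQ) hne
  have c2 : ContDiffAt ℝ ∞ (fun q : ℝ × ℝ => q.2 / (6 * ss q ^ 2 * rq q)) p :=
    contDiffAt_snd.div ((contDiffAt_const.mul (cS.pow 2)).mul cQ) hne
  have d1 := (hasDerivAt_id p.1).div ((((hd_ss_x hp).pow 2).const_mul 6).mul (hd_rq_x p)) hne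
  have d2 := (hasDerivAt_id p.2).div ((((hd_ss_y hp).pow 2).const_mul 6).mul (hd_rq_y p)) hne
  rw [dx_of_hasDerivAt (cd_diff c1) d1, dy_of_hasDerivAt (cd_diff c2) d2]
  have e4 : ss (p.1, p.2) = ss p := rfl
  have e5 : rq (p.1, p.2) = rq p := rfl
  have e6 : rq p = p.1 ^ 2 + p.2 ^ 2 := rfl
  simp only [Pi.mul_apply, Pi.pow_apply, id_eq, e4, e5]
  field_simp
  rw [e6]
  ring

theorem cd_psi0 (hp : p ≠ 0) (hs : 0 < ss p) : ContDiffAt ℝ ∞ psi0 p := by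
  unfold psi0
  exact ((contDiffAt_const.mul contDiffAt_fst).mul contDiffAt_snd).div
    ((cd_ss hp).mul cd_rq.contDiffAt) (mul_ne_zero hs.ne' (rq_pos hp).ne')

theorem dx_psi0 (hp : p ≠ 0) (hs : 0 < ss p) : dx psi0 p =
    8 / 3 * p.2 * (1 / (ss p * rq p) + p.1 ^ 2 / (ss p ^ 2 * rq p ^ 2) -
      2 * p.1 ^ 2 / (ss p * rq p ^ 2)) := by
  have h1 := (rq_pos hp).ne'
  have h2 := hs.ne'
  have hne : ss p * rq p ≠ 0 := mul_ne_zero h2 h1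
  have d1 := ((((hasDerivAt_id p.1).const_mul (8 / 3)).mul_const p.2).div
    ((hd_ss_x hp).mul (hd_rq_x p)) hne)
  rw [dx_of_hasDerivAt (cd_diff (cd_psi0 hp hs)) d1]
  have e4 : ss (p.1, p.2) = ss p := rfl
  have e5 : rq (p.1, p.2) = rq p := rfl
  simp only [Pi.mul_apply, id_eq, e4, e5]
  field_simp
  ring

theorem dy_psi0 (hp : p ≠ 0) (hs : 0 < ss p) : dy psi0 p =
    8 / 3 * p.1 * (1 / (ss p * rq p) + p.2 ^ 2 / (ss p ^ 2 * rq p ^ 2) -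
      2 * p.2 ^ 2 / (ss p * rq p ^ 2)) := by
  have h1 := (rq_pos hp).ne'
  have h2 := hs.ne'
  have hne : ss p * rq p ≠ 0 := mul_ne_zero h2 h1
  have d1 := (((hasDerivAt_id p.2).const_mul (8 / 3 * p.1)).div
    ((hd_ss_y hp).mul (hd_rq_y p)) hne)
  rw [dy_of_hasDerivAt (cd_diff (cd_psi0 hp hs)) d1]
  have e4 : ss (p.1, p.2) = ss p := rfl
  have e5 : rq (p.1, p.2) = rq p := rfl
  simp only [Pi.mul_apply, id_eq, e4, e5]
  field_simp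
  ring

theorem cd_sig0 (hp : p ≠ 0) (hs : 0 < ss p) : ContDiffAt ℝ ∞ sig0 p := by
  unfold sig0
  exact contDiffAt_const.div (cd_rq.contDiffAt.mul ((cd_ss hp).pow 3))
    (mul_ne_zero (rq_pos hp).ne' (pow_ne_zero 3 hs.ne'))

theorem dx_sig0 (hp : p ≠ 0) (hs : 0 < ss p) : dx sig0 p =
    -(sig0 p * (2 - 3 / ss p) / rq p) * p.1 := by
  have h1 := (rq_pos hp).ne'
  have h2 := hs.ne'
  have hne : rq p * ss p ^ 3 ≠ 0 := mul_ne_zero h1 (pow_ne_zero 3 h2)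
  have d1 := (hasDerivAt_const p.1 (1 : ℝ)).div ((hd_rq_x p).mul ((hd_ss_x hp).pow 3)) hne
  rw [dx_of_hasDerivAt (cd_diff (cd_sig0 hp hs)) d1]
  have e4 : ss (p.1, p.2) = ss p := rfl
  have e5 : rq (p.1, p.2) = rq p := rfl
  simp only [Pi.mul_apply, Pi.pow_apply, e4, e5, sig0]
  field_simp
  ring

theorem dy_sig0 (hp : p ≠ 0) (hs : 0 < ss p) : dy sig0 p =
    -(sig0 p * (2 - 3 / ss p) / rq p) * p.2 := by
  have h1 := (rq_pos hp).ne'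
  have h2 := hs.ne'
  have hne : rq p * ss p ^ 3 ≠ 0 := mul_ne_zero h1 (pow_ne_zero 3 h2)
  have d1 := (hasDerivAt_const p.2 (1 : ℝ)).div ((hd_rq_y p).mul ((hd_ss_y hp).pow 3)) hne
  rw [dy_of_hasDerivAt (cd_diff (cd_sig0 hp hs)) d1]
  have e4 : ss (p.1, p.2) = ss p := rfl
  have e5 : rq (p.1, p.2) = rq p := rfl
  simp only [Pi.mul_apply, Pi.pow_apply, e4, e5, sig0]
  field_simp
  ring

/-- the angular part `w00 / aa` -/
def KK (p : ℝ × ℝ) : ℝ := R1 p + is6 p * R3 p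

theorem w00_eq : w00 = fun p => aa p * KK p := rfl

theorem cd_KK (hp : p ≠ 0) (hs : 0 < ss p) : ContDiffAt ℝ ∞ KK p := by
  unfold KK
  exact (cd_R1 hp).add ((cd_is6 hp hs).mul (cd_R3 hp))

theorem cd_w00 (hp : p ≠ 0) (hs : 0 < ss p) : ContDiffAt ℝ ∞ w00 p :=
  (cd_aa hp hs).mul (cd_KK hp hs)

theorem dx_KK (hp : p ≠ 0) (hs : 0 < ss p) : dx KK p =
    (p.2 ^ 2 - p.1 ^ 2) / rq p ^ 2 + (is6 p * R3x p + R3 p * (p.1 / (6 * ss p ^ 2 * rq p))) := by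
  have d1 := cd_diff (cd_R1 hp)
  have d3 := cd_diff (cd_R3 hp)
  have d6 := cd_diff (cd_is6 hp hs)
  have : KK = fun p => R1 p + (fun p => is6 p * R3 p) p := rfl
  rw [this, dx_add (f := R1) (g := fun p => is6 p * R3 p) d1 (d6.mul d3), dx_mul d6 d3, dx_R1 hp, dx_R3 hp, dx_is6 hp hs]

theorem dy_KK (hp : p ≠ 0) (hs : 0 < ss p) : dy KK p =
    -(2 * p.1 * p.2) / rq p ^ 2 + (is6 p * R3y p + R3 p * (p.2 / (6 * ss p ^ 2 * rq p))) := by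
  have d1 := cd_diff (cd_R1 hp)
  have d3 := cd_diff (cd_R3 hp)
  have d6 := cd_diff (cd_is6 hp hs)
  have : KK = fun p => R1 p + (fun p => is6 p * R3 p) p := rfl
  rw [this, dy_add (f := R1) (g := fun p => is6 p * R3 p) d1 (d6.mul d3), dy_mul d6 d3, dy_R1 hp, dy_R3 hp, dy_is6 hp hs]

theorem lap_KK (hp : p ≠ 0) (hs : 0 < ss p) : lap KK p =
    R3 p / rq p * (-4 / (3 * ss p) - 1 / (3 * ss p ^ 2) + 1 / (3 * ss p ^ 3)) := by
  have h1 := (rq_pos hp).ne'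
  have h2 := hs.ne'
  have : KK = fun p => R1 p + (fun p => is6 p * R3 p) p := rfl
  rw [this, lap_add (cd_R1 hp) ((cd_is6 hp hs).mul (cd_R3 hp)), lap_mul (cd_is6 hp hs) (cd_R3 hp),
    lap_R1 hp, lap_R3 hp, lap_is6 hp hs, dx_is6 hp hs, dy_is6 hp hs, dx_R3 hp, dy_R3 hp]
  have e6 : rq p = p.1 ^ 2 + p.2 ^ 2 := rfl
  unfold is6 R3x R3y R3
  field_simp
  rw [e6]
  ring

theorem dx_w00 (hp : p ≠ 0) (hs : 0 < ss p) : dx w00 p =
    aa p * (dx KK p + 2 / 3 * p.1 / (ss p * rq p) * KK p) := by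
  rw [w00_eq, dx_mul (cd_diff (cd_aa hp hs)) (cd_diff (cd_KK hp hs)), dx_aa hp hs]
  ring

theorem dy_w00 (hp : p ≠ 0) (hs : 0 < ss p) : dy w00 p =
    aa p * (dy KK p + 2 / 3 * p.2 / (ss p * rq p) * KK p) := by
  rw [w00_eq, dy_mul (cd_diff (cd_aa hp hs)) (cd_diff (cd_KK hp hs)), dy_aa hp hs]
  ring

theorem lap_w00 (hp : p ≠ 0) (hs : 0 < ss p) : lap w00 p =
    aa p * (lap KK p + 4 / 3 * (p.1 * dx KK p + p.2 * dy KK p) / (ss p * rq p) +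
      10 / 9 / (ss p ^ 2 * rq p) * KK p) := by
  rw [w00_eq, lap_mul (cd_aa hp hs) (cd_KK hp hs), dx_aa hp hs, dy_aa hp hs, lap_aa hp hs]
  ring

/-- The residual of the singular profile. -/
theorem residual_eq (hp : p ≠ 0) (hs : 0 < ss p) :
    rq p * (lap w00 p - (dy psi0 p * dx w00 p - dx psi0 p * dy w00 p)) =
      aa p / ss p ^ 2 * (10 / 9 * R1 p + (20 / 27 / ss p - 5 / 9) * R3 p +
        8 / 3 * ((p.1 ^ 2 - p.2 ^ 2) / rq p) *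
          (-(2 / 3) * R1 p + (-(5 / 18) / ss p + 1 / 6) * R3 p) -
        4 / 3 * (2 * p.1 * p.2 / rq p) *
          (p.2 / rq p + 1 / (2 * ss p) * ((3 * p.1 ^ 2 * p.2 - p.2 ^ 3) / rq p ^ 2))) := by
  have h1 := (rq_pos hp).ne'
  have h2 := hs.ne'
  rw [lap_w00 hp hs, dx_w00 hp hs, dy_w00 hp hs, lap_KK hp hs, dx_KK hp hs, dy_KK hp hs,
    dx_psi0 hp hs, dy_psi0 hp hs]
  have e6 : rq p = p.1 ^ 2 + p.2 ^ 2 := rfl
  unfold KK is6 R3x R3y R3 R1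
  field_simp
  rw [e6]
  ring

end Pool.Agent.Helper54.AD
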