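import Pool.Agent.Helper54.AD.Coer
import Pool.Agent.Helper54.AD.KInt

/-!
# The correction in a weighted `L²` space
-/

open Set MeasureTheory Filter Topology
open scoped ContDiff Real

noncomputable section

namespace Pool.Agent.Helper54.AD

/-- An abstract solvability lemma. -/
theorem exists_repr {V H : Type*} [AddCommGroup V] [Module ℝ V] [NormedAddCommGroup H]
    [InnerProductSpace ℝ H] [CompleteSpace H] (A : V →ₗ[ℝ] H) (G : V →ₗ[ℝ] ℝ) (C : ℝ)
    (hC : ∀ v, |G v| ≤ C * ‖A v‖) : ∃ h : H, ∀ v, G v = inner ℝ h (A v) := by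
  obtain ⟨σ, hσ⟩ := A.rangeRestrict.exists_rightInverse_of_surjective A.range_rangeRestrict
  have hσ' : ∀ y : LinearMap.range A, A (σ y) = y := fun y => by
    have := LinearMap.congr_fun hσ y
    have h2 := congrArg Subtype.val this
    simpa using h2
  let ℓ : LinearMap.range A →L[ℝ] ℝ := (G.comp σ).mkContinuous C fun y => by
    rw [Real.norm_eq_abs, LinearMap.comp_apply]
    refine (hC _).trans (le_of_eq ?_)
    rw [hσ']; rfl
  obtain ⟨g, hg, _⟩ := exists_extension_norm_eq (LinearMap.range A) ℓ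
  refine ⟨(InnerProductSpace.toDual ℝ H).symm g, fun v => ?_⟩
  rw [InnerProductSpace.toDual_symm_apply]
  have h1 := hg ⟨A v, LinearMap.mem_range_self A v⟩
  rw [h1]
  show G v = G (σ ⟨A v, LinearMap.mem_range_self A v⟩)
  have h2 := hC (v - σ ⟨A v, LinearMap.mem_range_self A v⟩)
  rw [map_sub A, hσ', sub_self, norm_zero, mul_zero] at h2
  have h3 := abs_nonpos_iff.mp h2
  rw [map_sub] at h3
  linarith

variable {p : ℝ × ℝ} {f g Φ Ψ : ℝ × ℝ → ℝ} {lam : ℝ}

/-- the measure on the cell -/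
abbrev mc : Measure (ℝ × ℝ) := volume.restrict cell

theorem measurable_dx (f : ℝ × ℝ → ℝ) : Measurable (dx f) :=
  measurable_fderiv_apply_const ℝ f (1, 0)

theorem measurable_dy (f : ℝ × ℝ → ℝ) : Measurable (dy f) :=
  measurable_fderiv_apply_const ℝ f (0, 1)

theorem measurable_lap (f : ℝ × ℝ → ℝ) : Measurable (lap f) :=
  (measurable_dx _).add (measurable_dy _)

theorem measurable_rq : Measurable rq := cd_rq.continuous.measurable

theorem measurable_ss : Measurable ss := by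
  unfold ss
  exact measurable_const.sub ((Real.measurable_log.comp measurable_rq).div_const 2)

theorem measurable_cut : Measurable cut := cd_cut.continuous.measurable

theorem measurable_w0 : Measurable w0 := by
  have h1 := measurable_rq
  have h2 := measurable_ss
  have h3 := measurable_cut
  unfold w0 w00 aa R1 R3 is6
  fun_prop

theorem measurable_sig : Measurable sig := by
  have h1 := measurable_rq
  have h2 := measurable_ss
  have h3 := measurable_cut
  unfold sig sig0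
  fun_prop

theorem measurable_b1 : Measurable b1 := measurable_dy _

theorem measurable_b2 : Measurable b2 := (measurable_dx _).neg

theorem measurable_N0 : Measurable N0 :=
  (measurable_lap _).sub ((measurable_b1.mul (measurable_dx _)).add
    (measurable_b2.mul (measurable_dy _)))

theorem memLp_of_bound {C : ℝ} (hf : AEStronglyMeasurable f mc)
    (h : ∀ p ≠ 0, rq p ≤ 1 → f p ^ 2 ≤ C * kk p) : MemLp f 2 mc := by
  rw [memLp_two_iff_integrable_sq hf]
  refine Integrable.mono' (integrableOn_kk.const_mul C) (hf.pow 2) ?_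
  filter_upwards [ae_ne_zero, ae_mem_cell] with p hp hc
  rw [Real.norm_eq_abs, abs_of_nonneg (sq_nonneg _)]
  exact h p hp (by have := rq_le_of_cell hc; linarith)

theorem memLp_of_cont (hf : Continuous f) : MemLp f 2 mc := by
  rw [memLp_two_iff_integrable_sq hf.aestronglyMeasurable]
  exact integrableOn_cell (hf.pow 2)

theorem memLp_w0 : MemLp w0 2 mc :=
  memLp_of_bound (C := 4) measurable_w0.aestronglyMeasurable fun _ hp h => w0_sq_le hp h

theorem memLp_b1 : MemLp b1 2 mc := by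
  obtain ⟨C, _, hC⟩ := bound_b
  refine memLp_of_bound (C := C) measurable_b1.aestronglyMeasurable fun p hp h => ?_
  have := (le_abs_self _).trans (hC p hp h)
  nlinarith [sq_nonneg (b2 p)]

theorem memLp_b2 : MemLp b2 2 mc := by
  obtain ⟨C, _, hC⟩ := bound_b
  refine memLp_of_bound (C := C) measurable_b2.aestronglyMeasurable fun p hp h => ?_
  have := (le_abs_self _).trans (hC p hp h)
  nlinarith [sq_nonneg (b1 p)]

theorem memLp_res (lam : ℝ) : MemLp (fun p => (lam * w0 p - N0 p) / (ss p * sig p)) 2 mc := by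
  obtain ⟨C, _, hC⟩ := bound_res lam
  refine memLp_of_bound (C := C) ?_ fun p hp h => (le_abs_self _).trans (hC p hp h)
  exact (((measurable_w0.const_mul lam).sub measurable_N0).div
    (measurable_ss.mul measurable_sig)).aestronglyMeasurable

theorem Tst.memLp_a (h : Tst Φ) (lam : ℝ) : MemLp (fun p => TT lam Φ p / ss p) 2 mc := by
  have hm : AEStronglyMeasurable (fun p => TT lam Φ p / ss p) mc :=
    ((h.cont_TT lam).measurable.div measurable_ss).aestronglyMeasurable
  rw [memLp_two_iff_integrable_sq hm]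
  refine Integrable.mono' (integrableOn_cell ((h.cont_TT lam).pow 2)) (hm.pow 2) ?_
  filter_upwards [ae_mem_cell] with p hc
  have hs := ss_ge (p := p) (by have := rq_le_of_cell hc; linarith)
  rw [Real.norm_eq_abs, abs_of_nonneg (sq_nonneg _), div_pow]
  refine div_le_self (sq_nonneg _) ?_
  nlinarith

theorem Tst.memLp_b (h : Tst Φ) : MemLp (fun p => ss p * sig p * Φ p) 2 mc :=
  memLp_of_cont (h.cont_mul (k := fun p => ss p * sig p)
    fun _ hp => (cd_ss hp).mul (cd_sig hp))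

theorem inner_toLp (hf : MemLp f 2 mc) (hg : MemLp g 2 mc) :
    inner ℝ (hf.toLp f) (hg.toLp g) = ∫ p in cell, f p * g p := by
  rw [L2.inner_def]
  refine integral_congr_ae ?_
  filter_upwards [hf.coeFn_toLp, hg.coeFn_toLp] with p h1 h2
  rw [h1, h2]
  simp [mul_comm]

theorem norm_toLp_sq (hf : MemLp f 2 mc) : ‖hf.toLp f‖ ^ 2 = ∫ p in cell, f p ^ 2 := by
  rw [← real_inner_self_eq_norm_sq, inner_toLp hf hf]
  exact integral_congr_ae (Eventually.of_forall fun p => by ring)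

/-- The weighted a priori estimate. -/
theorem Tst.apriori (h : Tst Φ)
    (hlam : ∀ p ≠ 0, rq p ≤ 1 → ss p ^ 2 * sig p ^ 2 / 6 ≤ EE lam p) :
    ‖h.memLp_b.toLp _‖ ≤ 6 * ‖(h.memLp_a lam).toLp _‖ := by
  have h1 := coercive hlam h
  have h2 : ∫ p in cell, TT lam Φ p * (sig p * Φ p) =
      ∫ p in cell, TT lam Φ p / ss p * (ss p * sig p * Φ p) := by
    refine integral_congr_ae ?_
    filter_upwards [ae_mem_cell] with p hc
    have hs := ss_ge (p := p) (by have := rq_le_of_cell hc; linarith)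
    have : ss p ≠ 0 := by positivity
    field_simp
  rw [h2, ← inner_toLp (h.memLp_a lam) h.memLp_b, ← norm_toLp_sq h.memLp_b] at h1
  have h3 := (le_abs_self _).trans (abs_real_inner_le_norm ((h.memLp_a lam).toLp _)
    (h.memLp_b.toLp _))
  set x := ‖h.memLp_b.toLp _‖
  set y := ‖(h.memLp_a lam).toLp _‖
  have hx : 0 ≤ x := norm_nonneg _
  have hy : 0 ≤ y := norm_nonneg _
  by_contra hcon
  push Not at hcon
  have : 0 < x := lt_of_le_of_lt (by positivity) hcon
  nlinarith

theorem w0_integral_eq (h : Tst Φ) (lam : ℝ) : ∫ p in cell, w0 p * TT lam Φ p =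
    ∫ p in cell, (lam * w0 p - N0 p) / (ss p * sig p) * (ss p * sig p * Φ p) := by
  have hx := cdx h.smooth
  have hy := cdy h.smooth
  -- the fluxes
  set G1 : ℝ × ℝ → ℝ := fun p => (dx w0 p - w0 p * b1 p) * Φ p + -w0 p * dx Φ p with hG1
  set G2 : ℝ × ℝ → ℝ := fun p => (dy w0 p - w0 p * b2 p) * Φ p + -w0 p * dy Φ p with hG2
  have c1 : Cpt G1 := by
    refine Cpt.add ?_ ?_
    · exact cpt_mul (fun p hp => (cd_dx (cd_w0 hp)).sub ((cd_w0 hp).mul (cd_b1 hp)))
        (fun p hq => by rw [w0_zero hq, dx_zero_of_supp (fun _ hp => cd_w0 hp)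
          (fun _ h => w0_zero h) hq]; ring) h.smooth h.zero
    · exact cpt_mul (fun p hp => (cd_w0 hp).neg) (fun p hq => by rw [w0_zero hq]; ring) hx
        (ev_zero_dx h.zero)
  have c2 : Cpt G2 := by
    refine Cpt.add ?_ ?_
    · exact cpt_mul (fun p hp => (cd_dy (cd_w0 hp)).sub ((cd_w0 hp).mul (cd_b2 hp)))
        (fun p hq => by rw [w0_zero hq, dy_zero_of_supp (fun _ hp => cd_w0 hp)
          (fun _ h => w0_zero h) hq]; ring) h.smooth h.zero
    · exact cpt_mul (fun p hp => (cd_w0 hp).neg) (fun p hq => by rw [w0_zero hq]; ring) hy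
        (ev_zero_dy h.zero)
  have key : ∀ p ≠ 0, w0 p * TT lam Φ p = (lam * w0 p - N0 p) * Φ p + (dx G1 p + dy G2 p) := by
    intro p hp
    have dΦ := cd_diff (h.smooth.contDiffAt (x := p))
    have dΦx := cd_diff (hx.contDiffAt (x := p))
    have dΦy := cd_diff (hy.contDiffAt (x := p))
    have dW := cd_diff (cd_w0 hp)
    have dWx := cd_diff (cd_dx (cd_w0 hp))
    have dWy := cd_diff (cd_dy (cd_w0 hp))
    have dB1 := cd_diff (cd_b1 hp)
    have dB2 := cd_diff (cd_b2 hp)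
    have k1 : DifferentiableAt ℝ (fun p => dx w0 p - w0 p * b1 p) p := dWx.sub (dW.mul dB1)
    have k2 : DifferentiableAt ℝ (fun p => dy w0 p - w0 p * b2 p) p := dWy.sub (dW.mul dB2)
    have e1 : dx G1 p = (dx w0 p - w0 p * b1 p) * dx Φ p +
        Φ p * (dx (dx w0) p - (w0 p * dx b1 p + b1 p * dx w0 p)) +
        (-w0 p * dx (dx Φ) p + dx Φ p * -dx w0 p) := by
      have h0 : G1 = fun p => (fun p => (fun p => dx w0 p - w0 p * b1 p) p * Φ p) p +
        (fun p => (fun p => -w0 p) p * dx Φ p) p := rfl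
      rw [h0, dx_add (f := fun p => (fun p => dx w0 p - w0 p * b1 p) p * Φ p)
        (g := fun p => (fun p => -w0 p) p * dx Φ p) (k1.mul dΦ) (dW.neg.mul dΦx),
        dx_mul (f := fun p => dx w0 p - w0 p * b1 p) k1 dΦ,
        dx_mul (f := fun p => -w0 p) dW.neg dΦx,
        dx_sub (g := fun p => w0 p * b1 p) dWx (dW.mul dB1), dx_mul dW dB1, dx_neg]
    have e2 : dy G2 p = (dy w0 p - w0 p * b2 p) * dy Φ p +
        Φ p * (dy (dy w0) p - (w0 p * dy b2 p + b2 p * dy w0 p)) +
        (-w0 p * dy (dy Φ) p + dy Φ p * -dy w0 p) := by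
      have h0 : G2 = fun p => (fun p => (fun p => dy w0 p - w0 p * b2 p) p * Φ p) p +
        (fun p => (fun p => -w0 p) p * dy Φ p) p := rfl
      rw [h0, dy_add (f := fun p => (fun p => dy w0 p - w0 p * b2 p) p * Φ p)
        (g := fun p => (fun p => -w0 p) p * dy Φ p) (k2.mul dΦ) (dW.neg.mul dΦy),
        dy_mul (f := fun p => dy w0 p - w0 p * b2 p) k2 dΦ,
        dy_mul (f := fun p => -w0 p) dW.neg dΦy,
        dy_sub (g := fun p => w0 p * b2 p) dWy (dW.mul dB2), dy_mul dW dB2, dy_neg]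
    rw [e1, e2]
    have hdiv := div_b hp
    have h3 : dy b2 p = -dx b1 p := by linarith
    rw [h3]
    unfold TT N0 lap
    ring
  have i2 : IntegrableOn (dx G1) cell := integrableOn_cell (cdx c1.smooth).continuous
  have i3 : IntegrableOn (dy G2) cell := integrableOn_cell (cdy c2.smooth).continuous
  have i1 : IntegrableOn (fun p => (lam * w0 p - N0 p) * Φ p) cell :=
    integrableOn_cell (h.cont_mul fun _ hp => (contDiffAt_const.mul (cd_w0 hp)).sub (cd_N0 hp))
  have e1 : ∫ p in cell, w0 p * TT lam Φ p =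
      ∫ p in cell, ((lam * w0 p - N0 p) * Φ p + (dx G1 p + dy G2 p)) := by
    refine integral_congr_ae ?_
    filter_upwards [ae_ne_zero] with p hp using key p hp
  have i23 : IntegrableOn (fun p => dx G1 p + dy G2 p) cell := i2.add i3
  rw [e1, integral_add i1 i23, integral_add i2 i3, c1.integral_dx, c2.integral_dy, add_zero,
    add_zero]
  refine integral_congr_ae ?_
  filter_upwards [ae_ne_zero, ae_mem_cell] with p hp hc
  have hs := ss_ge (p := p) (by have := rq_le_of_cell hc; linarith)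
  have h1 : ss p ≠ 0 := by positivity
  have h2 := (sig_pos hp).ne'
  field_simp

/-! ### the linear maps -/

theorem TT_add (hΦ : ContDiff ℝ ∞ Φ) (hΨ : ContDiff ℝ ∞ Ψ) (lam : ℝ) (p : ℝ × ℝ) :
    TT lam (fun p => Φ p + Ψ p) p = TT lam Φ p + TT lam Ψ p := by
  unfold TT
  rw [lap_add hΦ.contDiffAt hΨ.contDiffAt, dx_add (cd_diff hΦ.contDiffAt) (cd_diff hΨ.contDiffAt),
    dy_add (cd_diff hΦ.contDiffAt) (cd_diff hΨ.contDiffAt)]
  ring

theorem dx_const_mul (c : ℝ) (hΦ : DifferentiableAt ℝ Φ p) :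
    dx (fun p => c * Φ p) p = c * dx Φ p := by
  rw [dx_mul (f := fun _ => c) (differentiableAt_const _) hΦ]
  have : dx (fun _ => c) p = 0 := by unfold dx; simp
  rw [this]; ring

theorem dy_const_mul (c : ℝ) (hΦ : DifferentiableAt ℝ Φ p) :
    dy (fun p => c * Φ p) p = c * dy Φ p := by
  rw [dy_mul (f := fun _ => c) (differentiableAt_const _) hΦ]
  have : dy (fun _ => c) p = 0 := by unfold dy; simp
  rw [this]; ring

theorem lap_const_mul (c : ℝ) (hΦ : ContDiff ℝ ∞ Φ) :
    lap (fun p => c * Φ p) p = c * lap Φ p := by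
  unfold lap
  have e1 : dx (fun p => c * Φ p) = fun p => c * dx Φ p :=
    funext fun q => dx_const_mul c (cd_diff hΦ.contDiffAt)
  have e2 : dy (fun p => c * Φ p) = fun p => c * dy Φ p :=
    funext fun q => dy_const_mul c (cd_diff hΦ.contDiffAt)
  rw [e1, e2, dx_const_mul c (cd_diff (cdx hΦ).contDiffAt),
    dy_const_mul c (cd_diff (cdy hΦ).contDiffAt)]
  ring

theorem TT_const_mul (hΦ : ContDiff ℝ ∞ Φ) (c lam : ℝ) (p : ℝ × ℝ) :
    TT lam (fun p => c * Φ p) p = c * TT lam Φ p := by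
  unfold TT
  rw [lap_const_mul c hΦ, dx_const_mul c (cd_diff hΦ.contDiffAt),
    dy_const_mul c (cd_diff hΦ.contDiffAt)]
  ring

/-- the space of test functions -/
def TS : Submodule ℝ (ℝ × ℝ → ℝ) where
  carrier := {Φ | Tst Φ}
  add_mem' := by
    intro Φ Ψ hΦ hΨ
    refine ⟨hΦ.adm.add hΨ.adm, fun p => ?_, ?_⟩
    · simp only [Pi.add_apply, hΦ.odd, hΨ.odd]; ring
    · filter_upwards [hΦ.zero, hΨ.zero] with q h1 h2
      simp [h1, h2]
  zero_mem' := ⟨adm_const 0, fun p => by simp, Eventually.of_forall fun _ => rfl⟩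
  smul_mem' := by
    intro c Φ hΦ
    refine ⟨(adm_const c).mul hΦ.adm, fun p => ?_, ?_⟩
    · simp only [Pi.smul_apply, hΦ.odd, smul_neg]
    · filter_upwards [hΦ.zero] with q h1
      simp [h1]

/-- `Φ ↦ TΦ / s` -/
def AA (lam : ℝ) : TS →ₗ[ℝ] Lp ℝ 2 mc where
  toFun Φ := (Tst.memLp_a Φ.2 lam).toLp _
  map_add' Φ Ψ := by
    rw [← MemLp.toLp_add]
    refine MemLp.toLp_congr _ _ (Eventually.of_forall fun p => ?_)
    have h := TT_add (Tst.smooth Φ.2) (Tst.smooth Ψ.2) lam p
    show TT lam (fun p => Φ.1 p + Ψ.1 p) p / ss p = TT lam Φ.1 p / ss p + TT lam Ψ.1 p / ss p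
    rw [h, add_div]
  map_smul' c Φ := by
    rw [RingHom.id_apply, ← MemLp.toLp_const_smul]
    refine MemLp.toLp_congr _ _ (Eventually.of_forall fun p => ?_)
    have h := TT_const_mul (Tst.smooth Φ.2) c lam p
    show TT lam (fun p => c * Φ.1 p) p / ss p = c * (TT lam Φ.1 p / ss p)
    rw [h, mul_div_assoc]

theorem integrable_w0_TT (h : Tst Φ) (lam : ℝ) :
    IntegrableOn (fun p => w0 p * TT lam Φ p) cell :=
  (memLp_w0.integrable_mul (memLp_of_cont (h.cont_TT lam)))

/-- `Φ ↦ -∫ w₀ TΦ` -/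
def GG (lam : ℝ) : TS →ₗ[ℝ] ℝ where
  toFun Φ := -∫ p in cell, w0 p * TT lam Φ.1 p
  map_add' Φ Ψ := by
    rw [← neg_add, ← integral_add (integrable_w0_TT Φ.2 lam) (integrable_w0_TT Ψ.2 lam)]
    congr 1
    refine integral_congr_ae (Eventually.of_forall fun p => ?_)
    have h := TT_add (Tst.smooth Φ.2) (Tst.smooth Ψ.2) lam p
    show w0 p * TT lam (fun p => Φ.1 p + Ψ.1 p) p = w0 p * TT lam Φ.1 p + w0 p * TT lam Ψ.1 p
    rw [h]; ring
  map_smul' c Φ := by
    rw [RingHom.id_apply, smul_eq_mul, mul_neg, ← integral_const_mul]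
    congr 1
    refine integral_congr_ae (Eventually.of_forall fun p => ?_)
    have h := TT_const_mul (Tst.smooth Φ.2) c lam p
    show w0 p * TT lam (fun p => c * Φ.1 p) p = c * (w0 p * TT lam Φ.1 p)
    rw [h]; ring

theorem GG_bound (hlam : ∀ p ≠ 0, rq p ≤ 1 → ss p ^ 2 * sig p ^ 2 / 6 ≤ EE lam p) (Φ : TS) :
    |GG lam Φ| ≤ ‖(memLp_res lam).toLp _‖ * 6 * ‖AA lam Φ‖ := by
  have h : Tst Φ.1 := Φ.2
  have h1 : |GG lam Φ| = |inner ℝ ((memLp_res lam).toLp _) (h.memLp_b.toLp _)| := by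
    rw [inner_toLp (memLp_res lam) h.memLp_b, ← w0_integral_eq h lam]
    show |-∫ p in cell, w0 p * TT lam Φ.1 p| = _
    rw [abs_neg]
  rw [h1]
  refine (abs_real_inner_le_norm _ _).trans ?_
  rw [mul_assoc]
  exact mul_le_mul_of_nonneg_left (h.apriori hlam) (norm_nonneg _)

theorem exists_v0 (hlam : ∀ p ≠ 0, rq p ≤ 1 → ss p ^ 2 * sig p ^ 2 / 6 ≤ EE lam p) :
    ∃ h : ℝ × ℝ → ℝ, MemLp h 2 mc ∧ ∀ Φ, Tst Φ →
      ∫ p in cell, h p * (TT lam Φ p / ss p) = -∫ p in cell, w0 p * TT lam Φ p := by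
  obtain ⟨h, hh⟩ := exists_repr (AA lam) (GG lam) _ (GG_bound hlam)
  refine ⟨h, Lp.memLp h, fun Φ hΦ => ?_⟩
  have h1 := hh ⟨Φ, hΦ⟩
  have h2 : GG lam ⟨Φ, hΦ⟩ = -∫ p in cell, w0 p * TT lam Φ p := rfl
  have h3 : AA lam ⟨Φ, hΦ⟩ = (hΦ.memLp_a lam).toLp _ := rfl
  rw [h2, h3] at h1
  rw [h1]
  have h4 := inner_toLp (Lp.memLp h) (hΦ.memLp_a lam)
  rw [Lp.toLp_coeFn] at h4
  exact h4.symm

end Pool.Agent.Helper54.AD
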