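import Pool.Agent.Helper54.AD.NonH1

/-!
# The time dependent problem
-/

open Set MeasureTheory Filter Topology Function
open scoped ContDiff Real

noncomputable section

namespace Pool.Agent.Helper54.AD

variable {T lam : ℝ} {φ : ℝ → ℝ × ℝ → ℝ} {w H : ℝ × ℝ → ℝ}

theorem IsTest.slice (h : IsTest T φ) (t : ℝ) : ContDiff ℝ ∞ (φ t) := by
  have h1 : ContDiff ℝ ∞ fun x : ℝ × ℝ => ((t, x) : ℝ × (ℝ × ℝ)) := contDiff_const.prodMk contDiff_id
  exact h.smooth.comp h1

theorem IsTest.hasDerivAt (h : IsTest T φ) (t : ℝ) (x : ℝ × ℝ) :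
    HasDerivAt (fun s => φ s x) (fderiv ℝ (uncurry φ) (t, x) (1, 0)) t := by
  have h1 : HasFDerivAt (uncurry φ) (fderiv ℝ (uncurry φ) (t, x)) (t, x) :=
    (h.smooth.differentiable (by simp)).differentiableAt.hasFDerivAt
  have h2 : HasDerivAt (fun s : ℝ => (s, x)) ((1 : ℝ), (0 : ℝ × ℝ)) t :=
    (hasDerivAt_id t).prodMk (hasDerivAt_const t x)
  exact h1.comp_hasDerivAt t h2

/-- the derivative of `exp (λ t) φ(t, x)` in time -/
def psit (lam : ℝ) (φ : ℝ → ℝ × ℝ → ℝ) (t : ℝ) (x : ℝ × ℝ) : ℝ :=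
  Real.exp (lam * t) * (lam * φ t x + fderiv ℝ (uncurry φ) (t, x) (1, 0))

theorem continuous_psit (h : IsTest T φ) (lam : ℝ) : Continuous (uncurry (psit lam φ)) := by
  have h1 : Continuous fun z : ℝ × (ℝ × ℝ) => fderiv ℝ (uncurry φ) z (1, 0) :=
    (h.smooth.continuous_fderiv (by simp)).clm_apply continuous_const
  have h2 : Continuous fun z : ℝ × (ℝ × ℝ) => uncurry φ z := h.smooth.continuous
  have h3 : Continuous fun z : ℝ × (ℝ × ℝ) => Real.exp (lam * z.1) :=
    Real.continuous_exp.comp (continuous_const.mul continuous_fst)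
  exact h3.mul ((continuous_const.mul h2).add h1)

theorem hasDerivAt_psit (h : IsTest T φ) (lam t : ℝ) (x : ℝ × ℝ) :
    HasDerivAt (fun s => Real.exp (lam * s) * φ s x) (psit lam φ t x) t := by
  have h1 : HasDerivAt (fun s => Real.exp (lam * s)) (Real.exp (lam * t) * lam) t := by
    have := ((hasDerivAt_id t).const_mul lam).exp
    simpa using this
  refine (h1.mul (h.hasDerivAt t x)).congr_deriv ?_
  unfold psit; ring

theorem integral_psit (h : IsTest T φ) (hT : 0 < T) (lam : ℝ) (x : ℝ × ℝ) :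
    ∫ t in Ioo 0 T, psit lam φ t x = -φ 0 x := by
  rw [← integral_Ioc_eq_integral_Ioo, ← intervalIntegral.integral_of_le hT.le,
    intervalIntegral.integral_eq_sub_of_hasDerivAt (fun t _ => hasDerivAt_psit h lam t x)]
  · obtain ⟨T', hT', hs⟩ := h.supp
    rw [hs T hT'.le x]; simp
  · refine Continuous.intervalIntegrable ?_ _ _
    have h2 : Continuous fun t : ℝ => ((t, x) : ℝ × (ℝ × ℝ)) := by fun_prop
    exact (continuous_psit h lam).comp h2

theorem st_measure (T : ℝ) : (volume : Measure (ℝ × (ℝ × ℝ))).restrict (Ioo 0 T ×ˢ cell) =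
    ((volume : Measure ℝ).restrict (Ioo 0 T)).prod mc := by
  unfold mc
  rw [Measure.prod_restrict, ← Measure.volume_eq_prod]

instance : IsFiniteMeasure mc := ⟨by
  rw [mc, Measure.restrict_apply_univ]; exact volume_cell_lt_top⟩

instance (T : ℝ) : IsFiniteMeasure ((volume : Measure ℝ).restrict (Ioo 0 T)) := ⟨by
  rw [Measure.restrict_apply_univ]; exact measure_Ioo_lt_top⟩

theorem integrable_st (h : IsTest T φ) (hw : MemLp w 2 mc) (lam : ℝ) :
    Integrable (uncurry fun t x => w x * psit lam φ t x)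
      (((volume : Measure ℝ).restrict (Ioo 0 T)).prod mc) := by
  have hw1 : Integrable w mc := hw.integrable (by norm_num)
  have h1 : Integrable (fun z : ℝ × (ℝ × ℝ) => w z.2)
      (((volume : Measure ℝ).restrict (Ioo 0 T)).prod mc) := hw1.comp_snd _
  obtain ⟨C, hC⟩ : ∃ C : ℝ, ∀ z ∈ Icc 0 T ×ˢ Metric.closedBall (0 : ℝ × ℝ) (1 / 2),
      ‖uncurry (psit lam φ) z‖ ≤ C :=
    (isCompact_Icc.prod (isCompact_closedBall _ _)).exists_bound_of_continuousOn
      (continuous_psit h lam).continuousOn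
  refine Integrable.mul_bdd (c := C) h1 (continuous_psit h lam).aestronglyMeasurable ?_
  rw [← st_measure]
  refine (ae_restrict_mem (measurableSet_Ioo.prod measurableSet_cell)).mono fun z hz => ?_
  refine hC z ⟨⟨hz.1.1.le, hz.1.2.le⟩, ?_⟩
  have := hz.2
  rw [cell_eq_ball] at this
  exact Metric.ball_subset_closedBall this

/-- the general computation -/
theorem dist_eq (hT : 0 < T) (h : IsTest T φ) (hw : MemLp w 2 mc)
    (heq : ∀ Φ : ℝ × ℝ → ℝ, ContDiff ℝ ∞ Φ → Periodic2 Φ → ∫ x in cell, w x * TT lam Φ x = 0) :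
    (∫ t in Ioo 0 T, ∫ x in cell, (Real.exp (lam * t) * w x) * (deriv (fun s => φ s x) t +
        (b1 x * dx (φ t) x + b2 x * dy (φ t) x) + lap (φ t) x)) +
      ∫ x in cell, w x * φ 0 x = 0 := by
  have e1 : ∀ t, ∫ x in cell, (Real.exp (lam * t) * w x) * (deriv (fun s => φ s x) t +
      (b1 x * dx (φ t) x + b2 x * dy (φ t) x) + lap (φ t) x) =
      ∫ x in cell, w x * psit lam φ t x := by
    intro t
    have i1 : Integrable (fun x => w x * TT lam (φ t) x) mc :=
      hw.integrable_mul (memLp_TT (h.slice t) lam)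
    have hc : Continuous fun x => psit lam φ t x := by
      have h2 : Continuous fun x : ℝ × ℝ => ((t, x) : ℝ × (ℝ × ℝ)) := by fun_prop
      exact (continuous_psit h lam).comp h2
    have i2 : Integrable (fun x => w x * psit lam φ t x) mc :=
      hw.integrable_mul (memLp_of_cont hc)
    have e2 : ∫ x in cell, (Real.exp (lam * t) * w x) * (deriv (fun s => φ s x) t +
        (b1 x * dx (φ t) x + b2 x * dy (φ t) x) + lap (φ t) x) =
        ∫ x in cell, (w x * psit lam φ t x - Real.exp (lam * t) * (w x * TT lam (φ t) x)) := by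
      refine integral_congr_ae (Eventually.of_forall fun x => ?_)
      simp only
      rw [(h.hasDerivAt t x).deriv]
      unfold psit TT
      ring
    rw [e2, integral_sub i2 (i1.const_mul _), integral_const_mul, heq _ (h.slice t) (h.periodic t)]
    ring
  have e3 : ∫ t in Ioo 0 T, ∫ x in cell, w x * psit lam φ t x = -∫ x in cell, w x * φ 0 x := by
    have h3 : ∫ t in Ioo 0 T, ∫ x in cell, w x * psit lam φ t x =
        ∫ x in cell, ∫ t in Ioo 0 T, w x * psit lam φ t x :=
      integral_integral_swap (integrable_st h hw lam)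
    rw [h3, ← integral_neg]
    refine integral_congr_ae (Eventually.of_forall fun x => ?_)
    simp only
    rw [integral_const_mul, integral_psit h hT lam x]
    ring
  simp only [e1]
  rw [e3]
  ring

/-- the drift -/
def bb (x : ℝ × ℝ) : ℝ × ℝ := per (fun y => (b1 y, b2 y)) x

theorem bb_eq {x : ℝ × ℝ} (hx : x ∈ cell) : bb x = (b1 x, b2 x) := per_eq _ hx

theorem memLp_bb : MemLp bb 2 mc := by
  have h1 : MemLp (fun x => (b1 x, b2 x)) 2 mc := by
    have k1 := (ContinuousLinearMap.inl ℝ ℝ ℝ).comp_memLp' memLp_b1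
    have k2 := (ContinuousLinearMap.inr ℝ ℝ ℝ).comp_memLp' memLp_b2
    refine (k1.add k2).ae_eq (Eventually.of_forall fun x => ?_)
    simp
  refine h1.ae_eq ?_
  filter_upwards [ae_mem_cell] with x hx
  exact (bb_eq hx).symm

theorem isAutonomousField_bb : IsAutonomousField bb := by
  refine ⟨periodic_per _, memLp_bb, fun Φ hΦ hp => ?_⟩
  rw [← div_free_all hΦ hp]
  exact setIntegral_congr_fun measurableSet_cell fun x hx => by simp only [bb_eq hx]

/-- An autonomous field is a field on every time interval. -/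
theorem IsAutonomousField.isField {b : ℝ × ℝ → ℝ × ℝ} (hb : IsAutonomousField b) (T : ℝ) :
    IsField T fun _ => b := by
  refine ⟨fun _ => hb.periodic, ?_, fun φ hφ => ?_⟩
  · rw [st_measure]
    exact hb.memLp.comp_snd _
  · have h1 : ∀ t, ∫ x in cell, ((b x).1 * dx (φ t) x + (b x).2 * dy (φ t) x) = 0 := fun t =>
      hb.divFree _ (hφ.slice t) (hφ.periodic t)
    simp only [h1]
    simp

theorem WeakGrad.congr {f g g₁ g₂ : ℝ × ℝ → ℝ} (h : WeakGrad f g₁ g₂) (hfg : ∀ x ∈ cell, f x = g x) :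
    WeakGrad g g₁ g₂ := by
  refine ⟨h.mem₁, h.mem₂, fun Φ hΦ hp => ?_, fun Φ hΦ hp => ?_⟩
  · rw [← h.eq₁ Φ hΦ hp]
    exact setIntegral_congr_fun measurableSet_cell fun x hx => by simp only [hfg x hx]
  · rw [← h.eq₂ Φ hΦ hp]
    exact setIntegral_congr_fun measurableSet_cell fun x hx => by simp only [hfg x hx]

theorem WeakGrad.const_mul {f g₁ g₂ : ℝ × ℝ → ℝ} (h : WeakGrad f g₁ g₂) (c : ℝ) :
    WeakGrad (fun x => c * f x) (fun x => c * g₁ x) (fun x => c * g₂ x) := by
  refine ⟨h.mem₁.const_mul c, h.mem₂.const_mul c, fun Φ hΦ hp => ?_, fun Φ hΦ hp => ?_⟩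
  · simp only [mul_assoc]
    rw [integral_const_mul, integral_const_mul, h.eq₁ Φ hΦ hp]; ring
  · simp only [mul_assoc]
    rw [integral_const_mul, integral_const_mul, h.eq₂ Φ hΦ hp]; ring

/-- **Main theorem.** -/
theorem main : ∃ b : ℝ × ℝ → ℝ × ℝ, IsAutonomousField b ∧ ∀ T : ℝ, 0 < T →
    IsField T (fun _ => b) ∧ ∃ (u₀ : ℝ × ℝ → ℝ) (u : ℝ → ℝ × ℝ → ℝ),
      IsDistSolution T (fun _ => b) u₀ u ∧ ¬ InL2H1 T u ∧ ∀ t g₁ g₂, ¬ WeakGrad (u t) g₁ g₂ := by
  refine ⟨bb, isAutonomousField_bb, fun T hT => ⟨isAutonomousField_bb.isField T, ?_⟩⟩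
  obtain ⟨lam, _, H, hH⟩ := exists_sol
  set w : ℝ × ℝ → ℝ := per fun x => w0 x + H x / ss x with hwdef
  have hweq : ∀ x ∈ cell, w x = w0 x + H x / ss x := fun x hx => per_eq _ hx
  have hw : MemLp w 2 mc := by
    refine (memLp_u hH.mem).ae_eq ?_
    filter_upwards [ae_mem_cell] with x hx
    exact (hweq x hx).symm
  have heq : ∀ Φ : ℝ × ℝ → ℝ, ContDiff ℝ ∞ Φ → Periodic2 Φ →
      ∫ x in cell, w x * TT lam Φ x = 0 := by
    intro Φ hΦ hp
    rw [← hH.eq_all hΦ hp]
    exact setIntegral_congr_fun measurableSet_cell fun x hx => by simp only [hweq x hx]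
  have hno : ∀ t g₁ g₂, ¬ WeakGrad (fun x => Real.exp (lam * t) * w x) g₁ g₂ := by
    intro t g₁ g₂ h
    refine not_weakGrad hH.mem _ _ ((h.const_mul (Real.exp (-(lam * t)))).congr fun x hx => ?_)
    rw [hweq x hx, ← mul_assoc, ← Real.exp_add]
    simp
  refine ⟨w, fun t x => Real.exp (lam * t) * w x, ?_, ?_, ?_⟩
  · refine ⟨periodic_per _, hw, fun t => ?_, ?_, ?_, fun φ hφ => ?_⟩
    · have := periodic_per fun x => w0 x + H x / ss x
      constructor
      · intro x; simp only [hwdef]; rw [this.1]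
      · intro x; simp only [hwdef]; rw [this.2]
    · rw [st_measure]
      have h1 : AEStronglyMeasurable (fun z : ℝ × (ℝ × ℝ) => Real.exp (lam * z.1))
          (((volume : Measure ℝ).restrict (Ioo 0 T)).prod mc) :=
        (Real.continuous_exp.comp (continuous_const.mul continuous_fst)).aestronglyMeasurable
      exact h1.mul hw.1.comp_snd
    · refine ⟨Real.exp (|lam| * T) ^ 2 * ∫ x in cell, w x ^ 2, ?_⟩
      refine (ae_restrict_mem measurableSet_Ioo).mono fun t ht => ⟨hw.const_mul _, ?_⟩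
      have h0 : 0 ≤ ∫ x in cell, w x ^ 2 := integral_nonneg fun x => sq_nonneg (w x)
      simp only [mul_pow]
      rw [integral_const_mul]
      refine mul_le_mul_of_nonneg_right (pow_le_pow_left₀ (Real.exp_pos _).le
        (Real.exp_le_exp.mpr ?_) 2) h0
      exact mul_le_mul (le_abs_self _) ht.2.le ht.1.le (abs_nonneg _)
    · have h1 : ∀ t, ∫ x in cell, Real.exp (lam * t) * w x * (deriv (fun s => φ s x) t +
          ((bb x).1 * dx (φ t) x + (bb x).2 * dy (φ t) x) + lap (φ t) x) =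
          ∫ x in cell, Real.exp (lam * t) * w x * (deriv (fun s => φ s x) t +
          (b1 x * dx (φ t) x + b2 x * dy (φ t) x) + lap (φ t) x) := fun t =>
        setIntegral_congr_fun measurableSet_cell fun x hx => by simp only [bb_eq hx]
      simp only [h1]
      exact dist_eq hT hφ hw heq
  · rintro ⟨_, g₁, g₂, _, _, h⟩
    have hne : (volume : Measure ℝ).restrict (Ioo 0 T) ≠ 0 := by
      rw [Ne, Measure.restrict_eq_zero, Real.volume_Ioo]
      simpa using hT
    have : (ae ((volume : Measure ℝ).restrict (Ioo 0 T))).NeBot := ae_neBot.mpr hne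
    obtain ⟨t, ht⟩ := h.exists
    exact hno t _ _ ht
  · exact hno

end Pool.Agent.Helper54.AD
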